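import Mathlib

/-!
# Andréief identity and the Cauchy determinant
-/

open MeasureTheory Finset Matrix
open scoped BigOperators

namespace Pool.Agent.Helper28.Eta

/-- Andréief's identity. -/
theorem andreief {α : Type*} [MeasurableSpace α] (μ : Measure α) [SigmaFinite μ] {n : ℕ}
    (p q : Fin n → α → ℝ) (h : ∀ i j, Integrable (fun x => p i x * q j x) μ) :
    ∫ x : Fin n → α, (Matrix.of fun i k => p i (x k)).det * (Matrix.of fun i k => q i (x k)).det
      ∂(Measure.pi fun _ => μ)
      = (n.factorial : ℝ) * (Matrix.of fun i j => ∫ x, p i x * q j x ∂μ).det := by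
  classical
  have hexp : ∀ x : Fin n → α,
      (Matrix.of fun i k => p i (x k)).det * (Matrix.of fun i k => q i (x k)).det
      = ∑ π : Equiv.Perm (Fin n), ∑ σ : Equiv.Perm (Fin n),
          (((Equiv.Perm.sign σ : ℤ) : ℝ) * ((Equiv.Perm.sign π : ℤ) : ℝ)) *
          ∏ k, (p (σ k) (x k) * q (π k) (x k)) := by
    intro x
    rw [Matrix.det_apply', Matrix.det_apply', Finset.sum_mul_sum, Finset.sum_comm]
    refine Finset.sum_congr rfl fun π _ => Finset.sum_congr rfl fun σ _ => ?_
    rw [Finset.prod_mul_distrib]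
    simp only [Matrix.of_apply]
    ring
  have hint : ∀ (π σ : Equiv.Perm (Fin n)),
      Integrable (fun x : Fin n → α => ∏ k, (p (σ k) (x k) * q (π k) (x k)))
        (Measure.pi fun _ => μ) := by
    intro π σ
    exact Integrable.fintype_prod (f := fun k x => p (σ k) x * q (π k) x)
      (fun k => h (σ k) (π k))
  simp_rw [hexp]
  rw [integral_finsetSum _ (fun π _ => integrable_finsetSum _ (fun σ _ =>
    (hint π σ).const_mul _))]
  have hterm : ∀ π : Equiv.Perm (Fin n),
      ∫ x : Fin n → α, ∑ σ : Equiv.Perm (Fin n),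
          (((Equiv.Perm.sign σ : ℤ) : ℝ) * ((Equiv.Perm.sign π : ℤ) : ℝ)) *
          ∏ k, (p (σ k) (x k) * q (π k) (x k)) ∂(Measure.pi fun _ => μ)
      = (Matrix.of fun i j => ∫ x, p i x * q j x ∂μ).det := by
    intro π
    rw [integral_finsetSum _ (fun σ _ => (hint π σ).const_mul _)]
    have h1 : ∀ σ : Equiv.Perm (Fin n),
        ∫ x : Fin n → α, (((Equiv.Perm.sign σ : ℤ) : ℝ) * ((Equiv.Perm.sign π : ℤ) : ℝ)) *
          ∏ k, (p (σ k) (x k) * q (π k) (x k)) ∂(Measure.pi fun _ => μ)
        = (((Equiv.Perm.sign (σ * π⁻¹) : ℤ) : ℝ)) *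
          ∏ k, ∫ x, p ((σ * π⁻¹) k) x * q k x ∂μ := by
      intro σ
      rw [integral_const_mul,
        integral_fintype_prod_eq_prod (f := fun k x => p (σ k) x * q (π k) x)]
      congr 1
      · rw [Equiv.Perm.sign_mul, Equiv.Perm.sign_inv]
        push_cast
        ring
      · rw [← Equiv.prod_comp π (fun k => ∫ x, p ((σ * π⁻¹) k) x * q k x ∂μ)]
        refine Finset.prod_congr rfl fun k _ => ?_
        simp
    simp_rw [h1]
    have h2 := Equiv.sum_comp (Equiv.mulRight π⁻¹) (fun σ : Equiv.Perm (Fin n) =>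
      (((Equiv.Perm.sign σ : ℤ) : ℝ)) * ∏ k, ∫ x, p (σ k) x * q k x ∂μ)
    simp only [Equiv.coe_mulRight] at h2
    rw [h2, Matrix.det_apply']
    simp only [Matrix.of_apply]
  simp_rw [hterm]
  simp [Fintype.card_perm]

/-- Vandermonde product. -/
noncomputable def vdm {n : ℕ} (v : Fin n → ℝ) : ℝ := ∏ i, ∏ j ∈ Ioi i, (v j - v i)

/-- The sign `(-1)^(n(n-1)/2)`. -/
noncomputable def sg (n : ℕ) : ℝ := ∏ i : Fin n, ∏ _j ∈ Ioi i, (-1 : ℝ)

theorem sg_mul_sg (n : ℕ) : sg n * sg n = 1 := by
  unfold sg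
  rw [← Finset.prod_mul_distrib]
  refine Finset.prod_eq_one fun i _ => ?_
  rw [← Finset.prod_mul_distrib]
  refine Finset.prod_eq_one fun j _ => by norm_num

theorem sg_ne_zero (n : ℕ) : sg n ≠ 0 := by
  intro h
  have := sg_mul_sg n
  rw [h] at this
  norm_num at this

open Polynomial in
/-- the Cauchy determinant -/
theorem cauchy_det {n : ℕ} (X Y : Fin n → ℝ) (hX : ∀ i, 0 < X i) (hY : ∀ i, 0 < Y i) :
    (Matrix.of fun i j => 1 / (1 + X i * Y j)).det
      = sg n * vdm X * vdm Y / ∏ i, ∏ j, (1 + X i * Y j) := by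
  classical
  have hpos : ∀ i j, 0 < 1 + X i * Y j := fun i j => by
    have := mul_pos (hX i) (hY j); linarith
  -- polynomials
  let q : Fin n → ℝ[X] := fun j => ∏ k ∈ {j}ᶜ, (1 + C (Y k) * Polynomial.X)
  have hqdeg : ∀ j, (q j).natDegree < n := by
    intro j
    have h1 : (q j).natDegree ≤ ∑ k ∈ ({j}ᶜ : Finset (Fin n)), 1 := by
      refine (Polynomial.natDegree_prod_le _ _).trans (Finset.sum_le_sum fun k _ => ?_)
      refine (Polynomial.natDegree_add_le _ _).trans ?_
      refine max_le (by simp) ?_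
      exact (Polynomial.natDegree_C_mul_le _ _).trans Polynomial.natDegree_X_le
    have h2 : (({j}ᶜ : Finset (Fin n))).card < n := by
      have := Finset.card_compl_lt_iff_nonempty ({j} : Finset (Fin n))
      rw [Fintype.card_fin] at this
      exact this.2 (Finset.singleton_nonempty j)
    simp only [Finset.sum_const, smul_eq_mul, mul_one] at h1
    omega
  let Q : Matrix (Fin n) (Fin n) ℝ := Matrix.of fun m j => (q j).coeff m
  have hfac : ∀ W : Fin n → ℝ,
      (Matrix.of fun i j => (q j).eval (W i)) = Matrix.vandermonde W * Q := by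
    intro W
    ext i j
    rw [Matrix.mul_apply, Matrix.of_apply, Polynomial.eval_eq_sum_range' (hqdeg j),
      ← Fin.sum_univ_eq_sum_range (fun m => (q j).coeff m * W i ^ m)]
    refine Finset.sum_congr rfl fun m _ => ?_
    simp [Matrix.vandermonde_apply, Q, mul_comm]
  have heval : ∀ (w : ℝ) (j : Fin n), (q j).eval w = ∏ k ∈ {j}ᶜ, (1 + w * Y k) := by
    intro w j
    simp only [q, Polynomial.eval_prod, Polynomial.eval_add, Polynomial.eval_one,
      Polynomial.eval_mul, Polynomial.eval_C, Polynomial.eval_X]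
    refine Finset.prod_congr rfl fun k _ => by ring
  -- det of Q
  have hQ : Q.det = sg n * vdm Y := by
    by_cases hinj : Function.Injective Y
    · -- evaluate at -1/Y
      have hYne : ∀ l, Y l ≠ 0 := fun l => (hY l).ne'
      have h1 := hfac (fun l => -1 / Y l)
      have hdiag : (Matrix.of fun i j => (q j).eval (-1 / Y i))
          = Matrix.diagonal fun l => ∏ k ∈ {l}ᶜ, (1 + (-1 / Y l) * Y k) := by
        ext i j
        rw [Matrix.of_apply, heval]
        by_cases hij : i = j
        · subst hij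
          rw [Matrix.diagonal_apply_eq]
        · rw [Matrix.diagonal_apply_ne _ hij]
          refine Finset.prod_eq_zero (i := i) (by simpa using hij) ?_
          field_simp [hYne i]
          ring
      rw [hdiag] at h1
      have h2 := congrArg Matrix.det h1
      rw [Matrix.det_diagonal, Matrix.det_mul, Matrix.det_vandermonde,
        ← Finset.prod_prod_Ioi_mul_eq_prod_prod_off_diag
          (fun k l => (1 + (-1 / Y l) * Y k))] at h2
      have h3 : ∀ i : Fin n, ∀ j ∈ Ioi i,
          (-1 / Y j - -1 / Y i) = (Y j - Y i) / (Y i * Y j) := by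
        intro i j _
        field_simp [hYne i, hYne j]
        ring
      have h4 : ∀ i : Fin n, ∀ j ∈ Ioi i,
          (1 + (-1 / Y i) * Y j) * (1 + (-1 / Y j) * Y i)
            = (-1) * (Y j - Y i) * ((Y j - Y i) / (Y i * Y j)) := by
        intro i j _
        field_simp [hYne i, hYne j]
        ring
      have h5 : ∏ i, ∏ j ∈ Ioi i, ((1 + (-1 / Y i) * Y j) * (1 + (-1 / Y j) * Y i))
          = (sg n * vdm Y) * ∏ i, ∏ j ∈ Ioi i, (-1 / Y j - -1 / Y i) := by
        unfold sg vdm
        rw [← Finset.prod_mul_distrib, ← Finset.prod_mul_distrib]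
        refine Finset.prod_congr rfl fun i _ => ?_
        rw [← Finset.prod_mul_distrib, ← Finset.prod_mul_distrib]
        refine Finset.prod_congr rfl fun j hj => ?_
        rw [h4 i j hj, h3 i j hj]
      rw [h5] at h2
      have hne : ∏ i : Fin n, ∏ j ∈ Ioi i, (-1 / Y j - -1 / Y i) ≠ 0 := by
        refine Finset.prod_ne_zero_iff.2 fun i _ => Finset.prod_ne_zero_iff.2 fun j hj => ?_
        rw [h3 i j hj]
        have hij : Y j ≠ Y i := fun h => (Finset.mem_Ioi.1 hj).ne' (hinj h)
        exact div_ne_zero (sub_ne_zero.2 hij) (mul_ne_zero (hYne i) (hYne j))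
      have h6 : (sg n * vdm Y) * ∏ i : Fin n, ∏ j ∈ Ioi i, (-1 / Y j - -1 / Y i)
          = Q.det * ∏ i : Fin n, ∏ j ∈ Ioi i, (-1 / Y j - -1 / Y i) := by
        rw [h2]; ring
      exact (mul_right_cancel₀ hne h6).symm
    · -- both sides zero
      obtain ⟨i, j, hij, hne⟩ : ∃ i j, Y i = Y j ∧ i ≠ j := by
        simpa [Function.Injective] using hinj
      have hq : q i = q j := by
        simp only [q]
        have e1 : (1 + C (Y i) * Polynomial.X) * ∏ k ∈ ({i}ᶜ : Finset (Fin n)),
            (1 + C (Y k) * Polynomial.X) = ∏ k, (1 + C (Y k) * Polynomial.X) := by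
          rw [← Finset.prod_mul_prod_compl {i} (fun k => (1 + C (Y k) * Polynomial.X))]
          simp
        have e2 : (1 + C (Y j) * Polynomial.X) * ∏ k ∈ ({j}ᶜ : Finset (Fin n)),
            (1 + C (Y k) * Polynomial.X) = ∏ k, (1 + C (Y k) * Polynomial.X) := by
          rw [← Finset.prod_mul_prod_compl {j} (fun k => (1 + C (Y k) * Polynomial.X))]
          simp
        have hne' : (1 + C (Y i) * Polynomial.X : ℝ[X]) ≠ 0 := by
          intro h
          have := congrArg (Polynomial.eval 0) h
          simp at this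
        refine mul_left_cancel₀ hne' ?_
        rw [e1, hij, e2]
      have hdet0 : Q.det = 0 :=
        Matrix.det_zero_of_column_eq hne (fun m => by simp [Q, hq])
      have hv0 : vdm Y = 0 := by
        have := (Matrix.det_vandermonde_eq_zero_iff (v := Y)).2 ⟨i, j, hij, hne⟩
        rwa [Matrix.det_vandermonde] at this
      rw [hdet0, hv0, mul_zero]
  -- main computation
  have hA : (Matrix.of fun i j => 1 / (1 + X i * Y j))
      = Matrix.of fun i j => (∏ k, (1 + X i * Y k))⁻¹ * (q j).eval (X i) := by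
    ext i j
    rw [Matrix.of_apply, Matrix.of_apply, heval]
    have e1 : ∏ k, (1 + X i * Y k) = (1 + X i * Y j) * ∏ k ∈ ({j}ᶜ : Finset (Fin n)),
        (1 + X i * Y k) := by
      rw [← Finset.prod_mul_prod_compl {j} (fun k => (1 + X i * Y k))]
      simp
    rw [e1]
    have hne : ∏ k ∈ ({j}ᶜ : Finset (Fin n)), (1 + X i * Y k) ≠ 0 :=
      Finset.prod_ne_zero_iff.2 fun k _ => (hpos i k).ne'
    field_simp [(hpos i j).ne', hne]
  rw [hA]
  have hB : (Matrix.of fun i j => (∏ k, (1 + X i * Y k))⁻¹ * (q j).eval (X i))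
      = Matrix.of fun i j => (fun i => (∏ k, (1 + X i * Y k))⁻¹) i *
        (Matrix.of fun i j => (q j).eval (X i)) i j := by
    ext i j; simp
  rw [hB, Matrix.det_mul_column, hfac X, Matrix.det_mul, Matrix.det_vandermonde, hQ,
    Finset.prod_inv_distrib]
  unfold vdm
  rw [div_eq_mul_inv]
  ring

end Pool.Agent.Helper28.Eta
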