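import Mathlib

/-!
# The Dirichlet eta function as an entire function
-/

open MeasureTheory Set Filter Asymptotics Topology

namespace Pool.Agent.Helper28.Eta

/-- The Dirichlet eta function `η(s) = (1 - 2^(1-s)) ζ(s)`, with the value `log 2` at the
removable singularity `s = 1`. -/
noncomputable def eta (s : ℂ) : ℂ :=
  if s = 1 then (Real.log 2 : ℂ) else (1 - (2 : ℂ) ^ (1 - s)) * riemannZeta s

theorem eta_of_ne {s : ℂ} (hs : s ≠ 1) : eta s = (1 - (2 : ℂ) ^ (1 - s)) * riemannZeta s := by
  rw [eta, if_neg hs]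

theorem hasDerivAt_two_cpow (s : ℂ) :
    HasDerivAt (fun s : ℂ => (2 : ℂ) ^ (1 - s)) (-((2 : ℂ) ^ (1 - s) * Complex.log 2)) s := by
  have h := ((hasDerivAt_id s).const_sub 1).const_cpow (c := (2 : ℂ)) (Or.inl two_ne_zero)
  simpa using h

theorem eta_differentiableAt_of_ne {s : ℂ} (hs : s ≠ 1) : DifferentiableAt ℂ eta s := by
  have h1 : DifferentiableAt ℂ (fun s : ℂ => (1 - (2 : ℂ) ^ (1 - s)) * riemannZeta s) s :=
    ((differentiableAt_const _).sub (hasDerivAt_two_cpow s).differentiableAt).mul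
      (differentiableAt_riemannZeta hs)
  refine h1.congr_of_eventuallyEq ?_
  filter_upwards [isOpen_ne.mem_nhds hs] with w hw
  exact eta_of_ne hw

theorem eta_continuousAt_one : ContinuousAt eta 1 := by
  rw [continuousAt_iff_punctured_nhds]
  have h1 : Tendsto (fun s : ℂ => (1 - (2 : ℂ) ^ (1 - s)) / (s - 1)) (𝓝[≠] 1)
      (𝓝 (Real.log 2 : ℂ)) := by
    have h := (hasDerivAt_two_cpow 1).tendsto_slope
    have h2 := h.neg
    simp only [sub_self, Complex.cpow_zero, one_mul, neg_neg] at h2
    rw [Complex.ofReal_log (by norm_num)]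
    refine (h2.congr' ?_)
    filter_upwards [self_mem_nhdsWithin] with w hw
    rw [slope_def_field]
    simp only [sub_self, Complex.cpow_zero]
    rw [← neg_div]
    congr 1
    ring
  have h2 := h1.mul riemannZeta_residue_one
  rw [mul_one] at h2
  have h3 : eta 1 = (Real.log 2 : ℂ) := by simp [eta]
  rw [h3]
  refine h2.congr' ?_
  filter_upwards [self_mem_nhdsWithin] with w hw
  have hw' : w - 1 ≠ 0 := sub_ne_zero.mpr hw
  rw [eta_of_ne hw]
  field_simp

theorem eta_differentiable : Differentiable ℂ eta := by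
  have h : DifferentiableOn ℂ eta univ := by
    rw [← Complex.differentiableOn_compl_singleton_and_continuousAt_iff
      (c := 1) (s := univ) univ_mem]
    refine ⟨fun s hs => (eta_differentiableAt_of_ne ?_).differentiableWithinAt,
      eta_continuousAt_one⟩
    simpa using hs
  exact fun s => (h s (mem_univ s)).differentiableAt univ_mem

theorem eta_hasSum {s : ℂ} (hs : 1 < s.re) :
    HasSum (fun n : ℕ => (-1 : ℂ) ^ n / ((n : ℂ) + 1) ^ s) (eta s) := by
  have hs1 : s ≠ 1 := by
    rintro rfl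
    simp at hs
  set a : ℕ → ℂ := fun n => 1 / ((n : ℂ) + 1) ^ s with ha
  have hsum : Summable a := by
    have h := (Complex.summable_one_div_nat_cpow (p := s)).mpr hs
    have h2 := (summable_nat_add_iff 1).mpr h
    refine h2.congr fun n => ?_
    simp [ha]
  have hz : HasSum a (riemannZeta s) := by
    rw [zeta_eq_tsum_one_div_nat_add_one_cpow hs]
    exact hsum.hasSum
  have hodd : HasSum (fun k : ℕ => a (2 * k + 1)) ((2 : ℂ) ^ (-s) * riemannZeta s) := by
    have h := hz.mul_left ((2 : ℂ) ^ (-s))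
    refine h.congr_fun fun k => ?_
    simp only [ha]
    have h2 : (((2 * k + 1 : ℕ) : ℂ) + 1) = ((2 : ℝ) : ℂ) * (((k : ℝ) + 1 : ℝ) : ℂ) := by
      push_cast; ring
    rw [h2, Complex.mul_cpow_ofReal_nonneg (by norm_num) (by positivity), Complex.cpow_neg]
    push_cast
    rw [one_div, one_div, mul_inv]
  have heven : HasSum (fun k : ℕ => a (2 * k)) (riemannZeta s - (2 : ℂ) ^ (-s) * riemannZeta s) := by
    have hs2 : Summable (fun k : ℕ => a (2 * k)) :=
      hsum.comp_injective (mul_right_injective₀ (two_ne_zero' ℕ))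
    have h := hs2.hasSum.even_add_odd hodd
    have h2 := h.unique hz
    have h3 : ∑' k, a (2 * k) = riemannZeta s - (2 : ℂ) ^ (-s) * riemannZeta s :=
      eq_sub_of_add_eq h2
    rw [← h3]
    exact hs2.hasSum
  have hb : HasSum (fun n : ℕ => (-1 : ℂ) ^ n / ((n : ℂ) + 1) ^ s)
      ((riemannZeta s - (2 : ℂ) ^ (-s) * riemannZeta s) + -((2 : ℂ) ^ (-s) * riemannZeta s)) := by
    refine HasSum.even_add_odd ?_ ?_
    · refine heven.congr_fun fun k => ?_
      simp [ha, pow_mul]
    · refine hodd.neg.congr_fun fun k => ?_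
      simp only [ha, pow_succ, pow_mul]
      simp [neg_div]
  have heq : eta s = (riemannZeta s - (2 : ℂ) ^ (-s) * riemannZeta s)
      + -((2 : ℂ) ^ (-s) * riemannZeta s) := by
    rw [eta_of_ne hs1]
    have : (2 : ℂ) ^ (1 - s) = 2 * (2 : ℂ) ^ (-s) := by
      rw [sub_eq_add_neg, Complex.cpow_add _ _ two_ne_zero, Complex.cpow_one]
    rw [this]; ring
  rw [heq]
  exact hb

end Pool.Agent.Helper28.Eta
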