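import Mathlib

/-!
# Mellin transforms of rapidly decreasing functions and their iterated derivatives
-/

open MeasureTheory Set Filter Asymptotics Topology

namespace Pool.Agent.Helper28.Eta

/-- Locally integrable, rapidly decreasing, and `O(x^(-b))` at `0` for each `b > 0`. -/
structure Good (f : ℝ → ℂ) : Prop where
  loc : LocallyIntegrableOn f (Ioi 0)
  top : ∀ a : ℝ, f =O[atTop] (fun x : ℝ => x ^ (-a))
  bot : ∀ b : ℝ, 0 < b → f =O[𝓝[>] 0] (fun x : ℝ => x ^ (-b))

theorem Good.mellinConvergent {f : ℝ → ℂ} (hf : Good f) {s : ℂ} (hs : 0 < s.re) :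
    MellinConvergent f s :=
  mellinConvergent_of_isBigO_rpow hf.loc (hf.top (s.re + 1)) (by linarith)
    (hf.bot (s.re / 2) (by linarith)) (by linarith)

theorem Good.log_smul {f : ℝ → ℂ} (hf : Good f) : Good (fun t => Real.log t • f t) := by
  refine ⟨?_, fun a => ?_, fun b hb => ?_⟩
  · have h1 := hf.loc.continuousOn_smul (g := Real.log) isOpen_Ioi.isLocallyClosed
      (Real.continuousOn_log.mono (fun x hx => (ne_of_gt hx : x ≠ 0)))
    exact h1
  · have h1 : Real.log =O[atTop] (fun x : ℝ => x ^ (1:ℝ)) :=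
      (isLittleO_log_rpow_atTop one_pos).isBigO
    have h2 := h1.smul (hf.top (a + 1))
    refine h2.congr' (Eventually.of_forall fun x => rfl) ?_
    filter_upwards [eventually_gt_atTop (0:ℝ)] with x hx
    rw [smul_eq_mul, ← Real.rpow_add hx]
    congr 1; ring
  · have h1 : Real.log =O[𝓝[>] 0] (fun x : ℝ => x ^ (-(b/2))) :=
      (isLittleO_log_rpow_nhdsGT_zero (by linarith)).isBigO
    have h2 := h1.smul (hf.bot (b/2) (by linarith))
    refine h2.congr' (Eventually.of_forall fun x => rfl) ?_
    filter_upwards [self_mem_nhdsWithin] with x hx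
    rw [smul_eq_mul, ← Real.rpow_add hx]
    congr 1; ring

theorem Good.log_pow_smul {f : ℝ → ℂ} (hf : Good f) (k : ℕ) :
    Good (fun t => (Real.log t) ^ k • f t) := by
  induction k with
  | zero => simpa using hf
  | succ k ih =>
    have h := ih.log_smul
    have heq : (fun t => Real.log t • (Real.log t ^ k • f t))
        = (fun t => Real.log t ^ (k + 1) • f t) := by
      funext t
      rw [smul_smul, pow_succ']
    rw [← heq]
    exact h

theorem Good.hasDerivAt_mellin {f : ℝ → ℂ} (hf : Good f) {s : ℂ} (hs : 0 < s.re) :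
    HasDerivAt (mellin f) (mellin (fun t => Real.log t • f t) s) s :=
  (mellin_hasDerivAt_of_isBigO_rpow hf.loc (hf.top (s.re + 1)) (by linarith)
    (hf.bot (s.re / 2) (by linarith)) (by linarith)).2

theorem isOpen_rightHalf : IsOpen {s : ℂ | 0 < s.re} :=
  isOpen_lt continuous_const Complex.continuous_re

theorem Good.iteratedDeriv_mellin {f : ℝ → ℂ} (hf : Good f) (k : ℕ) :
    ∀ {s : ℂ}, 0 < s.re →
      iteratedDeriv k (mellin f) s = mellin (fun t => Real.log t ^ k • f t) s := by
  induction k with
  | zero => intro s _; simp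
  | succ k ih =>
    intro s hs
    rw [iteratedDeriv_succ]
    have h1 : iteratedDeriv k (mellin f) =ᶠ[𝓝 s] mellin (fun t => Real.log t ^ k • f t) := by
      filter_upwards [isOpen_rightHalf.mem_nhds hs] with w hw
      exact ih hw
    rw [h1.deriv_eq, ((hf.log_pow_smul k).hasDerivAt_mellin hs).deriv]
    congr 1
    funext t
    rw [smul_smul, pow_succ']

theorem Good.differentiableAt_mellin {f : ℝ → ℂ} (hf : Good f) {s : ℂ} (hs : 0 < s.re) :
    DifferentiableAt ℂ (mellin f) s := (hf.hasDerivAt_mellin hs).differentiableAt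

end Pool.Agent.Helper28.Eta
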