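import Mathlib
import Pool.Agent.Helper28.EtaMellin
import Pool.Agent.Helper28.EtaFun

/-!
# The kernel `1/(e^(x+y)+1)` and double Mellin transforms
-/

open MeasureTheory Set Filter Asymptotics Topology

namespace Pool.Agent.Helper28.Eta

/-- The kernel `1 / (e^(x+y) + 1)`. -/
noncomputable def kap (x y : ℝ) : ℝ := 1 / (Real.exp (x + y) + 1)

theorem kap_nonneg (x y : ℝ) : 0 ≤ kap x y := by unfold kap; positivity

theorem kap_le (x y : ℝ) : kap x y ≤ Real.exp (-x) * Real.exp (-y) := by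
  unfold kap
  rw [← Real.exp_add, div_le_iff₀ (by positivity), mul_add, ← Real.exp_add, mul_one]
  have : -x + -y + (x + y) = 0 := by ring
  rw [this, Real.exp_zero]
  linarith [Real.exp_pos (-x + -y)]

theorem kap_comm (x y : ℝ) : kap x y = kap y x := by unfold kap; rw [add_comm x y]

theorem measurable_kap : Measurable (Function.uncurry kap) := by
  unfold kap Function.uncurry
  fun_prop

/-- Weights integrable against `e^(-y)`. -/
def W (v : ℝ → ℂ) : Prop := IntegrableOn (fun y => v y * (Real.exp (-y) : ℂ)) (Ioi 0)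

theorem integrable_two {u v : ℝ → ℂ} (hu : W u) (hv : W v) {K : ℝ → ℝ → ℝ}
    (hK : Measurable (Function.uncurry K))
    (hb : ∀ x y, |K x y| ≤ Real.exp (-x) * Real.exp (-y)) :
    Integrable (fun p : ℝ × ℝ => u p.1 * v p.2 * (K p.1 p.2 : ℂ))
      ((volume.restrict (Ioi 0)).prod (volume.restrict (Ioi 0))) := by
  have h := Integrable.mul_prod hu hv
  have hm : Measurable (fun p : ℝ × ℝ => ((K p.1 p.2 * (Real.exp p.1 * Real.exp p.2) : ℝ) : ℂ)) := by
    have h1 : Measurable (fun p : ℝ × ℝ => K p.1 p.2) := hK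
    fun_prop
  have h2 := h.bdd_mul (f := fun p : ℝ × ℝ => ((K p.1 p.2 * (Real.exp p.1 * Real.exp p.2) : ℝ) : ℂ))
    (c := 1) hm.aestronglyMeasurable (Eventually.of_forall fun p => by
      rw [Complex.norm_real, Real.norm_eq_abs, abs_mul,
        abs_of_pos (show (0:ℝ) < Real.exp p.1 * Real.exp p.2 by positivity)]
      calc |K p.1 p.2| * (Real.exp p.1 * Real.exp p.2)
          ≤ (Real.exp (-p.1) * Real.exp (-p.2)) * (Real.exp p.1 * Real.exp p.2) := by
            gcongr; exact hb _ _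
        _ = 1 := by
            rw [Real.exp_neg, Real.exp_neg]
            field_simp)
  refine h2.congr (Eventually.of_forall fun p => ?_)
  have e1 : (Real.exp (-p.1) : ℂ) * (Real.exp p.1 : ℂ) = 1 := by
    rw [← Complex.ofReal_mul, ← Real.exp_add]; simp
  have e2 : (Real.exp (-p.2) : ℂ) * (Real.exp p.2 : ℂ) = 1 := by
    rw [← Complex.ofReal_mul, ← Real.exp_add]; simp
  simp only [Complex.ofReal_mul]
  calc (K p.1 p.2 : ℂ) * ((Real.exp p.1 : ℂ) * (Real.exp p.2 : ℂ)) *
        (u p.1 * (Real.exp (-p.1) : ℂ) * (v p.2 * (Real.exp (-p.2) : ℂ)))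
      = u p.1 * v p.2 * (K p.1 p.2 : ℂ) * ((Real.exp (-p.1) : ℂ) * (Real.exp p.1 : ℂ)) *
        ((Real.exp (-p.2) : ℂ) * (Real.exp p.2 : ℂ)) := by ring
    _ = u p.1 * v p.2 * (K p.1 p.2 : ℂ) := by rw [e1, e2]; ring

theorem Good.of_bound {f : ℝ → ℂ} (hf : IntegrableOn f (Ioi 0)) {C : ℝ}
    (hC : ∀ x, 0 < x → ‖f x‖ ≤ C * Real.exp (-x)) : Good f := by
  refine ⟨hf.locallyIntegrableOn, fun a => ?_, fun b hb => ?_⟩
  · have h1 : f =O[atTop] (fun x : ℝ => Real.exp (-1 * x)) := by
      refine IsBigO.of_bound C ?_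
      filter_upwards [eventually_gt_atTop (0 : ℝ)] with x hx
      rw [Real.norm_eq_abs, Real.abs_exp, neg_one_mul]
      exact hC x hx
    exact h1.trans (isLittleO_exp_neg_mul_rpow_atTop one_pos (-a)).isBigO
  · refine IsBigO.of_bound |C| ?_
    have : Ioo (0 : ℝ) 1 ∈ 𝓝[>] (0 : ℝ) := Ioo_mem_nhdsGT one_pos
    filter_upwards [this] with x hx
    have h1 : 1 ≤ x ^ (-b) := Real.one_le_rpow_of_pos_of_le_one_of_nonpos hx.1 hx.2.le (by linarith)
    have h2 : Real.exp (-x) ≤ 1 := Real.exp_le_one_iff.mpr (by linarith [hx.1])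
    rw [Real.norm_eq_abs, abs_of_pos (Real.rpow_pos_of_pos hx.1 _)]
    calc ‖f x‖ ≤ C * Real.exp (-x) := hC x hx.1
      _ ≤ |C| * Real.exp (-x) := by gcongr; exact le_abs_self C
      _ ≤ |C| * 1 := by gcongr
      _ ≤ |C| * x ^ (-b) := by gcongr

/-- The transform `x ↦ ∫ v(y) / (e^(x+y)+1) dy`. -/
noncomputable def tr (v : ℝ → ℂ) (x : ℝ) : ℂ := ∫ y in Ioi (0 : ℝ), v y * (kap x y : ℂ)

theorem W_one : W (fun _ => 1) := by
  unfold W
  simp only [one_mul]
  exact (integrableOn_exp_neg_Ioi 0).ofReal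

theorem Good.tr {v : ℝ → ℂ} (hv : W v) : Good (tr v) := by
  have h1 := (integrable_two W_one hv measurable_kap
    (fun x y => by rw [abs_of_nonneg (kap_nonneg x y)]; exact kap_le x y)).integral_prod_left
  simp only [one_mul] at h1
  refine Good.of_bound (C := ∫ y in Ioi (0:ℝ), ‖v y * (Real.exp (-y) : ℂ)‖) h1 fun x _ => ?_
  have h2 : ∀ y, ‖v y * (kap x y : ℂ)‖ ≤ Real.exp (-x) * ‖v y * (Real.exp (-y) : ℂ)‖ := by
    intro y
    rw [norm_mul, norm_mul, Complex.norm_real, Complex.norm_real, Real.norm_eq_abs,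
      Real.norm_eq_abs, Real.abs_exp, abs_of_nonneg (kap_nonneg x y)]
    calc ‖v y‖ * kap x y ≤ ‖v y‖ * (Real.exp (-x) * Real.exp (-y)) := by
          gcongr; exact kap_le x y
      _ = _ := by ring
  calc ‖Eta.tr v x‖ ≤ ∫ y in Ioi (0:ℝ), Real.exp (-x) * ‖v y * (Real.exp (-y) : ℂ)‖ :=
        norm_integral_le_of_norm_le (hv.norm.const_mul _) (Eventually.of_forall h2)
    _ = _ := by rw [integral_const_mul]; ring

theorem tr_swap {u v : ℝ → ℂ} (hu : W u) (hv : W v) :
    ∫ x in Ioi (0 : ℝ), u x * tr v x = ∫ y in Ioi (0 : ℝ), v y * tr u y := by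
  have h := integrable_two hu hv measurable_kap
    (fun x y => by rw [abs_of_nonneg (kap_nonneg x y)]; exact kap_le x y)
  have h2 := integral_integral_swap (f := fun x y => u x * v y * (kap x y : ℂ)) h
  calc ∫ x in Ioi (0 : ℝ), u x * tr v x
      = ∫ x in Ioi (0 : ℝ), ∫ y in Ioi (0 : ℝ), u x * v y * (kap x y : ℂ) := by
        congr 1; funext x
        unfold tr
        rw [← integral_const_mul]
        congr 1; funext y; ring
    _ = ∫ y in Ioi (0 : ℝ), ∫ x in Ioi (0 : ℝ), u x * v y * (kap x y : ℂ) := h2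
    _ = ∫ y in Ioi (0 : ℝ), v y * tr u y := by
        congr 1; funext y
        unfold tr
        rw [← integral_const_mul]
        congr 1; funext x
        rw [kap_comm x y]; ring

/-- The weight `y^(t-1) (log y)^k`. -/
noncomputable def wt (t : ℂ) (k : ℕ) (y : ℝ) : ℂ := (y : ℂ) ^ (t - 1) * ((Real.log y ^ k : ℝ) : ℂ)

theorem good_exp : Good (fun x : ℝ => (Real.exp (-x) : ℂ)) := by
  refine Good.of_bound (C := 1) (integrableOn_exp_neg_Ioi 0).ofReal fun x _ => ?_
  rw [Complex.norm_real, Real.norm_eq_abs, Real.abs_exp, one_mul]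

theorem W_wt {t : ℂ} (ht : 0 < t.re) (k : ℕ) : W (wt t k) := by
  have h := (good_exp.log_pow_smul k).mellinConvergent ht
  unfold MellinConvergent at h
  unfold W
  refine h.congr_fun (fun x _ => ?_) measurableSet_Ioi
  simp only [wt, smul_eq_mul, Complex.real_smul]
  ring

theorem mellin_log_pow (f : ℝ → ℂ) (t : ℂ) (k : ℕ) :
    mellin (fun y => Real.log y ^ k • f y) t = ∫ y in Ioi (0:ℝ), wt t k y * f y := by
  unfold mellin wt
  congr 1; funext y
  simp only [smul_eq_mul, Complex.real_smul]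
  ring

theorem kap_hasSum {x y : ℝ} (h : 0 < x + y) :
    HasSum (fun n : ℕ => (-1 : ℝ) ^ n * Real.exp (-((n : ℝ) + 1) * (x + y))) (kap x y) := by
  have hr : |(-Real.exp (-(x + y)))| < 1 := by
    rw [abs_neg, Real.abs_exp]
    exact Real.exp_lt_one_iff.mpr (by linarith)
  have h1 := (hasSum_geometric_of_abs_lt_one hr).mul_left (Real.exp (-(x + y)))
  have h2 : Real.exp (-(x + y)) * (1 - -Real.exp (-(x + y)))⁻¹ = kap x y := by
    unfold kap
    rw [Real.exp_neg]
    have := Real.exp_pos (x + y)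
    rw [sub_neg_eq_add, ← mul_inv, one_div]
    congr 1
    rw [mul_add, mul_one, mul_inv_cancel₀ this.ne']
  rw [h2] at h1
  refine h1.congr_fun fun n => ?_
  have h3 : -((n : ℝ) + 1) * (x + y) = -(x + y) + (n : ℝ) * (-(x + y)) := by ring
  rw [h3, Real.exp_add, Real.exp_nat_mul, neg_pow]
  ring

theorem tr_wt_zero_hasSum {z : ℂ} (hz : 0 < z.re) {y : ℝ} (hy : 0 < y) :
    HasSum (fun n : ℕ => Complex.Gamma z * (-1 : ℂ) ^ n / ((n : ℂ) + 1) ^ z *
      (Real.exp (-((n : ℝ) + 1) * y) : ℂ)) (tr (wt z 0) y) := by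
  have h := hasSum_mellin (ι := ℕ) (a := fun n => (-1 : ℂ) ^ n * (Real.exp (-((n : ℝ) + 1) * y) : ℂ))
    (p := fun n => (n : ℝ) + 1) (F := fun x => (kap y x : ℂ)) (s := z)
    (fun i => Or.inr (by positivity)) hz (fun t ht => ?_) ?_
  · have h2 : mellin (fun x => (kap y x : ℂ)) z = tr (wt z 0) y := by
      unfold mellin tr wt
      simp
    rw [h2] at h
    refine h.congr_fun fun n => ?_
    push_cast
    ring
  · have h1 := kap_hasSum (x := y) (y := t) (by have := mem_Ioi.mp ht; linarith)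
    have h2 := Complex.hasSum_ofReal.mpr h1
    refine h2.congr_fun fun n => ?_
    rw [mul_add, Real.exp_add]
    push_cast
    ring
  · have hs : Summable (fun n : ℕ => Real.exp (-y) * (Real.exp (-y)) ^ n) :=
      (summable_geometric_of_lt_one (Real.exp_pos _).le
        (Real.exp_lt_one_iff.mpr (by linarith))).mul_left _
    refine Summable.of_nonneg_of_le (fun n => by positivity) (fun n => ?_) hs
    rw [norm_mul, norm_pow, norm_neg, norm_one, one_pow, one_mul, Complex.norm_real,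
      Real.norm_eq_abs, Real.abs_exp]
    have h1 : -((n : ℝ) + 1) * y = -y + (n : ℝ) * (-y) := by ring
    rw [h1, Real.exp_add, Real.exp_nat_mul]
    refine div_le_self (by positivity) ?_
    exact Real.one_le_rpow (by linarith [(Nat.cast_nonneg n : (0:ℝ) ≤ n)]) hz.le

/-- Base identity in the half plane of absolute convergence. -/
theorem mellin_tr_of_one_lt {z t : ℂ} (hz : 0 < z.re) (ht : 1 < t.re) :
    mellin (tr (wt z 0)) t = Complex.Gamma z * Complex.Gamma t * eta (z + t) := by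
  have h := hasSum_mellin (ι := ℕ) (a := fun n => Complex.Gamma z * (-1 : ℂ) ^ n / ((n : ℂ) + 1) ^ z)
    (p := fun n => (n : ℝ) + 1) (F := tr (wt z 0)) (s := t)
    (fun i => Or.inr (by positivity)) (by linarith)
    (fun y hy => tr_wt_zero_hasSum hz (mem_Ioi.mp hy)) ?_
  · have h2 := (eta_hasSum (s := z + t) (by rw [Complex.add_re]; linarith)).mul_left
      (Complex.Gamma z * Complex.Gamma t)
    refine h.unique ?_
    refine h2.congr_fun fun n => ?_
    have hn : ((n : ℂ) + 1) ≠ 0 := by exact_mod_cast Nat.succ_ne_zero n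
    rw [Complex.cpow_add _ _ hn]
    push_cast
    field_simp
  · have h1 : Summable (fun n : ℕ => ‖Complex.Gamma z‖ * (1 / ((n : ℝ) + 1) ^ (t.re))) := by
      refine Summable.mul_left _ ?_
      have := (summable_nat_add_iff 1).mpr (Real.summable_one_div_nat_rpow.mpr ht)
      refine this.congr fun n => ?_
      push_cast; rfl
    refine Summable.of_nonneg_of_le (fun n => by positivity) (fun n => ?_) h1
    have hn : (0:ℝ) < (n : ℝ) + 1 := by positivity
    rw [norm_div, norm_mul, norm_pow, norm_neg, norm_one, one_pow, mul_one]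
    have h3 : ‖((n : ℂ) + 1) ^ z‖ = ((n : ℝ) + 1) ^ z.re := by
      have : ((n : ℂ) + 1) = (((n : ℝ) + 1 : ℝ) : ℂ) := by push_cast; rfl
      rw [this, Complex.norm_cpow_eq_rpow_re_of_pos hn]
    rw [h3, div_div, mul_one_div]
    gcongr
    have h4 : 1 ≤ ((n : ℝ) + 1) ^ z.re :=
      Real.one_le_rpow (by linarith [(Nat.cast_nonneg n : (0:ℝ) ≤ n)]) hz.le
    nlinarith [Real.rpow_pos_of_pos hn t.re]

end Pool.Agent.Helper28.Eta
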