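import Mathlib
import Pool.Agent.Helper28.EtaKernel

/-!
# Derivatives of eta as double moments
-/

open MeasureTheory Set Filter Asymptotics Topology

namespace Pool.Agent.Helper28.Eta

theorem gamma_diff {t : ℂ} (ht : 0 < t.re) : DifferentiableAt ℂ Complex.Gamma t := by
  refine Complex.differentiableAt_Gamma t fun m hm => ?_
  rw [hm] at ht
  simp at ht
  linarith [(Nat.cast_nonneg m : (0:ℝ) ≤ m)]

theorem gamma_diffOn : DifferentiableOn ℂ Complex.Gamma {s : ℂ | 0 < s.re} :=
  fun _ ht => (gamma_diff ht).differentiableWithinAt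

theorem gamma_contDiffAt {t : ℂ} (ht : 0 < t.re) {n : WithTop ℕ∞} : ContDiffAt ℂ n Complex.Gamma t :=
  (gamma_diffOn.analyticAt (isOpen_rightHalf.mem_nhds ht)).contDiffAt

theorem eta_contDiff {n : WithTop ℕ∞} : ContDiff ℂ n eta := eta_differentiable.contDiff

theorem mellin_tr {z t : ℂ} (hz : 0 < z.re) (ht : 0 < t.re) :
    mellin (tr (wt z 0)) t = Complex.Gamma z * Complex.Gamma t * eta (z + t) := by
  have hW : W (wt z 0) := W_wt hz 0
  have h1 : AnalyticOnNhd ℂ (mellin (tr (wt z 0))) {s : ℂ | 0 < s.re} := by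
    refine DifferentiableOn.analyticOnNhd (fun s hs => ?_) isOpen_rightHalf
    exact ((Good.tr hW).differentiableAt_mellin hs).differentiableWithinAt
  have h2 : AnalyticOnNhd ℂ (fun t => Complex.Gamma z * Complex.Gamma t * eta (z + t))
      {s : ℂ | 0 < s.re} := by
    refine DifferentiableOn.analyticOnNhd (fun s hs => ?_) isOpen_rightHalf
    have h3 : DifferentiableAt ℂ (fun t => Complex.Gamma z * Complex.Gamma t * eta (z + t)) s :=
      ((gamma_diff hs).const_mul _).mul
        ((eta_differentiable (z + s)).comp s ((differentiableAt_id).const_add z))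
    exact h3.differentiableWithinAt
  have hconv : Convex ℝ {s : ℂ | 0 < s.re} := convex_halfSpace_re_gt 0
  have h4 : mellin (tr (wt z 0)) =ᶠ[𝓝 (2 : ℂ)]
      (fun t => Complex.Gamma z * Complex.Gamma t * eta (z + t)) := by
    have hopen : IsOpen {s : ℂ | 1 < s.re} := isOpen_lt continuous_const Complex.continuous_re
    filter_upwards [hopen.mem_nhds (show (2 : ℂ) ∈ {s : ℂ | 1 < s.re} by simp)] with w hw
    exact mellin_tr_of_one_lt hz hw
  exact h1.eqOn_of_preconnected_of_eventuallyEq h2 hconv.isPreconnected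
    (show (2 : ℂ) ∈ {s : ℂ | 0 < s.re} by simp) h4 ht

theorem iteratedDeriv_iteratedDeriv' (f : ℂ → ℂ) (m n : ℕ) :
    iteratedDeriv m (iteratedDeriv n f) = iteratedDeriv (m + n) f := by
  rw [iteratedDeriv_eq_iterate, iteratedDeriv_eq_iterate, iteratedDeriv_eq_iterate,
    Function.iterate_add_apply]

theorem eta_iter_contDiff (k : ℕ) {n : WithTop ℕ∞} : ContDiff ℂ n (iteratedDeriv k eta) := by
  have : Differentiable ℂ (iteratedDeriv k eta) := by
    rw [iteratedDeriv_eq_iterate]
    induction k with
    | zero => simpa using eta_differentiable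
    | succ k ih =>
      rw [Function.iterate_succ_apply']
      exact ih.contDiff.differentiable_deriv_two
  exact this.contDiff

/-- First differentiation. -/
theorem mellin_log_tr {z t : ℂ} (hz : 0 < z.re) (ht : 0 < t.re) (k : ℕ) :
    mellin (tr (wt t k)) z = Complex.Gamma z *
      ∑ i ∈ Finset.range (k + 1), (k.choose i : ℂ) * iteratedDeriv i eta (z + t) *
        iteratedDeriv (k - i) Complex.Gamma t := by
  have hWz : W (wt z 0) := W_wt hz 0
  have hWt : W (wt t k) := W_wt ht k
  have h1 := (Good.tr hWz).iteratedDeriv_mellin k ht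
  have h2 : iteratedDeriv k (mellin (tr (wt z 0))) t =
      iteratedDeriv k (fun t => Complex.Gamma z * (eta (z + t) * Complex.Gamma t)) t := by
    refine Filter.EventuallyEq.iteratedDeriv_eq k ?_
    filter_upwards [isOpen_rightHalf.mem_nhds ht] with w hw
    rw [mellin_tr hz hw]; ring
  have h3 : mellin (fun t => Real.log t ^ k • tr (wt z 0) t) t = mellin (tr (wt t k)) z := by
    rw [mellin_log_pow, tr_swap hWt hWz]
    have := mellin_log_pow (tr (wt t k)) z 0
    simp only [pow_zero, one_smul] at this
    exact this.symm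
  rw [← h3, ← h1, h2, iteratedDeriv_const_mul_field]
  congr 1
  rw [iteratedDeriv_fun_mul (n := k) (f := fun t => eta (z + t))
    (eta_contDiff.contDiffAt.comp t (contDiffAt_const.add contDiffAt_id)) (gamma_contDiffAt ht)]
  refine Finset.sum_congr rfl fun i _ => ?_
  rw [iteratedDeriv_comp_const_add]

/-- Second differentiation. -/
theorem mellin_log_log_tr {z t : ℂ} (hz : 0 < z.re) (ht : 0 < t.re) (j k : ℕ) :
    ∫ x in Ioi (0:ℝ), wt z j x * tr (wt t k) x =
      ∑ l ∈ Finset.range (j + 1), ∑ i ∈ Finset.range (k + 1),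
        ((j.choose l : ℂ) * iteratedDeriv (j - l) Complex.Gamma z) *
        iteratedDeriv (l + i) eta (z + t) *
        ((k.choose i : ℂ) * iteratedDeriv (k - i) Complex.Gamma t) := by
  have hWt : W (wt t k) := W_wt ht k
  have h1 := (Good.tr hWt).iteratedDeriv_mellin j hz
  have h2 : iteratedDeriv j (mellin (tr (wt t k))) z =
      iteratedDeriv j (fun z => (∑ i ∈ Finset.range (k + 1),
        ((k.choose i : ℂ) * iteratedDeriv (k - i) Complex.Gamma t) *
          iteratedDeriv i eta (z + t)) * Complex.Gamma z) z := by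
    refine Filter.EventuallyEq.iteratedDeriv_eq j ?_
    filter_upwards [isOpen_rightHalf.mem_nhds hz] with w hw
    rw [mellin_log_tr hw ht, mul_comm]
    congr 1
    refine Finset.sum_congr rfl fun i _ => ?_
    ring
  rw [← mellin_log_pow, ← h1, h2]
  have hg : ∀ i, ContDiff ℂ j (fun z => ((k.choose i : ℂ) * iteratedDeriv (k - i) Complex.Gamma t) *
          iteratedDeriv i eta (z + t)) := fun i =>
    contDiff_const.mul ((eta_iter_contDiff i).comp (contDiff_id.add contDiff_const))
  rw [iteratedDeriv_fun_mul (n := j)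
    (ContDiff.contDiffAt (ContDiff.sum fun i _ => hg i)) (gamma_contDiffAt hz)]
  refine Finset.sum_congr rfl fun l hl => ?_
  have h5 : iteratedDeriv l (fun z => ∑ i ∈ Finset.range (k + 1),
        ((k.choose i : ℂ) * iteratedDeriv (k - i) Complex.Gamma t) *
          iteratedDeriv i eta (z + t)) z =
      ∑ i ∈ Finset.range (k + 1), ((k.choose i : ℂ) * iteratedDeriv (k - i) Complex.Gamma t) *
        iteratedDeriv (l + i) eta (z + t) := by
    rw [iteratedDeriv_fun_sum (fun i _ => ((hg i).of_le (by
      have := Finset.mem_range.mp hl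
      exact_mod_cast Nat.lt_succ_iff.mp this)).contDiffAt)]
    refine Finset.sum_congr rfl fun i _ => ?_
    rw [iteratedDeriv_const_mul_field, iteratedDeriv_comp_add_const,
      iteratedDeriv_iteratedDeriv']
  rw [h5, Finset.mul_sum, Finset.sum_mul]
  refine Finset.sum_congr rfl fun i _ => ?_
  ring

end Pool.Agent.Helper28.Eta
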