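import Mathlib
import Pool.Agent.Helper28.EtaAndreief

/-!
# Pointwise inequalities for the two-matrix density
-/

open Finset

namespace Pool.Agent.Helper28.Eta

theorem sinh_mul_ge {l t : ℝ} (hl : 1 ≤ l) (ht : 0 ≤ t) :
    l * Real.sinh t ≤ Real.sinh (l * t) := by
  have hd : ∀ x : ℝ, HasDerivAt (fun t => Real.sinh (l * t) - l * Real.sinh t)
      (l * (Real.cosh (l * x) - Real.cosh x)) x := by
    intro x
    have h1 : HasDerivAt (fun t : ℝ => l * t) l x := by
      simpa using (hasDerivAt_id x).const_mul l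
    have h2 := (Real.hasDerivAt_sinh (l * x)).comp x h1
    have h3 := (Real.hasDerivAt_sinh x).const_mul l
    exact (h2.sub h3).congr_deriv (by ring)
  have hmono : MonotoneOn (fun t => Real.sinh (l * t) - l * Real.sinh t) (Set.Ici 0) := by
    refine monotoneOn_of_deriv_nonneg (convex_Ici 0)
      (fun x _ => (hd x).continuousAt.continuousWithinAt)
      (fun x _ => (hd x).differentiableAt.differentiableWithinAt) (fun x hx => ?_)
    rw [interior_Ici, Set.mem_Ioi] at hx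
    rw [(hd x).deriv]
    have h5 : Real.cosh x ≤ Real.cosh (l * x) := by
      rw [Real.cosh_le_cosh, abs_of_pos hx, abs_of_pos (by positivity)]
      nlinarith
    have : 0 ≤ Real.cosh (l * x) - Real.cosh x := by linarith
    positivity
  have h := hmono (Set.mem_Ici.mpr le_rfl) (Set.mem_Ici.mpr ht) ht
  simp only [mul_zero, Real.sinh_zero, sub_self] at h
  linarith

theorem exp_sub_exp (a b : ℝ) :
    Real.exp a - Real.exp b = Real.exp ((a + b) / 2) * (2 * Real.sinh ((a - b) / 2)) := by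
  rw [Real.sinh_eq, show (2 : ℝ) * ((Real.exp ((a - b) / 2) - Real.exp (-((a - b) / 2))) / 2)
    = Real.exp ((a - b) / 2) - Real.exp (-((a - b) / 2)) by ring, mul_sub, ← Real.exp_add,
    ← Real.exp_add]
  congr 1
  · congr 1; ring
  · congr 1; ring

theorem exp_diff_ge {l a b : ℝ} (hl : 1 ≤ l) (hab : b ≤ a) :
    l * (Real.exp ((l - 1) * a / 2) * Real.exp ((l - 1) * b / 2)) * (Real.exp a - Real.exp b)
      ≤ Real.exp (l * a) - Real.exp (l * b) := by
  rw [exp_sub_exp a b, exp_sub_exp (l * a) (l * b)]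
  have h1 : (l * a - l * b) / 2 = l * ((a - b) / 2) := by ring
  have h2 := sinh_mul_ge hl (show 0 ≤ (a - b) / 2 by linarith)
  have h3 : Real.exp ((l * a + l * b) / 2) = Real.exp ((l - 1) * a / 2) *
      Real.exp ((l - 1) * b / 2) * Real.exp ((a + b) / 2) := by
    rw [← Real.exp_add, ← Real.exp_add]; congr 1; ring
  rw [h1, h3]
  have h4 : 0 ≤ Real.exp ((l - 1) * a / 2) * Real.exp ((l - 1) * b / 2) * Real.exp ((a + b) / 2) := by
    positivity
  nlinarith [mul_le_mul_of_nonneg_left h2 h4]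

/-- pair factor -/
noncomputable def pf (x y : ℝ) : ℝ := (Real.log y - Real.log x) * (Real.exp y - Real.exp x)

theorem pf_nonneg {x y : ℝ} (hx : 0 < x) (hy : 0 < y) : 0 ≤ pf x y := by
  unfold pf
  rcases le_total x y with h | h
  · exact mul_nonneg (sub_nonneg.mpr (Real.log_le_log hx h))
      (sub_nonneg.mpr (Real.exp_le_exp.mpr h))
  · exact mul_nonneg_of_nonpos_of_nonpos (sub_nonpos.mpr (Real.log_le_log hy h))
      (sub_nonpos.mpr (Real.exp_le_exp.mpr h))

theorem pf_pos {x y : ℝ} (hx : 0 < x) (hxy : x < y) : 0 < pf x y := by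
  unfold pf
  exact mul_pos (sub_pos.mpr (Real.log_lt_log hx hxy)) (sub_pos.mpr (Real.exp_lt_exp.mpr hxy))

/-- half-weight -/
noncomputable def hw (l x : ℝ) : ℝ := Real.sqrt l * Real.exp ((l - 1) * x / 2)

theorem hw_pos {l : ℝ} (hl : 1 ≤ l) (x : ℝ) : 0 < hw l x := by
  unfold hw
  have := Real.sqrt_pos.mpr (show 0 < l by linarith)
  positivity

theorem pf_scale {l x y : ℝ} (hl : 1 ≤ l) (hx : 0 < x) (hy : 0 < y) :
    (hw l x * hw l y) * pf x y ≤ pf (l * x) (l * y) := by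
  have hl0 : 0 < l := by linarith
  have e1 : hw l x * hw l y = l * (Real.exp ((l - 1) * x / 2) * Real.exp ((l - 1) * y / 2)) := by
    unfold hw
    have : Real.sqrt l * Real.sqrt l = l := Real.mul_self_sqrt hl0.le
    calc _ = (Real.sqrt l * Real.sqrt l) *
        (Real.exp ((l - 1) * x / 2) * Real.exp ((l - 1) * y / 2)) := by ring
      _ = _ := by rw [this]
  rw [e1]
  unfold pf
  rw [Real.log_mul hl0.ne' hy.ne', Real.log_mul hl0.ne' hx.ne']
  have e2 : Real.log l + Real.log y - (Real.log l + Real.log x) = Real.log y - Real.log x := by ring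
  rw [e2]
  rcases le_total x y with h | h
  · have h1 := exp_diff_ge hl h
    have h2 : 0 ≤ Real.log y - Real.log x := sub_nonneg.mpr (Real.log_le_log hx h)
    nlinarith [mul_le_mul_of_nonneg_left h1 h2]
  · have h1 := exp_diff_ge hl h
    have h2 : 0 ≤ Real.log x - Real.log y := sub_nonneg.mpr (Real.log_le_log hy h)
    nlinarith [mul_le_mul_of_nonneg_left h1 h2]

/-- The product over pairs. -/
noncomputable def VV {n : ℕ} (x : Fin n → ℝ) : ℝ := ∏ i, ∏ j ∈ Ioi i, pf (x i) (x j)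

theorem VV_eq {n : ℕ} (x : Fin n → ℝ) :
    VV x = vdm (fun i => Real.log (x i)) * vdm (fun i => Real.exp (x i)) := by
  unfold VV vdm pf
  rw [← Finset.prod_mul_distrib]
  refine Finset.prod_congr rfl fun i _ => ?_
  rw [← Finset.prod_mul_distrib]

theorem VV_nonneg {n : ℕ} {x : Fin n → ℝ} (hx : ∀ i, 0 < x i) : 0 ≤ VV x :=
  Finset.prod_nonneg fun i _ => Finset.prod_nonneg fun j _ => pf_nonneg (hx i) (hx j)

theorem VV_pos {n : ℕ} {x : Fin n → ℝ} (hx : ∀ i, 0 < x i) (hlt : ∀ i j, i < j → x i < x j) :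
    0 < VV x :=
  Finset.prod_pos fun i _ => Finset.prod_pos fun j hj =>
    pf_pos (hx i) (hlt i j (Finset.mem_Ioi.mp hj))

theorem VV_scale {n : ℕ} {l : ℝ} (hl : 1 ≤ l) {x : Fin n → ℝ} (hx : ∀ i, 0 < x i) :
    (∏ i, hw l (x i) ^ (n - 1)) * VV x ≤ VV (fun i => l * x i) := by
  have h1 : ∏ i : Fin n, ∏ j ∈ Ioi i, (hw l (x i) * hw l (x j)) = ∏ i, hw l (x i) ^ (n - 1) := by
    have h := Finset.prod_prod_Ioi_mul_eq_prod_prod_off_diag
      (fun _ i : Fin n => hw l (x i))
    rw [h]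
    refine Finset.prod_congr rfl fun i _ => ?_
    rw [Finset.prod_const, Finset.card_compl, Fintype.card_fin, Finset.card_singleton]
  rw [← h1]
  unfold VV
  rw [← Finset.prod_mul_distrib]
  refine Finset.prod_le_prod (fun i _ => ?_) (fun i _ => ?_)
  · exact mul_nonneg (Finset.prod_nonneg fun j _ => (mul_pos (hw_pos hl _) (hw_pos hl _)).le)
      (Finset.prod_nonneg fun j _ => pf_nonneg (hx i) (hx j))
  · rw [← Finset.prod_mul_distrib]
    refine Finset.prod_le_prod (fun j _ => ?_) (fun j _ => ?_)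
    · exact mul_nonneg (mul_pos (hw_pos hl _) (hw_pos hl _)).le (pf_nonneg (hx i) (hx j))
    · exact pf_scale hl (hx i) (hx j)

/-- The denominators. -/
noncomputable def DD {n : ℕ} (x y : Fin n → ℝ) : ℝ :=
  ∏ i, ∏ j, (1 + Real.exp (x i) * Real.exp (y j))

theorem DD_pos {n : ℕ} (x y : Fin n → ℝ) : 0 < DD x y :=
  Finset.prod_pos fun i _ => Finset.prod_pos fun j _ => by positivity

theorem DD_scale {n : ℕ} {l : ℝ} (hl : 1 ≤ l) {x y : Fin n → ℝ} (hx : ∀ i, 0 < x i)
    (hy : ∀ i, 0 < y i) :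
    DD (fun i => l * x i) (fun i => l * y i) ≤
      (∏ i, Real.exp ((l - 1) * x i) ^ n) * (∏ i, Real.exp ((l - 1) * y i) ^ n) * DD x y := by
  have h1 : (∏ i, Real.exp ((l - 1) * x i) ^ n) * (∏ i, Real.exp ((l - 1) * y i) ^ n)
      = ∏ i, ∏ j, (Real.exp ((l - 1) * x i) * Real.exp ((l - 1) * y j)) := by
    simp_rw [Finset.prod_mul_distrib]
    congr 1
    · refine Finset.prod_congr rfl fun i _ => ?_
      simp
    · simp [Finset.prod_pow]
  rw [h1]
  unfold DD
  rw [← Finset.prod_mul_distrib]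
  refine Finset.prod_le_prod (fun i _ => Finset.prod_nonneg fun j _ => by positivity)
    (fun i _ => ?_)
  rw [← Finset.prod_mul_distrib]
  refine Finset.prod_le_prod (fun j _ => by positivity) (fun j _ => ?_)
  have e1 : Real.exp (l * x i) * Real.exp (l * y j) =
      (Real.exp ((l - 1) * x i) * Real.exp ((l - 1) * y j)) * (Real.exp (x i) * Real.exp (y j)) := by
    rw [← Real.exp_add, ← Real.exp_add, ← Real.exp_add, ← Real.exp_add]; congr 1; ring
  rw [e1, mul_add, mul_one]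
  have h2 : 1 ≤ Real.exp ((l - 1) * x i) := Real.one_le_exp (mul_nonneg (by linarith) (hx i).le)
  have h3 : 1 ≤ Real.exp ((l - 1) * y j) := Real.one_le_exp (mul_nonneg (by linarith) (hy j).le)
  have : 1 ≤ Real.exp ((l - 1) * x i) * Real.exp ((l - 1) * y j) := by nlinarith
  linarith

/-- The two-matrix density. -/
noncomputable def FF {n : ℕ} (s : ℝ) (x y : Fin n → ℝ) : ℝ :=
  (∏ i, x i ^ (s - 1)) * (∏ i, y i ^ (s - 1)) * (VV x * VV y / DD x y)

theorem FF_nonneg {n : ℕ} {s : ℝ} {x y : Fin n → ℝ} (hx : ∀ i, 0 < x i) (hy : ∀ i, 0 < y i) :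
    0 ≤ FF s x y := by
  unfold FF
  have h1 : 0 ≤ ∏ i, x i ^ (s - 1) := Finset.prod_nonneg fun i _ => Real.rpow_nonneg (hx i).le _
  have h2 : 0 ≤ ∏ i, y i ^ (s - 1) := Finset.prod_nonneg fun i _ => Real.rpow_nonneg (hy i).le _
  have h3 := VV_nonneg hx
  have h4 := VV_nonneg hy
  have h5 := DD_pos x y
  positivity

theorem FF_pos {n : ℕ} {s : ℝ} {x y : Fin n → ℝ} (hx : ∀ i, 0 < x i) (hy : ∀ i, 0 < y i)
    (hx' : ∀ i j, i < j → x i < x j) (hy' : ∀ i j, i < j → y i < y j) :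
    0 < FF s x y := by
  unfold FF
  have h1 : 0 < ∏ i, x i ^ (s - 1) := Finset.prod_pos fun i _ => Real.rpow_pos_of_pos (hx i) _
  have h2 : 0 < ∏ i, y i ^ (s - 1) := Finset.prod_pos fun i _ => Real.rpow_pos_of_pos (hy i) _
  have h3 := VV_pos hx hx'
  have h4 := VV_pos hy hy'
  have h5 := DD_pos x y
  positivity

/-- Scaling inequality for the density. -/
theorem FF_scale {n : ℕ} {s l : ℝ} (hl : 1 ≤ l) (hln : (l - 1) * ((n : ℝ) + 1) = 2) (hn : 1 ≤ n)
    {x y : Fin n → ℝ} (hx : ∀ i, 0 < x i) (hy : ∀ i, 0 < y i) :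
    l ^ (2 * (n : ℝ) * (s - 1) + (n : ℝ) * ((n : ℝ) - 1)) *
      ((∏ i, Real.exp (-x i)) * (∏ i, Real.exp (-y i)) * FF s x y)
      ≤ FF s (fun i => l * x i) (fun i => l * y i) := by
  have hl0 : 0 < l := by linarith
  -- one-variable multiplier
  have key : ∀ z : ℝ, hw l z ^ (n - 1) = l ^ (((n : ℝ) - 1) / 2) *
      (Real.exp (-z) * Real.exp ((l - 1) * z) ^ n) := by
    intro z
    unfold hw
    rw [mul_pow, Real.sqrt_eq_rpow, ← Real.rpow_natCast, ← Real.rpow_mul hl0.le,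
      ← Real.exp_nat_mul, ← Real.exp_nat_mul, ← Real.exp_add, Nat.cast_sub hn, Nat.cast_one]
    congr 1
    · congr 1; ring
    · congr 1
      have : -z + (n : ℝ) * ((l - 1) * z) = -z + ((l - 1) * ((n : ℝ) + 1) - (l - 1)) * z := by ring
      rw [this, hln]
      have h2 : ((n : ℝ) - 1) * ((l - 1) * z / 2) = ((l - 1) * ((n : ℝ) + 1) - 2 * (l - 1)) * z / 2 := by
        ring
      rw [h2, hln]; ring
  have hprod : ∀ z : Fin n → ℝ, ∏ i, hw l (z i) ^ (n - 1) =
      l ^ ((n : ℝ) * (((n : ℝ) - 1) / 2)) *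
        ((∏ i, Real.exp (-z i)) * (∏ i, Real.exp ((l - 1) * z i) ^ n)) := by
    intro z
    simp_rw [key]
    rw [Finset.prod_mul_distrib, Finset.prod_mul_distrib, Finset.prod_const, Finset.card_univ,
      Fintype.card_fin, ← Real.rpow_natCast, ← Real.rpow_mul hl0.le, mul_comm (((n : ℝ) - 1) / 2)]
  have hpow : ∀ z : Fin n → ℝ, (∀ i, 0 < z i) → ∏ i, (l * z i) ^ (s - 1) =
      l ^ ((n : ℝ) * (s - 1)) * ∏ i, z i ^ (s - 1) := by
    intro z hz
    have : ∀ i, (l * z i) ^ (s - 1) = l ^ (s - 1) * z i ^ (s - 1) := fun i =>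
      Real.mul_rpow hl0.le (hz i).le
    simp_rw [this]
    rw [Finset.prod_mul_distrib, Finset.prod_const, Finset.card_univ,
      Fintype.card_fin, ← Real.rpow_natCast, ← Real.rpow_mul hl0.le, mul_comm (s - 1)]
  have hVx := VV_scale hl hx
  have hVy := VV_scale hl hy
  have hD := DD_scale hl hx hy
  rw [hprod] at hVx hVy
  set P := ∏ i, x i ^ (s - 1) with hP
  set Q := ∏ i, y i ^ (s - 1) with hQ
  set ex := ∏ i, Real.exp (-x i) with hex
  set ey := ∏ i, Real.exp (-y i) with hey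
  set Ex := ∏ i, Real.exp ((l - 1) * x i) ^ n with hEx
  set Ey := ∏ i, Real.exp ((l - 1) * y i) ^ n with hEy
  have hP0 : 0 < P := Finset.prod_pos fun i _ => Real.rpow_pos_of_pos (hx i) _
  have hQ0 : 0 < Q := Finset.prod_pos fun i _ => Real.rpow_pos_of_pos (hy i) _
  have hex0 : 0 < ex := Finset.prod_pos fun i _ => Real.exp_pos _
  have hey0 : 0 < ey := Finset.prod_pos fun i _ => Real.exp_pos _
  have hEx0 : 0 < Ex := Finset.prod_pos fun i _ => by positivity
  have hEy0 : 0 < Ey := Finset.prod_pos fun i _ => by positivity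
  have hc0 : 0 < l ^ ((n : ℝ) * (((n : ℝ) - 1) / 2)) := Real.rpow_pos_of_pos hl0 _
  have hr0 : 0 < l ^ ((n : ℝ) * (s - 1)) := Real.rpow_pos_of_pos hl0 _
  have hVV0 := VV_nonneg hx
  have hVV1 := VV_nonneg hy
  have hD0 := DD_pos x y
  have hD1 := DD_pos (fun i => l * x i) (fun i => l * y i)
  unfold FF
  rw [hpow x hx, hpow y hy, ← hP, ← hQ]
  have hexp : l ^ (2 * (n : ℝ) * (s - 1) + (n : ℝ) * ((n : ℝ) - 1)) =
      (l ^ ((n : ℝ) * (s - 1)) * l ^ ((n : ℝ) * (s - 1))) *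
      (l ^ ((n : ℝ) * (((n : ℝ) - 1) / 2)) * l ^ ((n : ℝ) * (((n : ℝ) - 1) / 2))) := by
    rw [← Real.rpow_add hl0, ← Real.rpow_add hl0, ← Real.rpow_add hl0]
    congr 1; ring
  rw [hexp]
  set c := l ^ ((n : ℝ) * (((n : ℝ) - 1) / 2)) with hc
  set r := l ^ ((n : ℝ) * (s - 1)) with hr
  have hmain : (c * (ex * Ex) * VV x) * (c * (ey * Ey) * VV y) / (Ex * Ey * DD x y)
      ≤ VV (fun i => l * x i) * VV (fun i => l * y i) / DD (fun i => l * x i) (fun i => l * y i) := by
    rw [div_le_div_iff₀ (by positivity) hD1]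
    have h1 : (c * (ex * Ex) * VV x) * (c * (ey * Ey) * VV y) ≤
        VV (fun i => l * x i) * VV (fun i => l * y i) :=
      mul_le_mul hVx hVy (by positivity) (le_trans (by positivity) hVx)
    exact mul_le_mul h1 hD hD1.le (le_trans (by positivity) h1)
  have hL : r * r * (c * c) * (ex * ey * (P * Q * (VV x * VV y / DD x y))) =
      (r * P * (r * Q)) * ((c * (ex * Ex) * VV x) * (c * (ey * Ey) * VV y) / (Ex * Ey * DD x y)) := by
    field_simp
  rw [hL]
  exact mul_le_mul_of_nonneg_left hmain (by positivity)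

end Pool.Agent.Helper28.Eta
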