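import Mathlib
import Pool.Agent.Helper28.EtaPoint
import Pool.Agent.Helper28.EtaKernel

/-!
# The two-matrix integrals
-/

open MeasureTheory Finset
open scoped Pointwise

namespace Pool.Agent.Helper28.Eta

/-- Lebesgue measure on `(0, ∞)`. -/
noncomputable def mup : Measure ℝ := volume.restrict (Set.Ioi 0)

instance : SFinite mup := by unfold mup; infer_instance
instance : SigmaFinite mup := by unfold mup; infer_instance

theorem ae_mup : ∀ᵐ x ∂mup, 0 < x := by
  unfold mup
  exact ae_restrict_mem measurableSet_Ioi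

/-- Product measure on `(0, ∞)^n`. -/
noncomputable def nu (n : ℕ) : Measure (Fin n → ℝ) := Measure.pi fun _ => mup

instance (n : ℕ) : SigmaFinite (nu n) := by unfold nu; infer_instance

/-- The positive orthant. -/
def OO (n : ℕ) : Set (Fin n → ℝ) := Set.univ.pi fun _ => Set.Ioi 0

theorem mem_OO {n : ℕ} {x : Fin n → ℝ} : x ∈ OO n ↔ ∀ i, 0 < x i := by
  simp [OO, Set.mem_pi]

theorem nu_eq (n : ℕ) : nu n = volume.restrict (OO n) := by
  unfold nu mup OO
  rw [← Measure.restrict_pi_pi]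
  rfl

theorem measurableSet_OO (n : ℕ) : MeasurableSet (OO n) :=
  MeasurableSet.univ_pi fun _ => measurableSet_Ioi

theorem ae_nu (n : ℕ) : ∀ᵐ x ∂(nu n), ∀ i, 0 < x i := by
  rw [nu_eq]
  filter_upwards [ae_restrict_mem (measurableSet_OO n)] with x hx
  exact mem_OO.mp hx

theorem nunu_eq (n : ℕ) : (nu n).prod (nu n) = volume.restrict (OO n ×ˢ OO n) := by
  rw [nu_eq, Measure.prod_restrict]
  rfl

theorem ae_nunu (n : ℕ) : ∀ᵐ p ∂((nu n).prod (nu n)), (∀ i, 0 < p.1 i) ∧ (∀ i, 0 < p.2 i) := by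
  rw [nunu_eq]
  filter_upwards [ae_restrict_mem ((measurableSet_OO n).prod (measurableSet_OO n))] with p hp
  exact ⟨mem_OO.mp hp.1, mem_OO.mp hp.2⟩

/-- Real weights. -/
noncomputable def pw (s : ℝ) (j : ℕ) (x : ℝ) : ℝ := x ^ (s - 1) * Real.log x ^ j

theorem measurable_pw (s : ℝ) (j : ℕ) : Measurable (pw s j) := by
  unfold pw
  exact (measurable_id.pow_const _).mul (Real.measurable_log.pow_const _)

theorem wt_eq {s : ℝ} (j : ℕ) {x : ℝ} (hx : 0 < x) : wt (s : ℂ) j x = ((pw s j x : ℝ) : ℂ) := by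
  unfold wt pw
  rw [Complex.ofReal_mul, Complex.ofReal_cpow hx.le]
  push_cast
  rfl

theorem integrable_pw {s : ℝ} (hs : 0 < s) (j : ℕ) :
    Integrable (fun x => pw s j x * Real.exp (-x)) mup := by
  have h := W_wt (t := (s : ℂ)) (by simpa using hs) j
  unfold W at h
  have h2 : Integrable (fun x => ((pw s j x * Real.exp (-x) : ℝ) : ℂ)) mup := by
    unfold mup
    refine h.congr_fun (fun x hx => ?_) measurableSet_Ioi
    simp only [wt_eq j (Set.mem_Ioi.mp hx)]
    push_cast
    rfl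
  exact h2.re.congr (Filter.Eventually.of_forall fun x => Complex.ofReal_re _)

/-- The weight function attached to `θ`. -/
noncomputable def ww (θ x : ℝ) : ℝ := Real.exp (-(θ * x))

theorem measurable_ww (θ : ℝ) : Measurable (ww θ) := by
  unfold ww
  fun_prop

theorem ww_pos (θ x : ℝ) : 0 < ww θ x := Real.exp_pos _

theorem ww_le {θ x : ℝ} (hθ : 0 ≤ θ) (hx : 0 < x) : ww θ x ≤ 1 := by
  unfold ww
  rw [Real.exp_le_one_iff]
  have := mul_nonneg hθ hx.le
  linarith

/-- The weighted kernel. -/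
noncomputable def kw (θ x y : ℝ) : ℝ := ww θ x * ww θ y * kap x y

theorem kw_nonneg (θ x y : ℝ) : 0 ≤ kw θ x y := by
  unfold kw
  exact mul_nonneg (mul_pos (ww_pos _ _) (ww_pos _ _)).le (kap_nonneg _ _)

theorem kw_le {θ x y : ℝ} (hθ : 0 ≤ θ) (hx : 0 < x) (hy : 0 < y) :
    kw θ x y ≤ Real.exp (-x) * Real.exp (-y) := by
  unfold kw
  have h1 := ww_le hθ hx
  have h2 := ww_le hθ hy
  have h3 := ww_pos θ x
  have h4 := ww_pos θ y
  have h5 : ww θ x * ww θ y ≤ 1 := by nlinarith
  calc ww θ x * ww θ y * kap x y ≤ 1 * kap x y :=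
        mul_le_mul_of_nonneg_right h5 (kap_nonneg _ _)
    _ = kap x y := one_mul _
    _ ≤ _ := kap_le x y

theorem measurable_kw (θ : ℝ) : Measurable (Function.uncurry (kw θ)) := by
  unfold kw Function.uncurry
  have h := measurable_kap
  unfold Function.uncurry at h
  exact (((measurable_ww θ).comp measurable_fst).mul ((measurable_ww θ).comp measurable_snd)).mul h

theorem measurable_kw_right (θ x : ℝ) : Measurable (kw θ x) :=
  (measurable_kw θ).comp (measurable_prodMk_left (x := x))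

theorem integrable_kw {θ s x : ℝ} (hθ : 0 ≤ θ) (hs : 0 < s) (hx : 0 < x) (j : ℕ) :
    Integrable (fun y => kw θ x y * pw s j y) mup := by
  refine Integrable.mono' (((integrable_pw hs j).norm).const_mul (Real.exp (-x)))
    ((measurable_kw_right θ x).mul (measurable_pw s j)).aestronglyMeasurable ?_
  filter_upwards [ae_mup] with y hy
  rw [norm_mul, Real.norm_eq_abs, abs_of_nonneg (kw_nonneg _ _ _), norm_mul, Real.norm_eq_abs,
    Real.norm_eq_abs, Real.abs_exp]
  calc kw θ x y * |pw s j y| ≤ (Real.exp (-x) * Real.exp (-y)) * |pw s j y| :=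
        mul_le_mul_of_nonneg_right (kw_le hθ hx hy) (abs_nonneg _)
    _ = _ := by ring

theorem integrable_kw2 {θ s : ℝ} (hθ : 0 ≤ θ) (hs : 0 < s) (j k : ℕ) :
    Integrable (fun p : ℝ × ℝ => pw s j p.1 * (kw θ p.1 p.2 * pw s k p.2)) (mup.prod mup) := by
  have h := (integrable_pw hs j).mul_prod (integrable_pw hs k)
  refine Integrable.mono' h.norm ?_ ?_
  · exact (((measurable_pw s j).comp measurable_fst).mul
      ((measurable_kw θ).mul ((measurable_pw s k).comp measurable_snd))).aestronglyMeasurable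
  · have hae : ∀ᵐ p ∂(mup.prod mup), 0 < p.1 ∧ 0 < p.2 := by
      unfold mup
      rw [Measure.prod_restrict]
      filter_upwards [ae_restrict_mem (measurableSet_Ioi.prod measurableSet_Ioi)] with p hp
      exact ⟨hp.1, hp.2⟩
    filter_upwards [hae] with p hp
    rw [norm_mul, norm_mul, norm_mul, norm_mul, norm_mul, Real.norm_eq_abs, Real.norm_eq_abs,
      Real.norm_eq_abs, Real.norm_eq_abs, Real.norm_eq_abs, abs_of_nonneg (kw_nonneg _ _ _),
      Real.abs_exp, Real.abs_exp]
    calc |pw s j p.1| * (kw θ p.1 p.2 * |pw s k p.2|)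
        ≤ |pw s j p.1| * ((Real.exp (-p.1) * Real.exp (-p.2)) * |pw s k p.2|) := by
          refine mul_le_mul_of_nonneg_left ?_ (abs_nonneg _)
          exact mul_le_mul_of_nonneg_right (kw_le hθ hp.1 hp.2) (abs_nonneg _)
      _ = _ := by ring

/-- The moment matrix entries. -/
noncomputable def Nm (θ s : ℝ) (j k : ℕ) : ℝ :=
  ∫ x, pw s j x * ∫ y, kw θ x y * pw s k y ∂mup ∂mup

/-- The total weight. -/
noncomputable def WW {n : ℕ} (θ : ℝ) (x : Fin n → ℝ) : ℝ := ∏ i, ww θ (x i)

theorem WW_pos {n : ℕ} (θ : ℝ) (x : Fin n → ℝ) : 0 < WW θ x :=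
  Finset.prod_pos fun _ _ => ww_pos _ _

theorem det_pw {n : ℕ} (s : ℝ) (x : Fin n → ℝ) :
    (Matrix.of fun i k : Fin n => pw s i (x k)).det =
      (∏ i, x i ^ (s - 1)) * vdm (fun i => Real.log (x i)) := by
  have h1 : (Matrix.of fun i k : Fin n => pw s i (x k)) = Matrix.of fun i k =>
      (fun k => x k ^ (s - 1)) k * (Matrix.vandermonde (fun i => Real.log (x i))).transpose i k := by
    ext i k
    simp [pw, Matrix.vandermonde_apply]
  rw [h1, Matrix.det_mul_row, Matrix.det_transpose, Matrix.det_vandermonde]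
  rfl

theorem det_kw {n : ℕ} (θ : ℝ) (x y : Fin n → ℝ) :
    (Matrix.of fun i k : Fin n => kw θ (x i) (y k)).det =
      WW θ x * WW θ y * (sg n * vdm (fun i => Real.exp (x i)) * vdm (fun i => Real.exp (y i)) /
        DD x y) := by
  have h1 : (Matrix.of fun i k : Fin n => kw θ (x i) (y k)) = Matrix.of fun i k =>
      (fun i => ww θ (x i)) i * (Matrix.of fun i k => (fun k => ww θ (y k)) k *
        (Matrix.of fun i j => 1 / (1 + (fun i => Real.exp (x i)) i * (fun i => Real.exp (y i)) j)) i k)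
        i k := by
    ext i k
    simp only [Matrix.of_apply, kw, kap]
    rw [Real.exp_add, add_comm 1]
    ring
  rw [h1, Matrix.det_mul_column, Matrix.det_mul_row,
    cauchy_det _ _ (fun _ => Real.exp_pos _) (fun _ => Real.exp_pos _)]
  unfold WW DD
  ring

/-- Product of the three determinants. -/
theorem three_det {n : ℕ} (θ s : ℝ) (x y : Fin n → ℝ) :
    (Matrix.of fun i k : Fin n => pw s i (x k)).det *
      ((Matrix.of fun i k : Fin n => kw θ (x i) (y k)).det *
      (Matrix.of fun i k : Fin n => pw s i (y k)).det) =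
    sg n * (WW θ x * WW θ y * FF s x y) := by
  rw [det_pw, det_pw, det_kw]
  unfold FF
  rw [VV_eq, VV_eq]
  ring

theorem det_Nm {n : ℕ} {θ s : ℝ} (hθ : 0 ≤ θ) (hs : 0 < s) :
    (n.factorial : ℝ) * (n.factorial : ℝ) * (Matrix.of fun j k : Fin n => Nm θ s j k).det =
      sg n * ∫ x, ∫ y, WW θ x * WW θ y * FF s x y ∂(nu n) ∂(nu n) := by
  have hint1 : ∀ i j : Fin n, Integrable (fun x => pw s i x * ∫ y, kw θ x y * pw s j y ∂mup) mup := by
    intro i j
    have h := (integrable_kw2 hθ hs (i : ℕ) (j : ℕ)).integral_prod_left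
    refine h.congr (Filter.Eventually.of_forall fun x => ?_)
    simp only
    rw [integral_const_mul]
  have h1 := andreief mup (fun (i : Fin n) x => pw s i x)
    (fun (j : Fin n) x => ∫ y, kw θ x y * pw s j y ∂mup) hint1
  have h2 : ∀ x : Fin n → ℝ, (∀ i, 0 < x i) →
      (n.factorial : ℝ) * (Matrix.of fun i k : Fin n => ∫ y, kw θ (x k) y * pw s i y ∂mup).det =
      ∫ y, (Matrix.of fun i k : Fin n => kw θ (x i) (y k)).det *
      (Matrix.of fun i k : Fin n => pw s i (y k)).det ∂(nu n) := by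
    intro x hx
    have h3 := andreief mup (fun (i : Fin n) y => kw θ (x i) y) (fun (j : Fin n) y => pw s j y)
      (fun i j => integrable_kw hθ hs (hx i) j)
    rw [nu, h3]
    congr 1
    rw [← Matrix.det_transpose]
    rfl
  have h4 : (n.factorial : ℝ) * ∫ x, (Matrix.of fun i k : Fin n => pw s i (x k)).det *
      (Matrix.of fun i k : Fin n => ∫ y, kw θ (x k) y * pw s i y ∂mup).det ∂(nu n) =
      ∫ x, ∫ y, sg n * (WW θ x * WW θ y * FF s x y) ∂(nu n) ∂(nu n) := by
    rw [← integral_const_mul]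
    refine integral_congr_ae ?_
    filter_upwards [ae_nu n] with x hx
    have h5 := h2 x hx
    calc (n.factorial : ℝ) * ((Matrix.of fun i k : Fin n => pw s i (x k)).det *
          (Matrix.of fun i k : Fin n => ∫ y, kw θ (x k) y * pw s i y ∂mup).det)
        = (Matrix.of fun i k : Fin n => pw s i (x k)).det * ((n.factorial : ℝ) *
          (Matrix.of fun i k : Fin n => ∫ y, kw θ (x k) y * pw s i y ∂mup).det) := by ring
      _ = ∫ y, (Matrix.of fun i k : Fin n => pw s i (x k)).det *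
          ((Matrix.of fun i k : Fin n => kw θ (x i) (y k)).det *
          (Matrix.of fun i k : Fin n => pw s i (y k)).det) ∂(nu n) := by
          rw [h5, integral_const_mul]
      _ = _ := by
          simp_rw [three_det]
  rw [mul_assoc]
  have h6 : (n.factorial : ℝ) * (Matrix.of fun j k : Fin n => Nm θ s j k).det =
      ∫ x, (Matrix.of fun i k : Fin n => pw s i (x k)).det *
      (Matrix.of fun i k : Fin n => ∫ y, kw θ (x k) y * pw s i y ∂mup).det ∂(nu n) := by
    rw [nu, h1]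
    rfl
  rw [h6, h4]
  simp_rw [integral_const_mul]

theorem measurable_vdm {n : ℕ} {f : ℝ → ℝ} (hf : Measurable f) :
    Measurable (fun x : Fin n → ℝ => vdm (fun i => f (x i))) := by
  unfold vdm
  refine Finset.measurable_prod _ fun i _ => Finset.measurable_prod _ fun j _ => ?_
  exact (hf.comp (measurable_pi_apply j)).sub (hf.comp (measurable_pi_apply i))

theorem measurable_FF {n : ℕ} (θ s : ℝ) :
    Measurable (fun p : (Fin n → ℝ) × (Fin n → ℝ) => WW θ p.1 * WW θ p.2 * FF s p.1 p.2) := by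
  have hW : Measurable (fun x : Fin n → ℝ => WW θ x) := by
    unfold WW
    exact Finset.measurable_prod _ fun i _ => (measurable_ww θ).comp (measurable_pi_apply i)
  have hP : Measurable (fun x : Fin n → ℝ => ∏ i, x i ^ (s - 1)) :=
    Finset.measurable_prod _ fun i _ => (measurable_pi_apply i).pow_const _
  have hV : Measurable (fun x : Fin n → ℝ => VV x) := by
    have : (fun x : Fin n → ℝ => VV x) =
        fun x => vdm (fun i => Real.log (x i)) * vdm (fun i => Real.exp (x i)) := by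
      funext x; exact VV_eq x
    rw [this]
    exact (measurable_vdm Real.measurable_log).mul (measurable_vdm Real.measurable_exp)
  have hD : Measurable (fun p : (Fin n → ℝ) × (Fin n → ℝ) => DD p.1 p.2) := by
    unfold DD
    refine Finset.measurable_prod _ fun i _ => Finset.measurable_prod _ fun j _ => ?_
    exact ((Real.measurable_exp.comp ((measurable_pi_apply i).comp measurable_fst)).mul
      (Real.measurable_exp.comp ((measurable_pi_apply j).comp measurable_snd))).const_add 1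
  unfold FF
  exact ((hW.comp measurable_fst).mul (hW.comp measurable_snd)).mul
    (((hP.comp measurable_fst).mul (hP.comp measurable_snd)).mul
      (((hV.comp measurable_fst).mul (hV.comp measurable_snd)).div hD))

theorem sg_abs (n : ℕ) : |sg n| = 1 := by
  have h := sg_mul_sg n
  have h2 : |sg n| * |sg n| = 1 := by rw [abs_mul_abs_self, h]
  nlinarith [abs_nonneg (sg n)]

theorem det_kw_le {n : ℕ} {θ : ℝ} (hθ : 0 ≤ θ) {x y : Fin n → ℝ} (hx : ∀ i, 0 < x i)
    (hy : ∀ i, 0 < y i) :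
    |(Matrix.of fun i k : Fin n => kw θ (x i) (y k)).det| ≤
      (n.factorial : ℝ) * ((∏ i, Real.exp (-x i)) * (∏ i, Real.exp (-y i))) := by
  rw [Matrix.det_apply']
  refine (Finset.abs_sum_le_sum_abs _ _).trans ?_
  have h1 : ∀ σ : Equiv.Perm (Fin n), |((Equiv.Perm.sign σ : ℤ) : ℝ) *
      ∏ i, (Matrix.of fun i k : Fin n => kw θ (x i) (y k)) (σ i) i| ≤
      (∏ i, Real.exp (-x i)) * (∏ i, Real.exp (-y i)) := by
    intro σ
    have hs : |((Equiv.Perm.sign σ : ℤ) : ℝ)| = 1 := by
      rcases Int.units_eq_one_or (Equiv.Perm.sign σ) with h | h <;> simp [h]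
    rw [abs_mul, hs, one_mul, Finset.abs_prod, ← Equiv.prod_comp σ (fun i => Real.exp (-x i)),
      ← Finset.prod_mul_distrib]
    refine Finset.prod_le_prod (fun i _ => abs_nonneg _) fun i _ => ?_
    rw [Matrix.of_apply, abs_of_nonneg (kw_nonneg _ _ _)]
    exact kw_le hθ (hx _) (hy _)
  calc _ ≤ ∑ _σ : Equiv.Perm (Fin n), (∏ i, Real.exp (-x i)) * (∏ i, Real.exp (-y i)) :=
        Finset.sum_le_sum fun σ _ => h1 σ
    _ = _ := by
        rw [Finset.sum_const, Finset.card_univ, Fintype.card_perm, Fintype.card_fin, nsmul_eq_mul]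

theorem integrable_det_pw {n : ℕ} {s : ℝ} (hs : 0 < s) :
    Integrable (fun x : Fin n → ℝ => (Matrix.of fun i k : Fin n => pw s i (x k)).det *
      ∏ i, Real.exp (-x i)) (nu n) := by
  have h1 : ∀ x : Fin n → ℝ, (Matrix.of fun i k : Fin n => pw s i (x k)).det *
      ∏ i, Real.exp (-x i) = ∑ σ : Equiv.Perm (Fin n), ((Equiv.Perm.sign σ : ℤ) : ℝ) *
        ∏ i : Fin n, (pw s (σ i) (x i) * Real.exp (-x i)) := by
    intro x
    rw [Matrix.det_apply', Finset.sum_mul]
    refine Finset.sum_congr rfl fun σ _ => ?_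
    rw [Finset.prod_mul_distrib, mul_assoc]
    rfl
  simp_rw [h1]
  refine integrable_finsetSum _ fun σ _ => Integrable.const_mul ?_ _
  exact Integrable.fintype_prod (f := fun (i : Fin n) x => pw s (σ i) x * Real.exp (-x))
    (fun i => integrable_pw hs _)

theorem integrable_FF {n : ℕ} {θ s : ℝ} (hθ : 0 ≤ θ) (hs : 0 < s) :
    Integrable (fun p : (Fin n → ℝ) × (Fin n → ℝ) => WW θ p.1 * WW θ p.2 * FF s p.1 p.2)
      ((nu n).prod (nu n)) := by
  have h1 := ((integrable_det_pw (n := n) hs).mul_prod (integrable_det_pw (n := n) hs)).norm.const_mul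
    (n.factorial : ℝ)
  refine Integrable.mono' h1 (measurable_FF θ s).aestronglyMeasurable ?_
  filter_upwards [ae_nunu n] with p hp
  have h2 := three_det θ s p.1 p.2
  have h3 : |WW θ p.1 * WW θ p.2 * FF s p.1 p.2| =
      |(Matrix.of fun i k : Fin n => pw s i (p.1 k)).det| *
      (|(Matrix.of fun i k : Fin n => kw θ (p.1 i) (p.2 k)).det| *
      |(Matrix.of fun i k : Fin n => pw s i (p.2 k)).det|) := by
    rw [← abs_mul, ← abs_mul, h2, abs_mul (sg n), sg_abs, one_mul]
  rw [Real.norm_eq_abs, h3, norm_mul, norm_mul, norm_mul, Real.norm_eq_abs, Real.norm_eq_abs,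
    Real.norm_eq_abs, Real.norm_eq_abs,
    abs_of_pos (Finset.prod_pos fun i _ => Real.exp_pos (-p.1 i)),
    abs_of_pos (Finset.prod_pos fun i _ => Real.exp_pos (-p.2 i))]
  calc |(Matrix.of fun i k : Fin n => pw s i (p.1 k)).det| *
      (|(Matrix.of fun i k : Fin n => kw θ (p.1 i) (p.2 k)).det| *
      |(Matrix.of fun i k : Fin n => pw s i (p.2 k)).det|)
      ≤ |(Matrix.of fun i k : Fin n => pw s i (p.1 k)).det| *
      (((n.factorial : ℝ) * ((∏ i, Real.exp (-p.1 i)) * (∏ i, Real.exp (-p.2 i)))) *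
      |(Matrix.of fun i k : Fin n => pw s i (p.2 k)).det|) := by
        refine mul_le_mul_of_nonneg_left ?_ (abs_nonneg _)
        exact mul_le_mul_of_nonneg_right (det_kw_le hθ hp.1 hp.2) (abs_nonneg _)
    _ = _ := by ring

/-- The two-matrix partition function. -/
noncomputable def ZZ (n : ℕ) (θ s : ℝ) : ℝ :=
  ∫ p, WW θ p.1 * WW θ p.2 * FF s p.1 p.2 ∂((nu n).prod (nu n))

theorem det_Nm_eq {n : ℕ} {θ s : ℝ} (hθ : 0 ≤ θ) (hs : 0 < s) :
    (n.factorial : ℝ) * (n.factorial : ℝ) * (Matrix.of fun j k : Fin n => Nm θ s j k).det =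
      sg n * ZZ n θ s := by
  rw [det_Nm hθ hs, ZZ, integral_prod _ (integrable_FF hθ hs)]

theorem ZZ_pos {n : ℕ} {θ s : ℝ} (hθ : 0 ≤ θ) (hs : 0 < s) : 0 < ZZ n θ s := by
  unfold ZZ
  have hnn : 0 ≤ᵐ[(nu n).prod (nu n)]
      (fun p : (Fin n → ℝ) × (Fin n → ℝ) => WW θ p.1 * WW θ p.2 * FF s p.1 p.2) := by
    filter_upwards [ae_nunu n] with p hp
    exact mul_nonneg (mul_pos (WW_pos _ _) (WW_pos _ _)).le (FF_nonneg hp.1 hp.2)
  rw [integral_pos_iff_support_of_nonneg_ae hnn (integrable_FF hθ hs)]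
  set U : Set ((Fin n → ℝ) × (Fin n → ℝ)) :=
    {p | ((∀ i, 0 < p.1 i) ∧ (∀ i j, i < j → p.1 i < p.1 j)) ∧
      ((∀ i, 0 < p.2 i) ∧ (∀ i j, i < j → p.2 i < p.2 j))} with hU
  have hopen1 : IsOpen {x : Fin n → ℝ | (∀ i, 0 < x i) ∧ (∀ i j, i < j → x i < x j)} := by
    simp only [Set.ofPred_and, Set.ofPred_forall]
    refine IsOpen.inter ?_ ?_
    · exact isOpen_iInter_of_finite fun i => isOpen_lt continuous_const (continuous_apply i)
    · refine isOpen_iInter_of_finite fun i => isOpen_iInter_of_finite fun j =>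
        isOpen_iInter_of_finite fun _ => isOpen_lt (continuous_apply i) (continuous_apply j)
  have hopen : IsOpen U := (hopen1.preimage continuous_fst).inter (hopen1.preimage continuous_snd)
  have hne : U.Nonempty := by
    refine ⟨(fun i => (i : ℝ) + 1, fun i => (i : ℝ) + 1), ?_⟩
    have h1 : (∀ i : Fin n, (0 : ℝ) < (i : ℝ) + 1) ∧
        (∀ i j : Fin n, i < j → (i : ℝ) + 1 < (j : ℝ) + 1) := by
      refine ⟨fun i => by positivity, fun i j hij => ?_⟩
      have : (i : ℕ) < (j : ℕ) := hij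
      have h2 : ((i : ℕ) : ℝ) < ((j : ℕ) : ℝ) := by exact_mod_cast this
      linarith
    exact ⟨h1, h1⟩
  have hpos := hopen.measure_pos (volume : Measure ((Fin n → ℝ) × (Fin n → ℝ))) hne
  rw [nunu_eq]
  refine lt_of_lt_of_le hpos ?_
  have hsub : U ⊆ OO n ×ˢ OO n := fun p hp => ⟨mem_OO.mpr hp.1.1, mem_OO.mpr hp.2.1⟩
  have hres : volume.restrict (OO n ×ˢ OO n) U = volume U :=
    Measure.restrict_eq_self _ hsub
  rw [← hres]
  refine measure_mono fun p hp => ?_
  rw [Function.mem_support]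
  exact (mul_pos (mul_pos (WW_pos _ _) (WW_pos _ _)) (FF_pos hp.1.1 hp.2.1 hp.1.2 hp.2.2)).ne'

instance isAddHaar_vol (n : ℕ) :
    (volume : Measure ((Fin n → ℝ) × (Fin n → ℝ))).IsAddHaarMeasure := by
  exact Measure.prod.instIsAddHaarMeasure (volume : Measure (Fin n → ℝ))
    (volume : Measure (Fin n → ℝ))

theorem ZZ_scale {n : ℕ} (hn : 1 ≤ n) {s l : ℝ} (hs : 0 < s) (hl : 1 ≤ l)
    (hln : (l - 1) * ((n : ℝ) + 1) = 2) :
    l ^ ((n : ℝ) * (2 * s + ((n : ℝ) - 1))) * ZZ n 1 s ≤ ZZ n 0 s := by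
  have hl0 : 0 < l := by linarith
  have hW0 : ∀ x : Fin n → ℝ, WW 0 x = 1 := by intro x; simp [WW, ww]
  have hW1 : ∀ x : Fin n → ℝ, WW 1 x = ∏ i, Real.exp (-x i) := by intro x; simp [WW, ww]
  have hsmul : l • (OO n ×ˢ OO n) = OO n ×ˢ OO n := by
    ext p
    rw [Set.mem_smul_set_iff_inv_smul_mem₀ hl0.ne']
    simp only [Set.mem_prod, mem_OO, Prod.smul_fst, Prod.smul_snd, Pi.smul_apply, smul_eq_mul]
    have : ∀ r : ℝ, 0 < l⁻¹ * r ↔ 0 < r := fun r => by
      rw [mul_pos_iff_of_pos_left (inv_pos.mpr hl0)]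
    simp only [this]
  have h1 := Measure.setIntegral_comp_smul_of_pos
    (volume : Measure ((Fin n → ℝ) × (Fin n → ℝ))) (fun p => FF s p.1 p.2) (OO n ×ˢ OO n) hl0
  rw [hsmul] at h1
  have hfin : Module.finrank ℝ ((Fin n → ℝ) × (Fin n → ℝ)) = n + n := by
    rw [Module.finrank_prod, Module.finrank_fin_fun]
  rw [hfin, smul_eq_mul] at h1
  have hZ0 : ZZ n 0 s = ∫ p in OO n ×ˢ OO n, FF s p.1 p.2 := by
    unfold ZZ
    rw [nunu_eq]
    simp only [hW0, one_mul]
  have h2 : ZZ n 0 s = l ^ (n + n) * ∫ p in OO n ×ˢ OO n, FF s (l • p).1 (l • p).2 := by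
    rw [hZ0, h1, ← mul_assoc, mul_inv_cancel₀ (pow_ne_zero _ hl0.ne'), one_mul]
  -- integrability of the scaled function
  have hint0 : Integrable (fun p : (Fin n → ℝ) × (Fin n → ℝ) => FF s p.1 p.2)
      (volume.restrict (OO n ×ˢ OO n)) := by
    have := integrable_FF (n := n) (θ := 0) le_rfl hs
    rw [nunu_eq] at this
    simpa only [hW0, one_mul] using this
  have hint : Integrable (fun p : (Fin n → ℝ) × (Fin n → ℝ) => FF s (l • p).1 (l • p).2)
      (volume.restrict (OO n ×ˢ OO n)) := by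
    have hms : MeasurableSet (OO n ×ˢ OO n) := (measurableSet_OO n).prod (measurableSet_OO n)
    rw [← IntegrableOn, ← integrable_indicator_iff hms] at hint0 ⊢
    have h3 := hint0.comp_smul (R := l) hl0.ne'
    refine h3.congr (Filter.Eventually.of_forall fun p => ?_)
    simp only [Set.indicator]
    have hiff : l • p ∈ OO n ×ˢ OO n ↔ p ∈ OO n ×ˢ OO n := by
      rw [← Set.mem_inv_smul_set_iff₀ hl0.ne']
      have : l⁻¹ • (OO n ×ˢ OO n) = OO n ×ˢ OO n := by
        rw [inv_smul_eq_iff₀ hl0.ne', hsmul]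
      rw [this]
    by_cases hp : p ∈ OO n ×ˢ OO n
    · rw [if_pos hp, if_pos (hiff.mpr hp)]
    · rw [if_neg hp, if_neg (fun h => hp (hiff.mp h))]
  have hint1 := integrable_FF (n := n) (θ := 1) zero_le_one hs
  rw [nunu_eq] at hint1
  set c := l ^ (2 * (n : ℝ) * (s - 1) + (n : ℝ) * ((n : ℝ) - 1)) with hc
  have h4 : c * ZZ n 1 s ≤ ∫ p in OO n ×ˢ OO n, FF s (l • p).1 (l • p).2 := by
    unfold ZZ
    rw [nunu_eq, ← integral_const_mul]
    refine integral_mono_ae (hint1.const_mul c) hint ?_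
    filter_upwards [ae_restrict_mem ((measurableSet_OO n).prod (measurableSet_OO n))] with p hp
    have h5 := FF_scale (s := s) hl hln hn (mem_OO.mp hp.1) (mem_OO.mp hp.2)
    simp only [hW1]
    exact h5
  have h6 : l ^ ((n : ℝ) * (2 * s + ((n : ℝ) - 1))) = l ^ (n + n) * c := by
    rw [hc, ← Real.rpow_natCast, ← Real.rpow_add hl0]
    congr 1
    push_cast
    ring
  rw [h6, h2, mul_assoc]
  exact mul_le_mul_of_nonneg_left h4 (by positivity)

end Pool.Agent.Helper28.Eta
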