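import Mathlib
import Pool.Agent.Helper28.EtaZ
import Pool.Agent.Helper28.EtaMoments

/-!
# Hankel determinants of derivatives of eta at positive real points
-/

open MeasureTheory Finset

namespace Pool.Agent.Helper28.Eta

theorem kw_zero (x y : ℝ) : kw 0 x y = kap x y := by simp [kw, ww]

theorem Nm_zero_eq {s : ℝ} (hs : 0 < s) (j k : ℕ) :
    ((Nm 0 s j k : ℝ) : ℂ) =
      ∑ l ∈ Finset.range (j + 1), ∑ i ∈ Finset.range (k + 1),
        ((j.choose l : ℂ) * iteratedDeriv (j - l) Complex.Gamma s) *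
        iteratedDeriv (l + i) eta ((s : ℂ) + s) *
        ((k.choose i : ℂ) * iteratedDeriv (k - i) Complex.Gamma s) := by
  have hs' : 0 < ((s : ℂ)).re := by simpa using hs
  rw [← mellin_log_log_tr hs' hs' j k]
  unfold Nm mup
  rw [← integral_complex_ofReal]
  refine setIntegral_congr_fun measurableSet_Ioi fun x hx => ?_
  rw [wt_eq j (Set.mem_Ioi.mp hx), Complex.ofReal_mul]
  congr 1
  unfold tr
  rw [← integral_complex_ofReal]
  refine setIntegral_congr_fun measurableSet_Ioi fun y hy => ?_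
  rw [wt_eq k (Set.mem_Ioi.mp hy), kw_zero, Complex.ofReal_mul, mul_comm]

/-- Derivatives of Gamma as integrals. -/
noncomputable def gm (s : ℝ) (j : ℕ) : ℝ := ∫ x, pw s j x * Real.exp (-x) ∂mup

theorem gm_eq {s : ℝ} (hs : 0 < s) (j : ℕ) :
    ((gm s j : ℝ) : ℂ) = iteratedDeriv j Complex.Gamma s := by
  have hs' : 0 < ((s : ℂ)).re := by simpa using hs
  have h1 := good_exp.iteratedDeriv_mellin j hs'
  have h2 : iteratedDeriv j Complex.Gamma (s : ℂ) =
      iteratedDeriv j (mellin (fun x : ℝ => (Real.exp (-x) : ℂ))) s := by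
    refine Filter.EventuallyEq.iteratedDeriv_eq j ?_
    filter_upwards [isOpen_rightHalf.mem_nhds hs'] with w hw
    rw [← Complex.GammaIntegral_eq_mellin, Complex.Gamma_eq_integral hw]
  rw [h2, h1, mellin_log_pow]
  unfold gm mup
  rw [← integral_complex_ofReal]
  refine setIntegral_congr_fun measurableSet_Ioi fun x hx => ?_
  rw [wt_eq j (Set.mem_Ioi.mp hx), Complex.ofReal_mul]

theorem kw_one (x y : ℝ) : kw 1 x y = Real.exp (-x) * Real.exp (-y) - kap x y := by
  unfold kw ww kap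
  rw [one_mul, one_mul]
  have h : Real.exp (-x) * Real.exp (-y) * Real.exp (x + y) = 1 := by
    rw [← Real.exp_add, ← Real.exp_add, show -x + -y + (x + y) = 0 by ring, Real.exp_zero]
  have h2 : Real.exp (x + y) + 1 ≠ 0 := by positivity
  field_simp
  linarith

theorem Nm_one_eq {s : ℝ} (hs : 0 < s) (j k : ℕ) :
    Nm 1 s j k = gm s j * gm s k - Nm 0 s j k := by
  have h1 : ∀ x : ℝ, 0 < x → ∫ y, kw 1 x y * pw s k y ∂mup =
      Real.exp (-x) * gm s k - ∫ y, kw 0 x y * pw s k y ∂mup := by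
    intro x hx
    have e : ∀ y, kw 1 x y * pw s k y =
        Real.exp (-x) * (pw s k y * Real.exp (-y)) - kw 0 x y * pw s k y := by
      intro y
      rw [kw_one, kw_zero]; ring
    simp_rw [e]
    rw [integral_sub ((integrable_pw hs k).const_mul _) (integrable_kw le_rfl hs hx k),
      integral_const_mul]
    rfl
  unfold Nm
  have h2 : ∫ x, pw s j x * ∫ y, kw 1 x y * pw s k y ∂mup ∂mup =
      ∫ x, ((pw s j x * Real.exp (-x)) * gm s k - pw s j x * ∫ y, kw 0 x y * pw s k y ∂mup) ∂mup := by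
    refine integral_congr_ae ?_
    filter_upwards [ae_mup] with x hx
    rw [h1 x hx]; ring
  rw [h2, integral_sub ((integrable_pw hs j).mul_const _) ?_, integral_mul_const]
  · rfl
  · have h := (integrable_kw2 (le_refl 0) hs j k).integral_prod_left
    refine h.congr (Filter.Eventually.of_forall fun x => ?_)
    simp only
    rw [integral_const_mul]

/-- The Leibniz matrix. -/
noncomputable def AA (n : ℕ) (s : ℝ) : Matrix (Fin n) (Fin n) ℂ :=
  Matrix.of fun j l => (((j : ℕ).choose (l : ℕ) : ℕ) : ℂ) *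
    iteratedDeriv ((j : ℕ) - (l : ℕ)) Complex.Gamma s

/-- The Hankel matrix. -/
noncomputable def EE (n : ℕ) (a : ℂ) : Matrix (Fin n) (Fin n) ℂ :=
  Matrix.of fun j k => iteratedDeriv ((j : ℕ) + (k : ℕ)) eta a

/-- The matrix unit at the corner. -/
noncomputable def UU (n : ℕ) : Matrix (Fin n) (Fin n) ℂ :=
  Matrix.of fun j k => if (j : ℕ) = 0 ∧ (k : ℕ) = 0 then 1 else 0

theorem sum_range_fin {n : ℕ} (j : Fin n) (f : ℕ → ℂ) (hf : ∀ l, (j : ℕ) < l → f l = 0) :
    ∑ l ∈ Finset.range ((j : ℕ) + 1), f l = ∑ l : Fin n, f l := by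
  rw [Fin.sum_univ_eq_sum_range f n]
  refine Finset.sum_subset (Finset.range_subset_range.mpr j.2) fun l _ hl => hf l ?_
  rw [Finset.mem_range, not_lt] at hl
  omega

theorem Nm_zero_matrix {n : ℕ} {s : ℝ} (hs : 0 < s) :
    (Matrix.of fun j k : Fin n => ((Nm 0 s j k : ℝ) : ℂ)) =
      AA n s * EE n ((s : ℂ) + s) * (AA n s).transpose := by
  ext j k
  rw [Matrix.of_apply, Nm_zero_eq hs, Matrix.mul_apply]
  simp only [Matrix.mul_apply, Matrix.transpose_apply, AA, EE, Matrix.of_apply]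
  rw [Finset.sum_comm]
  rw [sum_range_fin k (fun i => ∑ l ∈ Finset.range ((j : ℕ) + 1),
        (((j : ℕ).choose l : ℂ) * iteratedDeriv ((j : ℕ) - l) Complex.Gamma s) *
        iteratedDeriv (l + i) eta ((s : ℂ) + s) *
        (((k : ℕ).choose i : ℂ) * iteratedDeriv ((k : ℕ) - i) Complex.Gamma s))]
  · refine Finset.sum_congr rfl fun i _ => ?_
    rw [Finset.sum_mul, sum_range_fin j (fun l =>
        (((j : ℕ).choose l : ℂ) * iteratedDeriv ((j : ℕ) - l) Complex.Gamma s) *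
        iteratedDeriv (l + (i : ℕ)) eta ((s : ℂ) + s) *
        (((k : ℕ).choose i : ℂ) * iteratedDeriv ((k : ℕ) - i) Complex.Gamma s))]
    intro l hl
    rw [Nat.choose_eq_zero_of_lt hl]
    simp
  · intro i hi
    refine Finset.sum_eq_zero fun l _ => ?_
    rw [Nat.choose_eq_zero_of_lt hi]
    simp

theorem AUA {n : ℕ} {s : ℝ} (hs : 0 < s) (j k : Fin n) :
    (AA n s * UU n * (AA n s).transpose) j k = ((gm s j : ℝ) : ℂ) * ((gm s k : ℝ) : ℂ) := by
  have hn : 0 < n := lt_of_le_of_lt (Nat.zero_le _) j.2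
  simp only [Matrix.mul_apply, Matrix.transpose_apply, UU, Matrix.of_apply]
  rw [Finset.sum_eq_single (⟨0, hn⟩ : Fin n), Finset.sum_eq_single (⟨0, hn⟩ : Fin n)]
  · simp [AA, gm_eq hs]
  · intro b _ hb
    have : (b : ℕ) ≠ 0 := fun h => hb (Fin.ext h)
    simp [this]
  · simp
  · intro b _ hb
    have : (b : ℕ) ≠ 0 := fun h => hb (Fin.ext h)
    simp [this]
  · simp

theorem Nm_one_matrix {n : ℕ} {s : ℝ} (hs : 0 < s) :
    (Matrix.of fun j k : Fin n => ((Nm 1 s j k : ℝ) : ℂ)) =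
      AA n s * (UU n - EE n ((s : ℂ) + s)) * (AA n s).transpose := by
  rw [Matrix.mul_sub, Matrix.sub_mul, ← Nm_zero_matrix hs]
  ext j k
  rw [Matrix.sub_apply, AUA hs, Matrix.of_apply, Matrix.of_apply, Nm_one_eq hs]
  push_cast
  ring

theorem det_AA {n : ℕ} (s : ℝ) : (AA n s).det = Complex.Gamma s ^ n := by
  rw [Matrix.det_of_isLowerTriangular]
  · simp [AA]
  · intro i j hij
    have h1 : (i : ℕ) < (j : ℕ) := hij
    simp [AA, Nat.choose_eq_zero_of_lt h1]

theorem det_UU_sub {n : ℕ} (M : Matrix (Fin (n + 1)) (Fin (n + 1)) ℂ) :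
    (M - UU (n + 1)).det = M.det - (M.submatrix Fin.succ Fin.succ).det := by
  have h1 : M - UU (n + 1) = M.updateRow 0 (M 0 - fun k => if k = 0 then 1 else 0) := by
    ext j k
    rw [Matrix.sub_apply, Matrix.updateRow_apply]
    by_cases hj : j = 0
    · subst hj
      by_cases hk : k = 0
      · subst hk; simp [UU]
      · have : (k : ℕ) ≠ 0 := fun h => hk (Fin.ext h)
        simp [UU, hk]
    · have : (j : ℕ) ≠ 0 := fun h => hj (Fin.ext h)
      simp [UU, hj]
  have h2 : M.det = (M.updateRow 0 (M 0)).det := by rw [Matrix.updateRow_eq_self]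
  have h3 : (M.updateRow 0 (M 0 - fun k => if k = 0 then 1 else 0)).det =
      (M.updateRow 0 (M 0)).det - (M.updateRow 0 (fun k => if k = 0 then (1 : ℂ) else 0)).det := by
    have h4 : (M.updateRow 0 (M 0 - (fun k => if k = 0 then (1:ℂ) else 0) +
        fun k => if k = 0 then (1:ℂ) else 0)).det = _ :=
      Matrix.det_updateRow_add M 0 (M 0 - fun k => if k = 0 then (1:ℂ) else 0)
        (fun k => if k = 0 then (1:ℂ) else 0)
    rw [sub_add_cancel] at h4
    rw [h4]; ring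
  rw [h1, h3, ← h2]
  congr 1
  rw [Matrix.det_succ_row_zero, Finset.sum_eq_single (0 : Fin (n + 1))]
  · simp only [Fin.val_zero, pow_zero, one_mul, Matrix.updateRow_self, if_true]
    congr 1
  · intro b _ hb
    simp [hb]
  · simp

theorem sg_cast_ne (n : ℕ) : ((sg n : ℝ) : ℂ) ≠ 0 := by
  exact_mod_cast sg_ne_zero n

/-- The constant `(n!)² Γ(s)^(2n)`. -/
noncomputable def cc (n : ℕ) (s : ℝ) : ℂ :=
  ((n.factorial : ℂ) * (n.factorial : ℂ)) * (Complex.Gamma s ^ n * Complex.Gamma s ^ n)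

theorem cc_ne {n : ℕ} {s : ℝ} (hs : 0 < s) : cc n s ≠ 0 := by
  have h1 : (n.factorial : ℂ) ≠ 0 := by exact_mod_cast n.factorial_ne_zero
  have h2 : Complex.Gamma s ≠ 0 := Complex.Gamma_ne_zero_of_re_pos (by simpa using hs)
  exact mul_ne_zero (mul_ne_zero h1 h1) (mul_ne_zero (pow_ne_zero _ h2) (pow_ne_zero _ h2))

theorem det_cast {n : ℕ} (M : Fin n → Fin n → ℝ) :
    (((Matrix.of fun j k => M j k).det : ℝ) : ℂ) = (Matrix.of fun j k => ((M j k : ℝ) : ℂ)).det := by
  have h := RingHom.map_det Complex.ofRealHom (Matrix.of fun j k => M j k)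
  have h2 : (Complex.ofRealHom.mapMatrix (Matrix.of fun j k => M j k)) =
      (Matrix.of fun j k => ((M j k : ℝ) : ℂ)) := by
    ext j k; rfl
  rw [h2] at h
  exact h

theorem cc_det_EE {n : ℕ} {s : ℝ} (hs : 0 < s) :
    cc n s * (EE n ((s : ℂ) + s)).det = ((sg n * ZZ n 0 s : ℝ) : ℂ) := by
  rw [← det_Nm_eq le_rfl hs, Complex.ofReal_mul, det_cast, Nm_zero_matrix hs, Matrix.det_mul,
    Matrix.det_mul, Matrix.det_transpose, det_AA]
  unfold cc
  push_cast
  ring

theorem cc_det_UU_sub {n : ℕ} {s : ℝ} (hs : 0 < s) :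
    cc n s * (UU n - EE n ((s : ℂ) + s)).det = ((sg n * ZZ n 1 s : ℝ) : ℂ) := by
  rw [← det_Nm_eq zero_le_one hs, Complex.ofReal_mul, det_cast, Nm_one_matrix hs, Matrix.det_mul,
    Matrix.det_mul, Matrix.det_transpose, det_AA]
  unfold cc
  push_cast
  ring

/-- The ratio `ρ`. -/
noncomputable def rho (n : ℕ) (s : ℝ) : ℝ := ZZ n 1 s / ZZ n 0 s

theorem rho_pos {n : ℕ} {s : ℝ} (hs : 0 < s) : 0 < rho n s :=
  div_pos (ZZ_pos zero_le_one hs) (ZZ_pos le_rfl hs)

theorem rho_le {n : ℕ} (hn : 1 ≤ n) {s : ℝ} (hs : 0 < s) :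
    rho n s ≤ (((n : ℝ) + 3) / ((n : ℝ) + 1)) ^ (-((n : ℝ) * ((n : ℝ) - 1 + 2 * s))) := by
  have hn1 : (0 : ℝ) < (n : ℝ) + 1 := by positivity
  have hl : 1 ≤ ((n : ℝ) + 3) / ((n : ℝ) + 1) := by
    rw [le_div_iff₀ hn1]; linarith
  have hl0 : 0 < ((n : ℝ) + 3) / ((n : ℝ) + 1) := by linarith
  have h := ZZ_scale hn hs hl (by field_simp; ring)
  have h2 : (2 * s + ((n : ℝ) - 1)) = ((n : ℝ) - 1 + 2 * s) := by ring
  rw [h2] at h
  unfold rho
  rw [div_le_iff₀ (ZZ_pos le_rfl hs), Real.rpow_neg hl0.le, ← div_eq_inv_mul,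
    le_div_iff₀ (Real.rpow_pos_of_pos hl0 _), mul_comm]
  exact h

theorem rho_lt_one {n : ℕ} (hn : 1 ≤ n) {s : ℝ} (hs : 0 < s) : rho n s < 1 := by
  have hn1 : (0 : ℝ) < (n : ℝ) + 1 := by positivity
  have hn2 : (1 : ℝ) ≤ (n : ℝ) := by exact_mod_cast hn
  refine lt_of_le_of_lt (rho_le hn hs) ?_
  refine Real.rpow_lt_one_of_one_lt_of_neg ?_ ?_
  · rw [lt_div_iff₀ hn1]; linarith
  · have : 0 < (n : ℝ) * ((n : ℝ) - 1 + 2 * s) := by
      apply mul_pos (by linarith); linarith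
    linarith

end Pool.Agent.Helper28.Eta
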