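import Mathlib

/-!
Groups with a composition series: closure under isomorphisms, normal subgroups and products of two
normal subgroups.
-/

set_option autoImplicit false

namespace Pool.Agent.Helper28.FitCS

section

variable {H : Type*} [Group H]

/-- `A` is normal in `B` and `B / A` is simple or trivial. -/
def Stp (A B : Subgroup H) : Prop :=
  A ≤ B ∧ (∀ b ∈ B, ∀ a ∈ A, b * a * b⁻¹ ∈ A) ∧
  ∀ M : Subgroup H, A ≤ M → M ≤ B → (∀ b ∈ B, ∀ m ∈ M, b * m * b⁻¹ ∈ M) → M = A ∨ M = B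

/-- The subgroup has a composition series. -/
inductive CS : Subgroup H → Prop
  | bot : CS ⊥
  | step (A B : Subgroup H) : CS A → Stp A B → CS B

theorem Stp.map {K : Type*} [Group K] (f : H →* K) {A B : Subgroup H} (h : Stp A B) :
    Stp (A.map f) (B.map f) := by
  obtain ⟨hAB, hn, hm⟩ := h
  refine ⟨Subgroup.map_mono hAB, ?_, ?_⟩
  · rintro _ ⟨b, hb, rfl⟩ _ ⟨a, ha, rfl⟩
    exact ⟨b * a * b⁻¹, hn b hb a ha, by simp⟩
  · intro M hAM hMB hMn
    have h1 : A ≤ M.comap f ⊓ B := by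
      refine le_inf (fun a ha => ?_) hAB
      rw [Subgroup.mem_comap]
      exact hAM ⟨a, ha, rfl⟩
    have h2 : ∀ b ∈ B, ∀ m ∈ M.comap f ⊓ B, b * m * b⁻¹ ∈ M.comap f ⊓ B := by
      rintro b hb m ⟨hm1, hm2⟩
      refine ⟨?_, B.mul_mem (B.mul_mem hb hm2) (B.inv_mem hb)⟩
      have h3 := hMn (f b) ⟨b, hb, rfl⟩ (f m) hm1
      show f (b * m * b⁻¹) ∈ M
      simpa using h3
    rcases hm _ h1 inf_le_right h2 with h3 | h3
    · left
      refine le_antisymm (fun x hx => ?_) hAM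
      obtain ⟨b, hb, rfl⟩ := hMB hx
      have h4 : b ∈ M.comap f ⊓ B := ⟨hx, hb⟩
      rw [h3] at h4
      exact ⟨b, h4, rfl⟩
    · right
      refine le_antisymm hMB ?_
      rintro _ ⟨b, hb, rfl⟩
      have h4 : b ∈ M.comap f ⊓ B := by
        rw [h3]
        exact hb
      exact h4.1

theorem CS.map {K : Type*} [Group K] (f : H →* K) {A : Subgroup H} (h : CS A) :
    CS (A.map f) := by
  induction h with
  | bot => rw [Subgroup.map_bot]; exact CS.bot
  | step A B _ hs ih => exact CS.step _ _ ih (hs.map f)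

theorem Stp.comap {K : Type*} [Group K] (f : K →* H) (hf : Function.Injective f)
    {A B : Subgroup H} (h : Stp A B) (hB : B ≤ f.range) : Stp (A.comap f) (B.comap f) := by
  obtain ⟨hAB, hn, hm⟩ := h
  refine ⟨Subgroup.comap_mono hAB, ?_, ?_⟩
  · intro b hb a ha
    rw [Subgroup.mem_comap] at hb ha ⊢
    simpa using hn _ hb _ ha
  · intro M hAM hMB hMn
    have hA' : (A.comap f).map f = A := Subgroup.map_comap_eq_self (hAB.trans hB)
    have hB' : (B.comap f).map f = B := Subgroup.map_comap_eq_self hB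
    have h1 : A ≤ M.map f := by
      rw [← hA']
      exact Subgroup.map_mono hAM
    have h2 : M.map f ≤ B := by
      rw [← hB']
      exact Subgroup.map_mono hMB
    have h3 : ∀ b ∈ B, ∀ m ∈ M.map f, b * m * b⁻¹ ∈ M.map f := by
      rintro b hb _ ⟨m, hm, rfl⟩
      rw [← hB'] at hb
      obtain ⟨b, hb, rfl⟩ := hb
      exact ⟨b * m * b⁻¹, hMn b hb m hm, by simp⟩
    rcases hm _ h1 h2 h3 with h4 | h4
    · left
      rw [← h4, Subgroup.comap_map_eq_self_of_injective hf]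
    · right
      rw [← h4, Subgroup.comap_map_eq_self_of_injective hf]

theorem CS.comap {K : Type*} [Group K] (f : K →* H) (hf : Function.Injective f)
    {A : Subgroup H} (h : CS A) (hA : A ≤ f.range) : CS (A.comap f) := by
  induction h with
  | bot =>
    have h1 : (⊥ : Subgroup H).comap f = ⊥ := (MonoidHom.ker_eq_bot_iff f).2 hf
    rw [h1]
    exact CS.bot
  | step A B _ hs ih => exact CS.step _ _ (ih (hs.1.trans hA)) (hs.comap f hf hA)

theorem mem_sup_nrm {A C : Subgroup H} (h : ∀ c ∈ C, ∀ a ∈ A, c * a * c⁻¹ ∈ A) :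
    ∀ x ∈ A ⊔ C, ∃ a ∈ A, ∃ m ∈ C, x = a * m := by
  let D : Subgroup H :=
    { carrier := {x | ∃ a ∈ A, ∃ m ∈ C, x = a * m}
      one_mem' := ⟨1, A.one_mem, 1, C.one_mem, (mul_one 1).symm⟩
      mul_mem' := by
        rintro _ _ ⟨a, ha, m, hm, rfl⟩ ⟨a', ha', m', hm', rfl⟩
        exact ⟨a * (m * a' * m⁻¹), A.mul_mem ha (h m hm a' ha'), m * m', C.mul_mem hm hm',
          by group⟩
      inv_mem' := by
        rintro _ ⟨a, ha, m, hm, rfl⟩
        refine ⟨m⁻¹ * a⁻¹ * m, ?_, m⁻¹, C.inv_mem hm, by group⟩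
        have h1 := h m⁻¹ (C.inv_mem hm) a⁻¹ (A.inv_mem ha)
        rwa [inv_inv] at h1 }
  have hD : A ⊔ C ≤ D := sup_le (fun a ha => ⟨a, ha, 1, C.one_mem, (mul_one a).symm⟩)
    (fun c hc => ⟨1, A.one_mem, c, hc, (one_mul c).symm⟩)
  exact fun x hx => hD hx

theorem Stp.inf {A B N : Subgroup H} (h : Stp A B) (hN : N.Normal) : Stp (A ⊓ N) (B ⊓ N) := by
  obtain ⟨hAB, hn, hm⟩ := h
  refine ⟨inf_le_inf_right N hAB, ?_, ?_⟩
  · rintro b ⟨hb, _⟩ a ⟨ha, haN⟩
    exact ⟨hn b hb a ha, hN.conj_mem a haN b⟩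
  · intro M hAM hMB hMn
    have hMB1 : M ≤ B := hMB.trans inf_le_left
    have hMN : M ≤ N := hMB.trans inf_le_right
    -- membership in `A ⊔ M`
    have hAn : ∀ x ∈ A ⊔ M, ∃ a ∈ A, ∃ m ∈ M, x = a * m :=
      mem_sup_nrm fun c hc a ha => hn c (hMB1 hc) a ha
    by_cases hc : B ⊓ N ≤ A
    · left
      refine le_antisymm (le_inf (hMB.trans hc) hMN) hAM
    -- `A ⊔ (B ⊓ N) = B`
    have hAN : ∀ x ∈ A ⊔ (B ⊓ N), ∃ a ∈ A, ∃ m ∈ B ⊓ N, x = a * m :=
      mem_sup_nrm fun c hc a ha => hn c hc.1 a ha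
    have h1 : A ⊔ (B ⊓ N) = B := by
      rcases hm (A ⊔ (B ⊓ N)) le_sup_left (sup_le hAB inf_le_left) (by
        intro b hb x hx
        obtain ⟨a, ha, m, ⟨hmB, hmN⟩, rfl⟩ := hAN x hx
        have e : b * (a * m) * b⁻¹ = (b * a * b⁻¹) * (b * m * b⁻¹) := by group
        rw [e]
        exact Subgroup.mul_mem _ ((le_sup_left : A ≤ _) (hn b hb a ha))
          ((le_sup_right : B ⊓ N ≤ _) ⟨B.mul_mem (B.mul_mem hb hmB) (B.inv_mem hb),
            hN.conj_mem m hmN b⟩)) with h | h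
      · exact absurd (le_sup_right.trans h.le) hc
      · exact h
    -- `A ⊔ M` is normal in `B`
    rcases hm (A ⊔ M) le_sup_left (sup_le hAB hMB1) (by
        intro b hb x hx
        rw [← h1] at hb
        obtain ⟨a, ha, c, hc, rfl⟩ := hAN b hb
        obtain ⟨a', ha', m, hm', rfl⟩ := hAn x hx
        have hcm : c * m * c⁻¹ ∈ M := hMn c hc m hm'
        have e : a * c * (a' * m) * (a * c)⁻¹ =
            a * (c * a' * c⁻¹) * ((c * m * c⁻¹) * a⁻¹ * (c * m * c⁻¹)⁻¹) * (c * m * c⁻¹) := by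
          group
        rw [e]
        refine Subgroup.mul_mem _ ((le_sup_left : A ≤ _) (A.mul_mem (A.mul_mem ha ?_) ?_))
          ((le_sup_right : M ≤ _) hcm)
        · exact hn c hc.1 a' ha'
        · exact hn _ (hMB1 hcm) _ (A.inv_mem ha)) with h | h
    · left
      exact le_antisymm (le_inf (le_sup_right.trans h.le) hMN) hAM
    · right
      refine le_antisymm hMB ?_
      rintro b ⟨hb, hbN⟩
      rw [← h] at hb
      obtain ⟨a, ha, m, hm', rfl⟩ := hAn b hb
      have haN : a ∈ N := by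
        have := N.mul_mem hbN (N.inv_mem (hMN hm'))
        simpa using this
      exact M.mul_mem (hAM ⟨ha, haN⟩) hm'

theorem CS.inf {A N : Subgroup H} (h : CS A) (hN : N.Normal) : CS (A ⊓ N) := by
  induction h with
  | bot => rw [bot_inf_eq]; exact CS.bot
  | step A B _ hs ih => exact CS.step _ _ ih (hs.inf hN)

theorem Stp.sup {A B N : Subgroup H} (h : Stp A B) (hN : N.Normal) : Stp (N ⊔ A) (N ⊔ B) := by
  obtain ⟨hAB, hn, hm⟩ := h
  have key : ∀ (D : Subgroup H) (x : H), x ∈ N ⊔ D → ∃ a ∈ N, ∃ d ∈ D, x = a * d := by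
    intro D x hx
    have h2 : x ∈ ((N ⊔ D : Subgroup H) : Set H) := hx
    rw [Subgroup.normal_mul] at h2
    obtain ⟨a, ha, c, hc, rfl⟩ := h2
    exact ⟨a, ha, c, hc, rfl⟩
  refine ⟨sup_le_sup_left hAB N, ?_, ?_⟩
  · intro x hx y hy
    obtain ⟨n, hn', b, hb, rfl⟩ := key B x hx
    obtain ⟨n', hn'', a, ha, rfl⟩ := key A y hy
    have e : n * b * (n' * a) * (n * b)⁻¹ =
        n * (b * n' * b⁻¹) * ((b * a * b⁻¹) * n⁻¹ * (b * a * b⁻¹)⁻¹) * (b * a * b⁻¹) := by group
    rw [e]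
    refine Subgroup.mul_mem _ ((le_sup_left : N ≤ _) (N.mul_mem (N.mul_mem hn' ?_) ?_))
      ((le_sup_right : A ≤ _) (hn b hb a ha))
    · exact hN.conj_mem n' hn'' b
    · exact hN.conj_mem _ (N.inv_mem hn') _
  · intro M hAM hMB hMn
    have h1 : A ≤ M ⊓ B := le_inf (le_sup_right.trans hAM) hAB
    rcases hm (M ⊓ B) h1 inf_le_right (by
      rintro b hb m ⟨hm1, hm2⟩
      exact ⟨hMn b ((le_sup_right : B ≤ N ⊔ B) hb) m hm1,
        B.mul_mem (B.mul_mem hb hm2) (B.inv_mem hb)⟩) with h | h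
    · left
      refine le_antisymm (fun x hx => ?_) hAM
      obtain ⟨a, ha, b, hb, rfl⟩ := key B x (hMB hx)
      have hbM : b ∈ M := by
        have := M.mul_mem (M.inv_mem (hAM ((le_sup_left : N ≤ N ⊔ A) ha))) hx
        simpa using this
      have hbA : b ∈ M ⊓ B := ⟨hbM, hb⟩
      rw [h] at hbA
      exact Subgroup.mul_mem _ ((le_sup_left : N ≤ _) ha) ((le_sup_right : A ≤ _) hbA)
    · right
      refine le_antisymm hMB (sup_le (le_sup_left.trans hAM) ?_)
      rw [← h]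
      exact inf_le_left

theorem CS.sup {A N : Subgroup H} (h : CS A) (hN : N.Normal) (hN' : CS N) : CS (N ⊔ A) := by
  induction h with
  | bot => rw [sup_bot_eq]; exact hN'
  | step A B _ hs ih => exact CS.step _ _ ih (hs.sup hN)

/-- the group `↥N` -/
theorem cs_coe (N : Subgroup H) : CS (⊤ : Subgroup N) ↔ CS N := by
  constructor
  · intro h
    have h1 := h.map N.subtype
    rwa [← MonoidHom.range_eq_map, Subgroup.range_subtype] at h1
  · intro h
    have h1 := h.comap N.subtype N.subtype_injective (by rw [Subgroup.range_subtype])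
    have h2 : N.comap N.subtype = ⊤ := Subgroup.subgroupOf_self N
    rwa [h2] at h1

/-! ### The usual form -/

theorem stp_of_simple {A B : Subgroup H} (hAB : A ≤ B) (hn : (A.subgroupOf B).Normal)
    (hs : IsSimpleGroup (↥B ⧸ A.subgroupOf B)) : Stp A B := by
  have hn' : ∀ b ∈ B, ∀ a ∈ A, b * a * b⁻¹ ∈ A := by
    intro b hb a ha
    have h1 := hn.conj_mem ⟨a, hAB ha⟩ (by rw [Subgroup.mem_subgroupOf]; exact ha) ⟨b, hb⟩
    rw [Subgroup.mem_subgroupOf] at h1
    exact h1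
  refine ⟨hAB, hn', fun M hAM hMB hMn => ?_⟩
  have hMnB : (M.subgroupOf B).Normal := by
    constructor
    intro m hm b
    rw [Subgroup.mem_subgroupOf] at hm ⊢
    exact hMn b b.2 m hm
  have hQ : ((M.subgroupOf B).map (QuotientGroup.mk' (A.subgroupOf B))).Normal :=
    hMnB.map _ (QuotientGroup.mk'_surjective _)
  rcases hQ.eq_bot_or_eq_top with h | h
  · left
    refine le_antisymm (fun m hm => ?_) hAM
    have h1 : (QuotientGroup.mk' (A.subgroupOf B)) ⟨m, hMB hm⟩ ∈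
        (M.subgroupOf B).map (QuotientGroup.mk' (A.subgroupOf B)) :=
      ⟨⟨m, hMB hm⟩, by
        show (⟨m, hMB hm⟩ : B) ∈ M.subgroupOf B
        rw [Subgroup.mem_subgroupOf]; exact hm, rfl⟩
    rw [h, Subgroup.mem_bot] at h1
    have h2 : (⟨m, hMB hm⟩ : B) ∈ (QuotientGroup.mk' (A.subgroupOf B)).ker := h1
    rw [QuotientGroup.ker_mk', Subgroup.mem_subgroupOf] at h2
    exact h2
  · right
    refine le_antisymm hMB (fun b hb => ?_)
    have h1 : (QuotientGroup.mk' (A.subgroupOf B)) ⟨b, hb⟩ ∈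
        (M.subgroupOf B).map (QuotientGroup.mk' (A.subgroupOf B)) := by
      rw [h]
      exact Subgroup.mem_top _
    obtain ⟨m, hm, hmb⟩ := h1
    have hm' : (m : H) ∈ M := Subgroup.mem_subgroupOf.1 hm
    have h2 : m⁻¹ * (⟨b, hb⟩ : B) ∈ A.subgroupOf B := QuotientGroup.eq.1 hmb
    rw [Subgroup.mem_subgroupOf] at h2
    have h3 : (m : H)⁻¹ * b ∈ A := h2
    have h4 := M.mul_mem hm' (hAM h3)
    simpa using h4

theorem simple_of_stp {A B : Subgroup H} (h : Stp A B) (hne : A ≠ B) :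
    ∃ _ : (A.subgroupOf B).Normal, IsSimpleGroup (↥B ⧸ A.subgroupOf B) := by
  obtain ⟨hAB, hn, hm⟩ := h
  have hn' : (A.subgroupOf B).Normal := by
    constructor
    intro a ha b
    rw [Subgroup.mem_subgroupOf] at ha ⊢
    exact hn b b.2 a ha
  refine ⟨hn', ?_⟩
  have hnt : Nontrivial (↥B ⧸ A.subgroupOf B) := by
    rw [QuotientGroup.nontrivial_iff]
    intro h1
    rw [Subgroup.subgroupOf_eq_top] at h1
    exact hne (le_antisymm hAB h1)
  refine ⟨fun Q hQ => ?_⟩
  set M : Subgroup H := (Q.comap (QuotientGroup.mk' (A.subgroupOf B))).map B.subtype with hM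
  have hmem : ∀ b : B, (b : H) ∈ M ↔ QuotientGroup.mk' (A.subgroupOf B) b ∈ Q := by
    intro b
    constructor
    · rintro ⟨c, hc, hcb⟩
      have : c = b := Subtype.ext hcb
      rw [← this]
      exact hc
    · intro hb
      exact ⟨b, hb, rfl⟩
  have hMB : M ≤ B := by
    rintro _ ⟨c, _, rfl⟩
    exact c.2
  have hAM : A ≤ M := by
    intro a ha
    refine (hmem ⟨a, hAB ha⟩).2 ?_
    have h1 : QuotientGroup.mk' (A.subgroupOf B) ⟨a, hAB ha⟩ = 1 := by
      rw [← MonoidHom.mem_ker, QuotientGroup.ker_mk', Subgroup.mem_subgroupOf]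
      exact ha
    rw [h1]
    exact Q.one_mem
  rcases hm M hAM hMB (by
      intro b hb m hm'
      have h1 := (hmem ⟨m, hMB hm'⟩).1 hm'
      refine (hmem (⟨b, hb⟩ * ⟨m, hMB hm'⟩ * (⟨b, hb⟩ : B)⁻¹)).2 ?_
      rw [map_mul, map_mul, map_inv]
      exact hQ.conj_mem _ h1 _) with h1 | h1
  · left
    rw [eq_bot_iff]
    intro q hq
    obtain ⟨b, rfl⟩ := QuotientGroup.mk'_surjective _ q
    have h2 := (hmem b).2 hq
    rw [h1] at h2
    rw [Subgroup.mem_bot, ← MonoidHom.mem_ker, QuotientGroup.ker_mk', Subgroup.mem_subgroupOf]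
    exact h2
  · right
    rw [eq_top_iff]
    intro q _
    obtain ⟨b, rfl⟩ := QuotientGroup.mk'_surjective _ q
    refine (hmem b).1 ?_
    rw [h1]
    exact b.2

/-- a simple normal subgroup of index two -/
theorem cs_of_index_two {A : Subgroup H} (hA : A.Normal) (hs : IsSimpleGroup A)
    (h2 : A.index = 2) : CS (⊤ : Subgroup H) := by
  refine CS.step A ⊤ (CS.step ⊥ A CS.bot ⟨bot_le, ?_, ?_⟩) ⟨le_top, ?_, ?_⟩
  · intro b _ a ha
    rw [Subgroup.mem_bot] at ha ⊢
    rw [ha, mul_one, mul_inv_cancel]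
  · intro M _ hM hn
    refine (Subgroup.isSimpleGroup_iff.1 hs).2 M hM ⟨fun m hm b => ?_⟩
    rw [Subgroup.mem_subgroupOf] at hm ⊢
    exact hn b b.2 m hm
  · intro b _ a ha
    exact hA.conj_mem a ha b
  · intro M hM _ _
    have h1 := Subgroup.relIndex_mul_index hM
    rw [h2] at h1
    have h3 : M.index ∣ 2 := ⟨_, by rw [mul_comm]; exact h1.symm⟩
    rcases (Nat.dvd_prime Nat.prime_two).1 h3 with h4 | h4
    · right
      exact Subgroup.index_eq_one.1 h4
    · left
      rw [h4] at h1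
      have h5 : A.relIndex M = 1 := by omega
      exact le_antisymm (Subgroup.relIndex_eq_one.1 h5) hM

theorem cs_of_series {n : ℕ} (s : Fin (n + 1) → Subgroup H) (h0 : s 0 = ⊥)
    (hs : ∀ i : Fin n, s i.castSucc ≤ s i.succ ∧
      ∃ _ : ((s i.castSucc).subgroupOf (s i.succ)).Normal,
        IsSimpleGroup (↥(s i.succ) ⧸ (s i.castSucc).subgroupOf (s i.succ))) :
    ∀ i : Fin (n + 1), CS (s i) := by
  intro i
  induction i using Fin.induction with
  | zero => rw [h0]; exact CS.bot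
  | succ i ih =>
    obtain ⟨h1, h2, h3⟩ := hs i
    exact CS.step _ _ ih (stp_of_simple h1 h2 h3)

theorem series_of_cs {B : Subgroup H} (h : CS B) :
    ∃ (n : ℕ) (s : Fin (n + 1) → Subgroup H), s 0 = ⊥ ∧ s (Fin.last n) = B ∧
      ∀ i : Fin n, s i.castSucc ≤ s i.succ ∧
        ∃ _ : ((s i.castSucc).subgroupOf (s i.succ)).Normal,
          IsSimpleGroup (↥(s i.succ) ⧸ (s i.castSucc).subgroupOf (s i.succ)) := by
  induction h with
  | bot => exact ⟨0, fun _ => ⊥, rfl, rfl, fun i => i.elim0⟩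
  | step A B _ hs ih =>
    obtain ⟨n, s, h0, h1, h2⟩ := ih
    by_cases hAB : A = B
    · exact ⟨n, s, h0, h1.trans hAB, h2⟩
    refine ⟨n + 1, Fin.snoc s B, ?_, ?_, ?_⟩
    · have h3 : (0 : Fin (n + 1 + 1)) = Fin.castSucc 0 := rfl
      rw [h3, Fin.snoc_castSucc, h0]
    · rw [Fin.snoc_last]
    · intro i
      refine Fin.lastCases ?_ (fun i => ?_) i
      · have e1 : (Fin.snoc s B : Fin (n + 1 + 1) → Subgroup H) (Fin.last n).castSucc = A := by
          rw [Fin.snoc_castSucc, h1]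
        have e2 : (Fin.snoc s B : Fin (n + 1 + 1) → Subgroup H) (Fin.last n).succ = B := by
          rw [Fin.succ_last, Fin.snoc_last]
        rw [e1, e2]
        exact ⟨hs.1, simple_of_stp hs hAB⟩
      · have e1 : (Fin.snoc s B : Fin (n + 1 + 1) → Subgroup H) i.castSucc.castSucc =
            s i.castSucc := by
          rw [Fin.snoc_castSucc]
        have e2 : (Fin.snoc s B : Fin (n + 1 + 1) → Subgroup H) i.castSucc.succ = s i.succ := by
          rw [← Fin.castSucc_succ, Fin.snoc_castSucc]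
        rw [e1, e2]
        exact h2 i

end

end Pool.Agent.Helper28.FitCS
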