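import Pool.Agent.Helper72.FitMain

/-!
The construction of `Pool.Agent.Helper72.FitMain` and `FitFinal` (the case of the cardinals `ℵ_n`,
`n : ℕ`) for an arbitrary family of infinite cardinals `κ i`, `i : I`.
-/

set_option autoImplicit false

namespace Pool.Agent.Helper28.FitGen

open Equiv Cardinal
open Pool.Agent.Helper72.Fit

variable {I : Type} (κ : I → Cardinal.{0})

/-- a type of cardinality `κ i` -/
def TT (i : I) : Type := (κ i).out

theorem mk_TT (i : I) : #(TT κ i) = κ i := Cardinal.mk_out _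

/-- index type -/
abbrev BB : Type := Σ i : I, TT κ i

/-- The underlying set. -/
abbrev OO : Type := BB κ × Bool × Bool

noncomputable instance : DecidableEq (OO κ) := Classical.decEq _

theorem infinite_OO (hκ : ∀ i, ℵ₀ ≤ κ i) (i₀ : I) : Infinite (OO κ) := by
  have h0 : Infinite (TT κ i₀) := by
    rw [Cardinal.infinite_iff, mk_TT]
    exact hκ i₀
  apply Infinite.of_injective (fun x : TT κ i₀ => (((⟨i₀, x⟩ : BB κ), false, false) : OO κ))
  intro x y h
  have h1 := congrArg Prod.fst h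
  simpa using h1

variable {κ}

open Classical in
/-- flip the first Boolean over the set `S` -/
noncomputable def flF (S : Set (BB κ × Bool)) (x : OO κ) : OO κ :=
  if (x.1, x.2.2) ∈ S then (x.1, !x.2.1, x.2.2) else x

theorem flF_invol (S : Set (BB κ × Bool)) : Function.Involutive (flF S) := by
  rintro ⟨b, i, j⟩
  unfold flF
  by_cases h : (b, j) ∈ S <;> simp [h]

/-- the permutation `fl` -/
noncomputable def fl (S : Set (BB κ × Bool)) : Perm (OO κ) := (flF_invol S).toPerm

theorem fl_apply (S : Set (BB κ × Bool)) (x : OO κ) : fl S x = flF S x := rfl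

theorem fl_mul_self (S : Set (BB κ × Bool)) : fl S * fl S = 1 := by
  apply Equiv.ext
  intro x
  rw [Perm.mul_apply, fl_apply, fl_apply, flF_invol]
  rfl

theorem fl_comm (S T : Set (BB κ × Bool)) : fl S * fl T = fl T * fl S := by
  apply Equiv.ext
  rintro ⟨b, i, j⟩
  rw [Perm.mul_apply, Perm.mul_apply]
  simp only [fl_apply, flF]
  by_cases h : (b, j) ∈ S <;> by_cases h' : (b, j) ∈ T <;> simp [h, h']

/-- the three families of sets -/
def sg (κ : I → Cardinal.{0}) : Set (BB κ × Bool) := {x | x.2 = false}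
def sg' (κ : I → Cardinal.{0}) (n : I) : Set (BB κ × Bool) :=
  {x | (x.1.1 = n ∧ x.2 = true) ∨ (x.1.1 ≠ n ∧ x.2 = false)}
def sh (κ : I → Cardinal.{0}) (n : I) : Set (BB κ × Bool) := {x | x.1.1 = n}

theorem fl_sh (n : I) : fl (sh κ n) = fl (sg κ) * fl (sg' κ n) := by
  apply Equiv.ext
  rintro ⟨b, i, j⟩
  rw [Perm.mul_apply]
  simp only [fl_apply, flF, sh, sg, sg', Set.mem_ofPred_eq]
  by_cases h : b.1 = n <;> cases j <;> simp [h]

open Classical in
/-- the conjugating map -/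
noncomputable def cjF (n : I) (x : OO κ) : OO κ :=
  if x.1.1 = n then (x.1, x.2.1, !x.2.2) else x

theorem cjF_invol (n : I) : Function.Involutive (cjF (κ := κ) n) := by
  rintro ⟨b, i, j⟩
  unfold cjF
  by_cases h : b.1 = n <;> simp [h]

/-- the conjugating permutation -/
noncomputable def cj (n : I) : Perm (OO κ) := (cjF_invol n).toPerm

theorem cj_conj (n : I) : cj n * fl (sg κ) * (cj n)⁻¹ = fl (sg' κ n) := by
  rw [mul_inv_eq_iff_eq_mul]
  apply Equiv.ext
  rintro ⟨b, i, j⟩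
  rw [Perm.mul_apply, Perm.mul_apply]
  have hp : ∀ x : OO κ, cj n x = cjF n x := fun _ => rfl
  simp only [hp, fl_apply, flF, sg, sg', Set.mem_ofPred_eq, cjF]
  by_cases h : b.1 = n <;> cases j <;> simp [h]

/-- Support bound. -/
theorem mk_supp_fl (hκ : ∀ i, ℵ₀ ≤ κ i) (n : I) : #{y | fl (sh κ n) y ≠ y} ≤ κ n := by
  have h1 : {y | fl (sh κ n) y ≠ y} ⊆
      Set.range (fun x : TT κ n × Bool × Bool => (((⟨n, x.1⟩ : BB κ), x.2.1, x.2.2) : OO κ)) := by
    rintro ⟨⟨m, c⟩, i, j⟩ hy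
    have hm : m = n := by
      by_contra hne
      apply hy
      simp only [fl_apply, flF, sh, Set.mem_ofPred_eq]
      rw [if_neg hne]
    subst hm
    exact ⟨(c, i, j), rfl⟩
  calc #{y | fl (sh κ n) y ≠ y} ≤ _ := mk_le_mk_of_subset h1
    _ ≤ #(TT κ n × Bool × Bool) := mk_range_le
    _ = κ n * (#Bool * #Bool) := by
      simp only [mk_prod, lift_id, mk_TT]
    _ ≤ κ n * κ n := by
      apply mul_le_mul_right
      rw [mk_bool]
      refine le_trans ?_ (hκ n)
      exact (mul_lt_aleph0 (natCast_lt_aleph0 (n := 2)) (natCast_lt_aleph0 (n := 2))).le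
    _ = κ n := mul_eq_self (hκ n)

theorem not_sm [Infinite (OO κ)] (hκ : ∀ i, ℵ₀ ≤ κ i) {n m : I} (h : κ n < κ m) :
    ¬ Small (κ n) (Alt (OO κ)) (fl (sh κ m)) := by
  rintro ⟨F, hF, hcard, hx⟩
  -- the union of the supports
  set U : Set (OO κ) := ⋃ f ∈ F, {y | f y ≠ y} with hU
  have hUc : #U ≤ κ n := by
    rw [hU]
    calc #(⋃ f ∈ F, {y : OO κ | f y ≠ y} : Set (OO κ)) ≤ #F * ⨆ f : F, #{y : OO κ | f.1 y ≠ y} :=
          mk_biUnion_le _ _
      _ ≤ κ n * ℵ₀ := by
          apply mul_le_mul' hcard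
          apply ciSup_le'
          intro f
          exact (Alt_finite_support (hF f.2)).lt_aleph0.le
      _ ≤ κ n * κ n := mul_le_mul_right (hκ n) _
      _ = κ n := mul_eq_self (hκ n)
  -- indices whose fibre meets U
  set V : Set (TT κ m) := {c | ∃ i j : Bool, (((⟨m, c⟩ : BB κ), i, j) : OO κ) ∈ U} with hV
  have hVc : #V ≤ κ n := by
    refine le_trans ?_ hUc
    choose i j hij using (fun c : V => c.2)
    apply mk_le_of_injective (f := fun c : V => (⟨_, hij c⟩ : U))
    intro c c' hcc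
    have h1 := congrArg (fun z : U => (z : OO κ).1) hcc
    simp only at h1
    have h2 : c.1 = c'.1 := by
      simpa using h1
    exact Subtype.ext h2
  have hinf : Infinite (TT κ m) := by
    rw [Cardinal.infinite_iff, mk_TT]
    exact hκ m
  have hVcompl : #(Vᶜ : Set (TT κ m)) = κ m := by
    have := mk_compl_of_infinite V (by
      rw [mk_TT]; exact hVc.trans_lt h)
    rw [this, mk_TT]
  have hnt : (Vᶜ : Set (TT κ m)).Nontrivial := by
    by_contra hcon
    rw [Set.not_nontrivial_iff] at hcon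
    have h1 : #(Vᶜ : Set (TT κ m)) ≤ 1 := by
      rw [le_one_iff_subsingleton]
      exact Set.subsingleton_coe _ |>.mpr hcon
    rw [hVcompl] at h1
    exact absurd (lt_of_lt_of_le one_lt_aleph0 (hκ m)) (not_lt.mpr h1)
  obtain ⟨c, hc, c', hc', hne⟩ := hnt
  have hfix : ∀ f ∈ F, ∀ d, d ∉ V → ∀ i j,
      f (((⟨m, d⟩ : BB κ), i, j) : OO κ) = ((⟨m, d⟩ : BB κ), i, j) := by
    intro f hf d hd i j
    by_contra hcon
    apply hd
    refine ⟨i, j, ?_⟩
    rw [hU]
    exact Set.mem_biUnion hf hcon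
  set u : OO κ := ((⟨m, c⟩ : BB κ), false, false) with hu
  set u' : OO κ := ((⟨m, c'⟩ : BB κ), false, false) with hu'
  set v : OO κ := ((⟨m, c⟩ : BB κ), false, true) with hv
  set v' : OO κ := ((⟨m, c'⟩ : BB κ), false, true) with hv'
  have hBne : (⟨m, c⟩ : BB κ) ≠ ⟨m, c'⟩ := by
    intro h
    apply hne
    simpa using h
  have huu' : u ≠ u' := fun h => hBne (congrArg Prod.fst h)
  have hvv' : v ≠ v' := fun h => hBne (congrArg Prod.fst h)
  have huv : u ≠ v := by
    intro h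
    have := congrArg (fun z : OO κ => z.2.2) h
    simp [hu, hv] at this
  have huv' : u ≠ v' := by
    intro h
    have := congrArg (fun z : OO κ => z.2.2) h
    simp [hu, hv'] at this
  have hmem : swap u u' * swap v v' ∈ Alt (OO κ) := swap_mul_swap_mem huu' hvv'
  have hcomm := hx _ hmem (by
    intro f hf
    have h1 := commute_swap f (hfix f hf c hc false false) (hfix f hf c' hc' false false)
    have h2 := commute_swap f (hfix f hf c hc false true) (hfix f hf c' hc' false true)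
    rw [mul_assoc, h2, ← mul_assoc, h1, mul_assoc])
  have hev := congrArg (fun σ : Perm (OO κ) => σ u) hcomm
  simp only [Perm.mul_apply] at hev
  -- left: swap (fl u); right: fl (swap u)
  have hflu : fl (sh κ m) u = ((⟨m, c⟩ : BB κ), true, false) := by
    simp [fl_apply, flF, sh, hu]
  have hflu' : fl (sh κ m) u' = ((⟨m, c'⟩ : BB κ), true, false) := by
    simp [fl_apply, flF, sh, hu']
  have hs1 : (swap v v') u = u := swap_apply_of_ne_of_ne huv huv'
  rw [hs1, swap_apply_left, hflu, hflu'] at hev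
  have hw : ∀ z : OO κ, z.2.1 = false → (((⟨m, c⟩ : BB κ), true, false) : OO κ) ≠ z := by
    intro z hz h
    have := congrArg (fun z : OO κ => z.2.1) h
    simp [hz] at this
  have hs2 : (swap v v') (((⟨m, c⟩ : BB κ), true, false) : OO κ) = ((⟨m, c⟩ : BB κ), true, false) :=
    swap_apply_of_ne_of_ne (hw v rfl) (hw v' rfl)
  have hs3 : (swap u u') (((⟨m, c⟩ : BB κ), true, false) : OO κ) = ((⟨m, c⟩ : BB κ), true, false) :=
    swap_apply_of_ne_of_ne (hw u rfl) (hw u' rfl)
  rw [hs2, hs3] at hev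
  exact hBne (congrArg Prod.fst hev)

/-! ### The group -/

/-- The group `G`: the finitary alternating group, extended by the involution `fl (sg κ)`. -/
noncomputable def GG (κ : I → Cardinal.{0}) : Subgroup (Perm (OO κ)) := Ext (fl (sg κ))

theorem fl_sg_notMem [Infinite (OO κ)] : fl (sg κ) ∉ Alt (OO κ) := by
  intro h
  have hfin := Alt_finite_support h
  have h1 : Infinite (BB κ) := by
    by_contra hcon
    have h2 : Finite (BB κ) := not_infinite_iff_finite.1 hcon
    exact not_finite (OO κ)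
  have : Set.Infinite {x : OO κ | fl (sg κ) x ≠ x} := by
    apply Set.infinite_of_injective_forall_mem (f := fun b : BB κ => ((b, false, false) : OO κ))
    · intro x y h
      exact congrArg Prod.fst h
    · intro b
      simp [fl_apply, flF, sg]
  exact this hfin

theorem map_Ext' {Ω : Type} [DecidableEq Ω] [Infinite Ω] (π g : Perm Ω) :
    (Ext g).map (MulAut.conj π).toMonoidHom = Ext (π * g * π⁻¹) := by
  unfold Pool.Agent.Helper72.Fit.Ext
  rw [Subgroup.map_sup, MonoidHom.map_zpowers]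
  congr 1
  apply le_antisymm
  · rintro _ ⟨a, ha, rfl⟩
    exact Alt_conj π ha
  · intro a ha
    refine ⟨π⁻¹ * a * π, ?_, ?_⟩
    · have := Alt_conj π⁻¹ ha
      simpa using this
    · simp [mul_assoc]

theorem Ext_normal' {Ω : Type} [DecidableEq Ω] [Infinite Ω] {g : Perm Ω} {L : Subgroup (Perm Ω)}
    (hL : ∀ l ∈ L, ∃ a ∈ Alt Ω, ∃ c, c * g = g * c ∧ l = a * c) :
    ∀ m ∈ L, ∀ l ∈ Ext g, m * l * m⁻¹ ∈ Ext g := by
  intro m hm l hl
  obtain ⟨a, ha, c, hc, rfl⟩ := hL m hm
  have h1 : c * l * c⁻¹ ∈ Ext g := by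
    have : c * l * c⁻¹ ∈ (Ext g).map (MulAut.conj c).toMonoidHom := ⟨l, hl, rfl⟩
    rw [map_Ext', hc, mul_inv_cancel_right] at this
    exact this
  have haE : a ∈ Ext g := (le_sup_left : Alt Ω ≤ _) ha
  have e : a * c * l * (a * c)⁻¹ = a * (c * l * c⁻¹) * a⁻¹ := by group
  rw [e]
  exact (Ext g).mul_mem ((Ext g).mul_mem haE h1) ((Ext g).inv_mem haE)

theorem mem_big' {Ω : Type} [DecidableEq Ω] [Infinite Ω] {g g' : Perm Ω} (hc : g * g' = g' * g)
    {l : Perm Ω} (hl : l ∈ Ext g ⊔ Ext g') :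
    ∃ a ∈ Alt Ω, ∃ c, (c * g = g * c ∧ c * g' = g' * c) ∧ l = a * c := by
  have h1 : Ext g ⊔ Ext g' ≤ Alt Ω ⊔ (Subgroup.centralizer {g, g'}) := by
    have hz : ∀ k ∈ ({g, g'} : Set (Perm Ω)), k ∈ Subgroup.centralizer ({g, g'} : Set (Perm Ω)) := by
      intro k hk
      rw [Subgroup.mem_centralizer_iff]
      intro h hh
      rcases hk with rfl | hk
      · rcases hh with rfl | hh
        · rfl
        · rw [Set.mem_singleton_iff] at hh; subst hh; exact hc.symm
      · rw [Set.mem_singleton_iff] at hk; subst hk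
        rcases hh with rfl | hh
        · exact hc
        · rw [Set.mem_singleton_iff] at hh; subst hh; rfl
    apply sup_le
    · apply sup_le le_sup_left
      rw [Subgroup.zpowers_le]
      exact (le_sup_right : _ ≤ Alt Ω ⊔ (Subgroup.centralizer {g, g'})) (hz g (by simp))
    · apply sup_le le_sup_left
      rw [Subgroup.zpowers_le]
      exact (le_sup_right : _ ≤ Alt Ω ⊔ (Subgroup.centralizer {g, g'})) (hz g' (by simp))
  have h2 : l ∈ ((Alt Ω ⊔ (Subgroup.centralizer {g, g'}) : Subgroup (Perm Ω)) : Set (Perm Ω)) :=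
    h1 hl
  rw [Subgroup.normal_mul] at h2
  obtain ⟨a, ha, c, hc', rfl⟩ := h2
  refine ⟨a, ha, c, ?_, rfl⟩
  have hc'' : c ∈ Subgroup.centralizer {g, g'} := hc'
  rw [Subgroup.mem_centralizer_iff] at hc''
  exact ⟨(hc'' g (by simp)).symm, (hc'' g' (by simp)).symm⟩

/-- The small extensions are generated. -/
theorem gen_sm [Infinite (OO κ)] (n : I) :
    Gen ↥(GG κ) inferInstance ↥(Ext (fl (sh κ n))) inferInstance := by
  have hE := Gen_closed ↥(GG κ) inferInstance
  have h0 : Gen ↥(GG κ) inferInstance ↥(Ext (fl (sg κ))) inferInstance := fun E _ h => h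
  have h1 : Gen ↥(GG κ) inferInstance ↥(Ext (fl (sg' κ n))) inferInstance := by
    have := hE.conj_rel (cj n) h0
    rw [map_Ext', cj_conj] at this
    exact this
  have hcomm : fl (sg κ) * fl (sg' κ n) = fl (sg' κ n) * fl (sg κ) := fl_comm _ _
  have h2 : Gen ↥(GG κ) inferInstance ↥(Ext (fl (sg κ)) ⊔ Ext (fl (sg' κ n))) inferInstance := by
    apply hE.sup_rel _ _ h0 h1
    · apply Ext_normal'
      intro l hl
      obtain ⟨a, ha, c, ⟨hc, _⟩, rfl⟩ := mem_big' hcomm hl
      exact ⟨a, ha, c, hc, rfl⟩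
    · apply Ext_normal'
      intro l hl
      obtain ⟨a, ha, c, ⟨_, hc⟩, rfl⟩ := mem_big' hcomm hl
      exact ⟨a, ha, c, hc, rfl⟩
  apply hE.normal_rel _ _ h2
  · unfold Pool.Agent.Helper72.Fit.Ext
    apply sup_le (le_sup_left.trans le_sup_left)
    rw [Subgroup.zpowers_le, fl_sh]
    apply Subgroup.mul_mem
    · exact (le_sup_left : _ ≤ Ext (fl (sg κ)) ⊔ Ext (fl (sg' κ n))) (g_mem_Ext _)
    · exact (le_sup_right : _ ≤ Ext (fl (sg κ)) ⊔ Ext (fl (sg' κ n))) (g_mem_Ext _)
  · apply Ext_normal'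
    intro l hl
    obtain ⟨a, ha, c, ⟨hc, hc'⟩, rfl⟩ := mem_big' hcomm hl
    refine ⟨a, ha, c, ?_, rfl⟩
    rw [fl_sh, ← mul_assoc, hc, mul_assoc, hc', mul_assoc]

/-- The classes separate the small extensions. -/
theorem sep [Infinite (OO κ)] (hκ : ∀ i, ℵ₀ ≤ κ i) {n m : I} (h : κ n < κ m) :
    FC (κ m) ↥(Ext (fl (sh κ m))) inferInstance ∧
      ¬ FC (κ n) ↥(Ext (fl (sh κ m))) inferInstance := by
  constructor
  · rw [FC_subgroup_iff]
    exact FR_Ext (hκ m) (fl_mul_self _) (small_of_supp (hκ m) _ (mk_supp_fl hκ m))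
  · intro h3
    rw [FC_subgroup_iff] at h3
    exact not_sm hκ h (h3 (Alt (OO κ)) (SN_Alt_Ext _) Alt_simple Alt_NC _ (g_mem_Ext _))

/-- The finitary alternating group is a simple normal subgroup of index two of `GG κ`. -/
theorem exists_index_two [Infinite (OO κ)] :
    ∃ A : Subgroup ↥(GG κ), A.Normal ∧ IsSimpleGroup A ∧ A.index = 2 := by
  have hAG : Alt (OO κ) ≤ GG κ := le_sup_left
  refine ⟨(Alt (OO κ)).subgroupOf (GG κ), ?_, ?_, ?_⟩
  · constructor
    intro l hl m
    rw [Subgroup.mem_subgroupOf] at hl ⊢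
    exact Alt_conj m hl
  · have eA : (Alt (OO κ)).subgroupOf (GG κ) ≃* Alt (OO κ) := Subgroup.subgroupOfEquivOfLe hAG
    exact (eA.isSimpleGroup_congr).mpr Alt_simple
  · rw [Subgroup.index_eq_two_iff]
    refine ⟨⟨fl (sg κ), g_mem_Ext _⟩, fun b => ?_⟩
    rw [Subgroup.mem_subgroupOf, Subgroup.mem_subgroupOf]
    show Xor ((b : Perm (OO κ)) * fl (sg κ) ∈ Alt (OO κ)) ((b : Perm (OO κ)) ∈ Alt (OO κ))
    rcases mem_Ext (fl_mul_self (sg κ)) b.2 with h | ⟨a, ha, hb⟩
    · right
      refine ⟨h, fun h1 => fl_sg_notMem (κ := κ) ?_⟩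
      have h2 := (Alt (OO κ)).mul_mem ((Alt (OO κ)).inv_mem h) h1
      simpa using h2
    · left
      rw [hb]
      refine ⟨?_, fun h1 => fl_sg_notMem (κ := κ) ?_⟩
      · rw [mul_assoc, fl_mul_self, mul_one]
        exact ha
      · have h2 := (Alt (OO κ)).mul_mem ((Alt (OO κ)).inv_mem ha) h1
        simpa using h2

theorem FC_mono {κ₁ κ₂ : Cardinal.{0}} (h : κ₁ ≤ κ₂) {H : Type} {iH : Group H}
    (hF : FC κ₁ H iH) : FC κ₂ H iH := by
  intro K hK hs hc x hx
  obtain ⟨F, h1, h2, h3⟩ := hF K hK hs hc x hx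
  exact ⟨F, h1, h2.trans h, h3⟩

end Pool.Agent.Helper28.FitGen
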