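import Pool.Agent.Helper28.GossLam

namespace Pool.Agent.Helper28.Goss

variable {K : Type} [Field K] [Algebra (ZMod 3) K] {P : Place (ZMod 3) K} {π : K}

section main

theorem tsum_zero_of_stable (h : IsUnif P π) (hfin : (lvl P π 1).Finite)
    (C : Set P.ResidueField) (W : Finset K) (hW : 27 ≤ W.card)
    (hWl : ∀ w ∈ W, w ∈ lam P π) (hst : ∀ c ∈ C, ∀ w ∈ W, c + rho P π w ∈ C) :
    tsum P π hfin C = 0 := by
  classical
  have := charP3 K
  have e : tsum P π hfin C = ∑ a ∈ hfin.toFinset.filter (fun a => rho P π a ∈ C), a ^ 17 := by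
    rw [tsum, Finset.sum_filter]
  rw [e]
  apply stable_sum_zero _ W hW
  intro w hw a ha
  rw [Finset.mem_filter, mem_fin] at ha ⊢
  refine ⟨(lam P π).add_mem ha.1 (hWl w hw), ?_⟩
  rw [rho_add ha.1 (hWl w hw)]
  exact hst _ ha.2 w hw

theorem finsum_eq_tsum (hfin : (lvl P π 1).Finite) (C : Set P.ResidueField) (Z : Set K)
    (hZ : Z = {a | a ∈ lvl P π 1 ∧ rho P π a ∈ C}) :
    ∑ᶠ a ∈ Z, a ^ 17 = tsum P π hfin C := by
  classical
  subst hZ
  have hfin' : {a | a ∈ lvl P π 1 ∧ rho P π a ∈ C}.Finite := hfin.subset fun a ha => ha.1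
  have e1 : tsum P π hfin C =
      ∑ a ∈ hfin.toFinset.filter (fun a => rho P π a ∈ C), a ^ 17 := by
    rw [tsum, Finset.sum_filter]
  rw [finsum_mem_eq_finite_toFinset_sum _ hfin', e1]
  apply Finset.sum_congr _ (fun _ _ => rfl)
  ext a
  rw [Set.Finite.mem_toFinset, Finset.mem_filter, Set.Finite.mem_toFinset]
  rfl

theorem tsum_neg (hfin : (lvl P π 1).Finite) (C : Set P.ResidueField) :
    tsum P π hfin {c | -c ∈ C} = - tsum P π hfin C := by
  classical
  rw [tsum, tsum, ← Finset.sum_neg_distrib]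
  refine Finset.sum_nbij' (fun a => -a) (fun a => -a) ?_ ?_ ?_ ?_ ?_
  · intro a ha
    rw [mem_fin] at ha ⊢
    exact (lam P π).neg_mem ha
  · intro a ha
    rw [mem_fin] at ha ⊢
    exact (lam P π).neg_mem ha
  · intro a _; simp
  · intro a _; simp
  · intro a ha
    rw [mem_fin] at ha
    have e : (rho P π a ∈ {c | -c ∈ C}) ↔ rho P π (-a) ∈ C := by
      rw [rho_neg ha]; rfl
    by_cases hC : rho P π (-a) ∈ C
    · rw [if_pos (e.mpr hC), if_pos hC]; ring
    · rw [if_neg (fun h' => hC (e.mp h')), if_neg hC]; simp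

theorem prop_key {sk s0 b nb su s0n : Prop} (n4 : ¬su) (a1 : s0 ↔ ¬s0n) (a2 : b → s0)
    (a3 : nb → s0n) (hsk : sk ↔ ((s0 ∧ ¬b) ∨ nb)) :
    (sk ∧ ¬s0 ∧ ¬b ∧ ¬nb ∧ su) ∨ (¬sk ∧ ¬s0 ∧ ¬b ∧ ¬nb ∧ ¬su) ∨
      (¬sk ∧ s0 ∧ b ∧ ¬nb ∧ ¬su) ∨ (sk ∧ ¬s0 ∧ ¬b ∧ nb ∧ ¬su) ∨
      (sk ∧ s0 ∧ ¬b ∧ ¬nb ∧ ¬su) := by
  tauto

theorem prop_key2 {sk s0 b nb su : Prop} (n1 : ¬s0) (n2 : ¬b) (n3 : ¬nb) (hsk : sk ↔ su) :
    (sk ∧ ¬s0 ∧ ¬b ∧ ¬nb ∧ su) ∨ (¬sk ∧ ¬s0 ∧ ¬b ∧ ¬nb ∧ ¬su) ∨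
      (¬sk ∧ s0 ∧ b ∧ ¬nb ∧ ¬su) ∨ (sk ∧ ¬s0 ∧ ¬b ∧ nb ∧ ¬su) ∨
      (sk ∧ s0 ∧ ¬b ∧ ¬nb ∧ ¬su) := by
  tauto

theorem prop_half {sk skn s0 s0n b bn : Prop} (a1 : s0 ↔ ¬s0n) (a2 : b → s0) (a3 : bn → s0n)
    (h1 : sk ↔ ((s0 ∧ ¬b) ∨ bn)) (h2 : skn ↔ ((s0n ∧ ¬bn) ∨ b)) : sk ↔ ¬skn := by
  tauto

theorem main_abstract [Finite P.ResidueField] (hc : IsFullConstantField (ZMod 3) K)
    (h : IsUnif P π) (u : K) (X : Finset K)
    (H1 : π⁻¹ ∈ P.regularAway) (Hu : u ∈ lam P π)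
    (H2 : ∀ r s t : ZMod 3, algebraMap (ZMod 3) K r + algebraMap (ZMod 3) K s * π⁻¹ +
      algebraMap (ZMod 3) K t * u = 0 → r = 0 ∧ s = 0 ∧ t = 0)
    (H3 : ∀ x ∈ X, x ∈ lam P π)
    (H4 : ∀ x ∈ X, ∀ y ∈ X, ∀ r : ZMod 3, x - y = algebraMap (ZMod 3) K r → x = y)
    (H5 : ∀ x ∈ X, ∀ y ∈ X, ∀ r s t : ZMod 3, x + y ≠ algebraMap (ZMod 3) K r +
      algebraMap (ZMod 3) K s * π⁻¹ + algebraMap (ZMod 3) K t * u)
    (H6 : 1 + (f17 π⁻¹ + f17 u + f17 (u + π⁻¹) + f17 (u - π⁻¹)) + ∑ x ∈ X, f17 x = 0) :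
    ∃ S : Set (P.ResidueField)ˣ, IsRepresentatives P S ∧ IsZetaValueK P h.sgn S 17 0 := by
  classical
  have hch := charP3 K
  have h3K := three_eq_zero K
  -- basic facts
  have Hpi : π⁻¹ ∈ lam P π := by
    refine mem_lam.mpr ⟨H1, ?_⟩
    rw [mul_inv_cancel₀ h.ne_zero]; exact P.ring.one_mem
  have rpi : rho P π π⁻¹ = 1 := by
    rw [rho, mul_inv_cancel₀ h.ne_zero, res_one]
  have hsc : ∀ (s : ZMod 3) {a : K}, a ∈ lam P π → algebraMap (ZMod 3) K s * a ∈ lam P π := by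
    intro s a ha
    rw [mem_lam] at ha ⊢
    refine ⟨P.regularAway.mul_mem (const_mem_regularAway P s) ha.1, ?_⟩
    have : π * (algebraMap (ZMod 3) K s * a) = algebraMap (ZMod 3) K s * (π * a) := by ring
    rw [this]; exact P.ring.mul_mem _ _ (P.algebraMap_mem s) ha.2
  have rsc : ∀ (s : ZMod 3) {a : K}, a ∈ lam P π →
      rho P π (algebraMap (ZMod 3) K s * a) = algebraMap (ZMod 3) P.ResidueField s * rho P π a := by
    intro s a ha
    have : π * (algebraMap (ZMod 3) K s * a) = algebraMap (ZMod 3) K s * (π * a) := by ring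
    rw [rho, this, res_mul (P.algebraMap_mem s) (mem_lam.mp ha).2, res_algebraMap]; rfl
  let w : ZMod 3 → ZMod 3 → ZMod 3 → K := fun r s t =>
    algebraMap (ZMod 3) K r + algebraMap (ZMod 3) K s * π⁻¹ + algebraMap (ZMod 3) K t * u
  have hw : ∀ r s t, w r s t ∈ lam P π := fun r s t =>
    (lam P π).add_mem ((lam P π).add_mem (const_mem_lam h r) (hsc s Hpi)) (hsc t Hu)
  let e : ZMod 3 → ZMod 3 → P.ResidueField := fun s t =>
    algebraMap (ZMod 3) P.ResidueField s + algebraMap (ZMod 3) P.ResidueField t * rho P π u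
  have rw' : ∀ r s t, rho P π (w r s t) = e s t := by
    intro r s t
    rw [rho_add ((lam P π).add_mem (const_mem_lam h r) (hsc s Hpi)) (hsc t Hu),
      rho_add (const_mem_lam h r) (hsc s Hpi), rho_const h, rsc s Hpi, rsc t Hu, rpi]
    simp [e]
  have e_add : ∀ s t s' t', e s t + e s' t' = e (s + s') (t + t') := by
    intro s t s' t'; simp only [e, map_add]; ring
  have e_neg : ∀ s t, -e s t = e (-s) (-t) := by
    intro s t; simp only [e, map_neg]; ring
  have e_zero : ∀ s t, e s t = 0 → s = 0 ∧ t = 0 := by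
    intro s t he
    rw [← rw' 0 s t] at he
    obtain ⟨c, hc'⟩ := rho_eq_zero hc h (hw 0 s t) he
    have := H2 (-c) s t (by rw [map_neg, hc']; simp only [w, map_zero]; ring)
    exact this.2
  have e_inj : ∀ s t s' t', e s t = e s' t' → s = s' ∧ t = t' := by
    intro s t s' t' he
    have : e (s + -s') (t + -t') = 0 := by rw [← e_add, ← e_neg, he]; ring
    obtain ⟨h1, h2⟩ := e_zero _ _ this
    exact ⟨by rw [← sub_eq_zero, sub_eq_add_neg]; exact h1,
      by rw [← sub_eq_zero, sub_eq_add_neg]; exact h2⟩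
  let U : AddSubgroup P.ResidueField :=
    { carrier := {c | ∃ s t, c = e s t}
      zero_mem' := ⟨0, 0, by simp [e]⟩
      add_mem' := by
        rintro _ _ ⟨s, t, rfl⟩ ⟨s', t', rfl⟩
        exact ⟨_, _, e_add _ _ _ _⟩
      neg_mem' := by
        rintro _ ⟨s, t, rfl⟩
        exact ⟨_, _, e_neg _ _⟩ }
  have memU : ∀ c, c ∈ U ↔ ∃ s t, c = e s t := fun c => Iff.rfl
  let SU : Set P.ResidueField := {c | ∃ s t : ZMod 3, c = e s t ∧
    ((s = 1 ∧ t = 0) ∨ t = 1)}
  have SU_U : ∀ c ∈ SU, c ∈ U := by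
    rintro c ⟨s, t, rfl, _⟩; exact ⟨s, t, rfl⟩
  have memSU : ∀ s t, e s t ∈ SU ↔ ((s = 1 ∧ t = 0) ∨ t = 1) := by
    intro s t
    constructor
    · rintro ⟨s', t', he, hst⟩
      obtain ⟨rfl, rfl⟩ := e_inj _ _ _ _ he
      exact hst
    · intro hst; exact ⟨s, t, rfl, hst⟩
  have SU_half : ∀ c ∈ U, c ≠ 0 → (c ∈ SU ↔ -c ∉ SU) := by
    rintro _ ⟨s, t, rfl⟩ hne
    rw [e_neg, memSU, memSU]
    have hne' : ¬ (s = 0 ∧ t = 0) := by
      rintro ⟨rfl, rfl⟩; apply hne; simp [e]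
    revert hne'
    clear hne
    revert s t
    decide
  let B : Set P.ResidueField := rho P π '' (X : Set K)
  have hB : ∀ x ∈ B, ∀ y ∈ B, x + y ∉ U := by
    rintro _ ⟨x, hx, rfl⟩ _ ⟨y, hy, rfl⟩ ⟨s, t, he⟩
    have hx' := H3 x hx
    have hy' := H3 y hy
    rw [← rho_add hx' hy', ← rw' 0 s t] at he
    have h0 : rho P π (x + y - w 0 s t) = 0 := by
      rw [rho_sub ((lam P π).add_mem hx' hy') (hw 0 s t), he, sub_self]
    obtain ⟨c, hc'⟩ := rho_eq_zero hc h ((lam P π).sub_mem ((lam P π).add_mem hx' hy') (hw 0 s t)) h0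
    apply H5 x hx y hy c s t
    have : x + y = algebraMap (ZMod 3) K c + w 0 s t := by rw [hc']; ring
    rw [this]; simp only [w, map_zero]; ring
  have h3κ : ∀ g : P.ResidueField, g + g + g = 0 := by
    intro g
    have : (3 : P.ResidueField) = 0 := by
      have h1 : algebraMap (ZMod 3) P.ResidueField (3 : ZMod 3) = (3 : P.ResidueField) :=
        map_ofNat (algebraMap (ZMod 3) P.ResidueField) 3
      have h2 : (3 : ZMod 3) = 0 := rfl
      rw [← h1, h2, map_zero]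
    linear_combination g * this
  obtain ⟨S0, hS1, hS2, hS3, hS4⟩ := exists_half h3κ U B hB
  have B_U : ∀ c ∈ B, c ∉ U := fun c hc' => hS2 c (hS4 hc')
  let Sk : Set P.ResidueField := {c | c ∈ SU ∨ (c ∈ S0 ∧ c ∉ B) ∨ -c ∈ B}
  have Sk_U : ∀ c ∈ U, (c ∈ Sk ↔ c ∈ SU) := by
    intro c hcU
    constructor
    · rintro (h1 | h1 | h1)
      · exact h1
      · exact absurd hcU (hS2 c h1.1)
      · exact absurd (U.neg_mem hcU) (B_U _ h1)
    · intro h1; exact Or.inl h1
  have Sk_nU : ∀ c, c ∉ U → (c ∈ Sk ↔ ((c ∈ S0 ∧ c ∉ B) ∨ -c ∈ B)) := by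
    intro c hcU
    constructor
    · rintro (h1 | h1)
      · exact absurd (SU_U c h1) hcU
      · exact h1
    · intro h1; exact Or.inr h1
  have zero_Sk : (0 : P.ResidueField) ∉ Sk := by
    rw [Sk_U 0 U.zero_mem]
    intro h0
    have h00 : (0 : P.ResidueField) = e 0 0 := by simp [e]
    rw [h00, memSU] at h0
    revert h0; decide
  have Sk_half : ∀ c, c ≠ 0 → (c ∈ Sk ↔ -c ∉ Sk) := by
    intro c hc0
    by_cases hcU : c ∈ U
    · rw [Sk_U c hcU, Sk_U _ (U.neg_mem hcU)]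
      exact SU_half c hcU hc0
    · have hcU' : -c ∉ U := fun h' => hcU (by simpa using U.neg_mem h')
      have h2 := Sk_nU _ hcU'
      rw [neg_neg] at h2
      exact prop_half (hS1 c hcU) (fun h' => hS4 h') (fun h' => hS4 h') (Sk_nU c hcU) h2
  let NB : Set P.ResidueField := {c | -c ∈ B}
  have key : ∀ c : P.ResidueField,
      (c ∈ Sk ∧ c ∉ S0 ∧ c ∉ B ∧ c ∉ NB ∧ c ∈ SU) ∨ (c ∉ Sk ∧ c ∉ S0 ∧ c ∉ B ∧ c ∉ NB ∧ c ∉ SU) ∨
      (c ∉ Sk ∧ c ∈ S0 ∧ c ∈ B ∧ c ∉ NB ∧ c ∉ SU) ∨ (c ∈ Sk ∧ c ∉ S0 ∧ c ∉ B ∧ c ∈ NB ∧ c ∉ SU) ∨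
      (c ∈ Sk ∧ c ∈ S0 ∧ c ∉ B ∧ c ∉ NB ∧ c ∉ SU) := by
    intro c
    have memNB : c ∈ NB ↔ -c ∈ B := Iff.rfl
    rw [memNB]
    by_cases hcU : c ∈ U
    · exact prop_key2 (fun h' => hS2 _ h' hcU) (fun h' => B_U _ h' hcU)
        (fun h' => B_U _ h' (U.neg_mem hcU)) (Sk_U c hcU)
    · exact prop_key (fun h' => hcU (SU_U _ h')) (hS1 c hcU) (fun h' => hS4 h')
        (fun h' => hS4 h') (Sk_nU c hcU)
  -- the set of representatives
  let S : Set (P.ResidueField)ˣ := {s | (s : P.ResidueField) ∈ Sk}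
  have hrep : IsRepresentatives P S := by
    intro c
    have units3 : ∀ r : (ZMod 3)ˣ, (r : ZMod 3) = 1 ∨ (r : ZMod 3) = -1 := by decide
    by_cases hcS : (c : P.ResidueField) ∈ Sk
    · refine ⟨c, ⟨hcS, 1, by simp⟩, ?_⟩
      rintro s ⟨hs, r, hr⟩
      rcases units3 r with h1 | h1
      · rw [h1, map_one, one_mul] at hr
        exact Units.ext hr.symm
      · exfalso
        rw [h1] at hr
        have h2 : -(c : P.ResidueField) = s := by rw [hr]; simp
        exact (Sk_half c c.ne_zero).mp hcS (by rw [h2]; exact hs)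
    · have hcS' : -(c : P.ResidueField) ∈ Sk := by
        by_contra h1
        exact hcS ((Sk_half c c.ne_zero).mpr h1)
      refine ⟨-c, ⟨by simpa [S] using hcS', -1, by simp⟩, ?_⟩
      rintro s ⟨hs, r, hr⟩
      rcases units3 r with h1 | h1
      · exfalso
        rw [h1, map_one, one_mul] at hr
        exact hcS (by rw [hr]; exact hs)
      · rw [h1] at hr
        ext
        rw [Units.val_neg, hr]; simp
  refine ⟨S, hrep, ?_⟩
  have hlvl : ∀ m, lvlPos P π S m = {a | a ∈ lvl P π m ∧ res P (π ^ m * a) ∈ Sk} := by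
    intro m
    ext a
    constructor
    · rintro ⟨ha, s, hs, he⟩
      exact ⟨ha, by rw [← he]; exact hs⟩
    · rintro ⟨ha, he⟩
      have h0 : res P (π ^ m * a) ≠ 0 := fun h0 => zero_Sk (h0 ▸ he)
      exact ⟨ha, Units.mk0 _ h0, he, rfl⟩
  -- the translation group
  let W : Finset K := Finset.univ.image (fun p : ZMod 3 × ZMod 3 × ZMod 3 => w p.1 p.2.1 p.2.2)
  have hW : 27 ≤ W.card := by
    rw [Finset.card_image_of_injective]
    · decide
    · rintro ⟨r, s, t⟩ ⟨r', s', t'⟩ he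
      simp only at he
      have : algebraMap (ZMod 3) K (r - r') + algebraMap (ZMod 3) K (s - s') * π⁻¹ +
          algebraMap (ZMod 3) K (t - t') * u = 0 := by
        have : w r s t - w r' s' t' = 0 := by rw [he]; ring
        rw [← this]; simp only [w, map_sub]; ring
      obtain ⟨h1, h2, h4⟩ := H2 _ _ _ this
      rw [sub_eq_zero] at h1 h2 h4
      rw [h1, h2, h4]
  have hWl : ∀ x ∈ W, x ∈ lam P π := by
    intro x hx
    obtain ⟨p, _, rfl⟩ := Finset.mem_image.mp hx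
    exact hw _ _ _
  apply isZetaValue_of_levels hc h S 17
  · -- levels at least two
    intro m hm
    have hfin : (lvlPos P π S m).Finite := (lvl_finite hc h m).subset fun a ha => ha.1
    rw [finsum_mem_eq_finite_toFinset_sum _ hfin]
    apply stable_sum_zero _ W hW
    intro x hx a ha
    have hxl := mem_lam.mp (hWl x hx)
    rw [Set.Finite.mem_toFinset, hlvl] at ha ⊢
    obtain ⟨⟨ha1, ha2⟩, ha3⟩ := ha
    obtain ⟨k, rfl⟩ : ∃ k, m = k + 2 := ⟨m - 2, by omega⟩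
    have e1 : π ^ (k + 2) * x = π * (π ^ k * (π * x)) := by ring
    have m1 : π ^ k * (π * x) ∈ P.ring := P.ring.mul_mem _ _ (pow_mem h.mem k) hxl.2
    have m2 : π ^ (k + 2) * x ∈ P.ring := by rw [e1]; exact P.ring.mul_mem _ _ h.mem m1
    refine ⟨⟨P.regularAway.add_mem ha1 hxl.1, ?_⟩, ?_⟩
    · rw [mul_add]; exact P.ring.add_mem _ _ ha2 m2
    · rw [mul_add, res_add ha2 m2, e1, res_unif_mul h m1, add_zero]
      exact ha3
  · -- levels zero and one
    have l0 : ∑ᶠ a ∈ lvlPos P π S 0, a ^ 17 = 1 := by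
      have : lvlPos P π S 0 = {1} := by
        rw [hlvl]
        ext a
        rw [Set.mem_singleton_iff]
        have one_Sk : (1 : P.ResidueField) ∈ Sk := by
          left
          have : (1 : P.ResidueField) = e 1 0 := by simp [e]
          rw [this, memSU]; left; exact ⟨rfl, rfl⟩
        constructor
        · rintro ⟨⟨ha1, ha2⟩, ha3⟩
          rw [pow_zero, one_mul] at ha2 ha3
          obtain ⟨c, rfl⟩ := const_of_mem hc P ha1 ha2
          rw [res_algebraMap] at ha3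
          rcases zmod3_cases c with rfl | rfl | rfl
          · rw [map_zero] at ha3; exact absurd ha3 zero_Sk
          · rw [map_one]
          · exfalso
            rw [map_neg, map_one] at ha3
            exact (Sk_half 1 one_ne_zero).mp one_Sk ha3
        · rintro rfl
          refine ⟨⟨P.regularAway.one_mem, by simpa using P.ring.one_mem⟩, ?_⟩
          rw [pow_zero, one_mul, res_one]
          exact one_Sk
      rw [this, finsum_mem_singleton, one_pow]
    have hfin : (lvl P π 1).Finite := lvl_finite hc h 1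
    have l1 : ∑ᶠ a ∈ lvlPos P π S 1, a ^ 17 = tsum P π hfin Sk := by
      apply finsum_eq_tsum
      rw [hlvl]
      ext a
      simp [rho]
    have hsplit : tsum P π hfin Sk = tsum P π hfin S0 - tsum P π hfin B +
        tsum P π hfin NB + tsum P π hfin SU := by
      rw [tsum, tsum, tsum, tsum, tsum, ← Finset.sum_sub_distrib, ← Finset.sum_add_distrib,
        ← Finset.sum_add_distrib]
      refine Finset.sum_congr rfl ?_
      intro a _
      rcases key (rho P π a) with ⟨h1, h2, h3, h4, h5⟩ | ⟨h1, h2, h3, h4, h5⟩ |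
        ⟨h1, h2, h3, h4, h5⟩ | ⟨h1, h2, h3, h4, h5⟩ | ⟨h1, h2, h3, h4, h5⟩
      all_goals
        simp only [h1, h2, h3, h4, h5, if_true, if_false]
        ring
    have t0 : tsum P π hfin S0 = 0 := by
      apply tsum_zero_of_stable h hfin S0 W hW hWl
      intro c hc' x hx
      obtain ⟨p, _, rfl⟩ := Finset.mem_image.mp hx
      exact hS3 c hc' _ ⟨_, _, rw' _ _ _⟩
    have tB : tsum P π hfin B = ∑ x ∈ X, f17 x := by
      apply tsum_image hc h hfin X H3
      intro x hx y hy he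
      have h0 : rho P π (x - y) = 0 := by rw [rho_sub (H3 x hx) (H3 y hy), he, sub_self]
      obtain ⟨c, hc'⟩ := rho_eq_zero hc h ((lam P π).sub_mem (H3 x hx) (H3 y hy)) h0
      exact H4 x hx y hy c hc'.symm
    have tN : tsum P π hfin NB = - tsum P π hfin B := tsum_neg hfin B
    have tU : tsum P π hfin SU = f17 π⁻¹ + f17 u + f17 (u + π⁻¹) + f17 (u - π⁻¹) := by
      let XU : Finset (ZMod 3 × ZMod 3) := {(1, 0), (0, 1), (1, 1), (-1, 1)}
      have hinjw : Function.Injective (fun p : ZMod 3 × ZMod 3 => w 0 p.1 p.2) := by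
        rintro ⟨s, t⟩ ⟨s', t'⟩ he
        simp only at he
        have := congrArg (rho P π) he
        rw [rw', rw'] at this
        obtain ⟨h1, h2⟩ := e_inj _ _ _ _ this
        rw [h1, h2]
      have hSU : SU = rho P π '' ((XU.image (fun p : ZMod 3 × ZMod 3 => w 0 p.1 p.2) :
          Finset K) : Set K) := by
        ext c
        constructor
        · rintro ⟨s, t, rfl, hst⟩
          refine ⟨w 0 s t, ?_, rw' _ _ _⟩
          rw [Finset.mem_coe, Finset.mem_image]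
          refine ⟨(s, t), ?_, rfl⟩
          simp only [XU]
          revert hst; revert s t; decide
        · rintro ⟨x, hx, rfl⟩
          rw [Finset.mem_coe, Finset.mem_image] at hx
          obtain ⟨⟨s, t⟩, hp, rfl⟩ := hx
          refine ⟨s, t, rw' _ _ _, ?_⟩
          simp only [XU] at hp
          revert hp; revert s t; decide
      rw [hSU, tsum_image hc h hfin]
      · rw [Finset.sum_image (fun a _ b _ hab => hinjw hab)]
        have hsum : ∑ p ∈ XU, f17 (w 0 p.1 p.2) = f17 (w 0 1 0) + f17 (w 0 0 1) + f17 (w 0 1 1) +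
            f17 (w 0 (-1) 1) := by
          simp only [XU]
          rw [Finset.sum_insert (by decide), Finset.sum_insert (by decide),
            Finset.sum_insert (by decide), Finset.sum_singleton]
          ring
        rw [hsum]
        simp only [w, map_zero, map_one, map_neg, zero_add, one_mul, zero_mul, add_zero, neg_mul]
        rw [add_comm π⁻¹ u, add_comm (-π⁻¹) u, ← sub_eq_add_neg]
      · intro x hx
        obtain ⟨p, _, rfl⟩ := Finset.mem_image.mp hx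
        exact hw _ _ _
      · intro x hx y hy he
        obtain ⟨p, _, rfl⟩ := Finset.mem_image.mp hx
        obtain ⟨q, _, rfl⟩ := Finset.mem_image.mp hy
        rw [rw', rw'] at he
        obtain ⟨h1, h2⟩ := e_inj _ _ _ _ he
        rw [h1, h2]
    rw [l0, l1, hsplit, t0, tN, tB, tU]
    linear_combination H6 - (∑ x ∈ X, f17 x) * h3K

end main

end Pool.Agent.Helper28.Goss
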