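import Pool.Agent.Helper28.GossRegular

namespace Pool.Agent.Helper28.Goss
open Polynomial

noncomputable section

theorem psi_eq_aeval (p : (ZMod 3)[X]) : psi p = aeval tK p := by
  have : psi = (aeval tK : (ZMod 3)[X] →ₐ[ZMod 3] KK).toRingHom := by
    apply Polynomial.ringHom_ext
    · intro a; simp [psi_C]
    · simp [tK]
  rw [this]; rfl

theorem tK_transcendental : Transcendental (ZMod 3) tK := by
  rw [transcendental_iff_injective]
  intro a b h
  apply psi_injective
  rw [psi_eq_aeval, psi_eq_aeval]; exact h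

/-- The rational function field inside `KK`. -/
abbrev E0 : IntermediateField (ZMod 3) KK := IntermediateField.adjoin (ZMod 3) ({tK} : Set KK)

theorem tK_mem : tK ∈ E0 := IntermediateField.mem_adjoin_simple_self _ _

theorem psi_mem_E0 (p : (ZMod 3)[X]) : psi p ∈ E0 := by
  rw [psi_eq_aeval]
  have h := IntermediateField.aeval_coe E0 (⟨tK, tK_mem⟩ : E0) p
  rw [show aeval tK p = ((aeval (⟨tK, tK_mem⟩ : E0) p : E0) : KK) from h]
  exact (aeval (⟨tK, tK_mem⟩ : E0) p).2

theorem R0_mem_E0 (r : R0) : iT (AdjoinRoot.of g0 r) ∈ E0 := by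
  obtain ⟨a, b, rfl⟩ := IsLocalization.exists_mk'_eq pI.primeCompl r
  have e : iT (AdjoinRoot.of g0 (IsLocalization.mk' R0 a b)) * psi b = psi a := by
    have h1 := IsLocalization.mk'_spec R0 a b
    have h2 := congrArg (iT.comp (AdjoinRoot.of g0)) h1
    rw [map_mul] at h2
    exact h2
  have hb0 : psi (b : (ZMod 3)[X]) ≠ 0 := by
    intro h
    have : (b : (ZMod 3)[X]) = 0 := psi_injective (by rw [map_zero]; exact h)
    exact b.2 (this ▸ pI.zero_mem)
  have e2 : iT (AdjoinRoot.of g0 (IsLocalization.mk' R0 a b)) =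
      psi a * (psi (b : (ZMod 3)[X]))⁻¹ := by
    rw [← e]; field_simp
  rw [e2]
  exact mul_mem (psi_mem_E0 a) (inv_mem (psi_mem_E0 b))

theorem fK_mem_E0 : fK ∈ E0 := R0_mem_E0 f0

theorem yK_integral : IsIntegral E0 yK := by
  refine ⟨X ^ 3 - X - C (⟨fK, fK_mem_E0⟩ : E0), by monicity!, ?_⟩
  simp only [eval₂_sub, eval₂_pow, eval₂_X, eval₂_C]
  have : algebraMap E0 KK (⟨fK, fK_mem_E0⟩ : E0) = fK := rfl
  rw [this, yK_spec]; ring

theorem adjoin_y : IntermediateField.adjoin E0 ({yK} : Set KK) = ⊤ := by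
  rw [eq_top_iff]
  intro x _
  have hy : yK ∈ IntermediateField.adjoin E0 ({yK} : Set KK) :=
    IntermediateField.mem_adjoin_simple_self _ _
  have hE : ∀ z : KK, z ∈ E0 → z ∈ IntermediateField.adjoin E0 ({yK} : Set KK) := by
    intro z hz
    exact IntermediateField.algebraMap_mem _ (⟨z, hz⟩ : E0)
  have hT : ∀ z : T, iT z ∈ IntermediateField.adjoin E0 ({yK} : Set KK) := by
    intro z
    obtain ⟨p, rfl⟩ := AdjoinRoot.mk_surjective z
    induction p using Polynomial.induction_on' with
    | add p q hp hq => rw [map_add, map_add]; exact add_mem hp hq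
    | monomial n c =>
      rw [← C_mul_X_pow_eq_monomial, map_mul, map_pow, map_mul, map_pow, AdjoinRoot.mk_C,
        AdjoinRoot.mk_X]
      exact mul_mem (hE _ (R0_mem_E0 c)) (pow_mem hy n)
  obtain ⟨a, b, hb, rfl⟩ := IsFractionRing.div_surjective (A := T) x
  exact div_mem (hT a) (hT b)

theorem isFunctionField : IsFunctionField (ZMod 3) KK := by
  refine ⟨tK, tK_transcendental, ?_⟩
  have h1 : FiniteDimensional E0 (IntermediateField.adjoin E0 ({yK} : Set KK)) :=
    IntermediateField.adjoin.finiteDimensional yK_integral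
  rw [adjoin_y] at h1
  exact LinearEquiv.finiteDimensional
    (IntermediateField.topEquiv (F := E0) (E := KK)).toLinearEquiv

end

end Pool.Agent.Helper28.Goss
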