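import Pool.Agent.Helper28.GossCoord

namespace Pool.Agent.Helper28.Goss
open Polynomial

noncomputable section

theorem Pp_monic : Pp.Monic := by unfold Pp; monicity!

theorem Pp_natDegree : Pp.natDegree = 3 := by unfold Pp; compute_degree!

theorem dec3 : ∀ a : ZMod 3, a ^ 3 + a ^ 2 + a - 1 ≠ 0 := by decide

theorem Pp_irreducible : Irreducible Pp := by
  rw [Pp_monic.irreducible_iff_roots_eq_zero_of_degree_le_three (by rw [Pp_natDegree]; omega)
    (by rw [Pp_natDegree])]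
  rw [Multiset.eq_zero_iff_forall_notMem]
  intro x hx
  rw [mem_roots Pp_monic.ne_zero, IsRoot.def] at hx
  unfold Pp at hx
  simp only [eval_sub, eval_add, eval_pow, eval_X, eval_one] at hx
  exact dec3 x hx

theorem Pp_prime : Prime Pp := Pp_irreducible.prime

theorem Pp_not_dvd_Nn : ¬ Pp ∣ Nn := by
  intro h
  have h1 : Pp ∣ (X ^ 2 - X - 1 : (ZMod 3)[X]) := by
    have e : (X ^ 2 - X - 1 : (ZMod 3)[X]) = Nn - Pp + (X ^ 2 - 1) * 3 := by
      unfold Nn Pp; ring
    rw [e, three_zero_poly, mul_zero, add_zero]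
    exact dvd_sub h (dvd_refl _)
  have hd : (X ^ 2 - X - 1 : (ZMod 3)[X]).natDegree = 2 := by compute_degree!
  have hne : (X ^ 2 - X - 1 : (ZMod 3)[X]) ≠ 0 := by
    intro h0; rw [h0] at hd; simp at hd
  have := natDegree_le_of_dvd h1 hne
  rw [hd, Pp_natDegree] at this
  omega

theorem descent (s r : ZMod 3) (hs : s ≠ 0) : ∀ n : ℕ, ∀ A B : (ZMod 3)[X], B ≠ 0 →
    B.natDegree ≤ n → (A ^ 3 - A * B ^ 2) * Pp ≠ (C s * Nn + C r * Pp) * B ^ 3 := by
  intro n
  induction n with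
  | zero => 
    intro A B hB hn h
    have hP : Pp ∣ (C s * Nn + C r * Pp) * B ^ 3 := ⟨A ^ 3 - A * B ^ 2, by rw [← h]; ring⟩
    rcases Pp_prime.dvd_or_dvd hP with h1 | h1
    · have h2 : Pp ∣ C s * Nn := by
        have := dvd_sub h1 (dvd_mul_left Pp (C r))
        simpa using this
      rcases Pp_prime.dvd_or_dvd h2 with h3 | h3
      · have := natDegree_le_of_dvd h3 (by simpa using hs)
        rw [Pp_natDegree, natDegree_C] at this; omega
      · exact Pp_not_dvd_Nn h3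
    · have h2 := natDegree_le_of_dvd (Pp_prime.dvd_of_dvd_pow h1) hB
      rw [Pp_natDegree] at h2; omega
  | succ n ih =>
    intro A B hB hn h
    have hP : Pp ∣ (C s * Nn + C r * Pp) * B ^ 3 := ⟨A ^ 3 - A * B ^ 2, by rw [← h]; ring⟩
    have hPB : Pp ∣ B := by
      rcases Pp_prime.dvd_or_dvd hP with h1 | h1
      · exfalso
        have h2 : Pp ∣ C s * Nn := by
          have := dvd_sub h1 (dvd_mul_left Pp (C r))
          simpa using this
        rcases Pp_prime.dvd_or_dvd h2 with h3 | h3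
        · have := natDegree_le_of_dvd h3 (by simpa using hs)
          rw [Pp_natDegree, natDegree_C] at this; omega
        · exact Pp_not_dvd_Nn h3
      · exact Pp_prime.dvd_of_dvd_pow h1
    obtain ⟨B1, rfl⟩ := hPB
    have hB1 : B1 ≠ 0 := right_ne_zero_of_mul hB
    have hP0 : Pp ≠ 0 := Pp_monic.ne_zero
    have e1 : A ^ 3 = Pp ^ 2 * (A * B1 ^ 2 + (C s * Nn + C r * Pp) * B1 ^ 3) := by
      apply mul_left_cancel₀ hP0
      linear_combination h
    have hPA : Pp ∣ A := by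
      apply Pp_prime.dvd_of_dvd_pow (n := 3)
      rw [e1]; exact Dvd.dvd.mul_right (dvd_pow_self Pp two_ne_zero) _
    obtain ⟨A1, rfl⟩ := hPA
    apply ih A1 B1 hB1
    · rw [Pp_monic.natDegree_mul' hB1, Pp_natDegree] at hn; omega
    · apply mul_left_cancel₀ (pow_ne_zero 3 hP0)
      linear_combination h

theorem artin_schreier {u : R0} {s r : ZMod 3}
    (h : u ^ 3 - u = toR0 (C s) * f0 + toR0 (C r)) : s = 0 := by
  by_contra hs
  obtain ⟨A, B, rfl⟩ := IsLocalization.exists_mk'_eq pI.primeCompl u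
  set u := IsLocalization.mk' R0 A B with hu
  have h1 : u * toR0 B = toR0 A := IsLocalization.mk'_spec R0 A B
  have hB : (B : (ZMod 3)[X]) ≠ 0 := fun h0 => B.2 (h0 ▸ pI.zero_mem)
  apply descent s r hs _ A B hB le_rfl
  apply toR0_injective
  have hf := f0_spec
  simp only [map_mul, map_sub, map_add, map_pow]
  rw [← h1, ← hf]
  linear_combination (toR0 B ^ 3 * toR0 Pp) * h

theorem iterate_coord (a b c : R0) (n : ℕ) : ∃ a' b' : R0, (AdjoinRoot.of g0 a +
    AdjoinRoot.of g0 b * AdjoinRoot.root g0 + AdjoinRoot.of g0 c * AdjoinRoot.root g0 ^ 2) ^ (3 ^ n) =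
    AdjoinRoot.of g0 a' + AdjoinRoot.of g0 b' * AdjoinRoot.root g0 +
      AdjoinRoot.of g0 (c ^ (3 ^ n)) * AdjoinRoot.root g0 ^ 2 := by
  induction n with
  | zero => exact ⟨a, b, by simp⟩
  | succ n ih =>
    obtain ⟨a', b', h⟩ := ih
    have e : ∀ w : T, w ^ (3 ^ (n + 1)) = (w ^ (3 ^ n)) ^ 3 := fun w => by
      rw [pow_succ 3 n, pow_mul]
    have e' : c ^ (3 ^ (n + 1)) = (c ^ (3 ^ n)) ^ 3 := by rw [pow_succ 3 n, pow_mul]
    rw [e, h, coord_cube, e']
    exact ⟨_, _, rfl⟩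

theorem iterate_coord' (a b : R0) (n : ℕ) : ∃ a' : R0, (AdjoinRoot.of g0 a +
    AdjoinRoot.of g0 b * AdjoinRoot.root g0 + AdjoinRoot.of g0 0 * AdjoinRoot.root g0 ^ 2) ^ (3 ^ n) =
    AdjoinRoot.of g0 a' + AdjoinRoot.of g0 (b ^ (3 ^ n)) * AdjoinRoot.root g0 +
      AdjoinRoot.of g0 0 * AdjoinRoot.root g0 ^ 2 := by
  induction n with
  | zero => exact ⟨a, by simp⟩
  | succ n ih =>
    obtain ⟨a', h⟩ := ih
    have e : ∀ w : T, w ^ (3 ^ (n + 1)) = (w ^ (3 ^ n)) ^ 3 := fun w => by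
      rw [pow_succ 3 n, pow_mul]
    have e' : b ^ (3 ^ (n + 1)) = (b ^ (3 ^ n)) ^ 3 := by rw [pow_succ 3 n, pow_mul]
    rw [e, h, coord_cube, e']
    refine ⟨a' ^ 3 + (b ^ (3 ^ n)) ^ 3 * f0, ?_⟩
    rw [zero_pow (by norm_num : (3 : ℕ) ≠ 0)]
    simp only [zero_mul, mul_zero, add_zero]

theorem const_pow (k : ZMod 3) (n : ℕ) : (toR0 (C k)) ^ (3 ^ n) = toR0 (C k) := by
  induction n with
  | zero => simp
  | succ n ih => rw [pow_succ, pow_mul, ih, toR0_C_cube]

theorem fixed_T {z : T} {m : ℕ} (hm : 0 < m) (h : z ^ (3 ^ m) = z) :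
    ∃ k : ZMod 3, z = AdjoinRoot.of g0 (toR0 (C k)) := by
  obtain ⟨a, b, c, rfl⟩ := coord_exists z
  obtain ⟨a', b', h1⟩ := iterate_coord a b c m
  rw [h1] at h
  have h2 := coord_inj h
  obtain ⟨γ, rfl⟩ := fixed_const hm h2.2.2
  obtain ⟨rfl, rfl, -⟩ := h2
  rw [const_pow] at h1
  -- the element `z ^ 3 - z`
  have char := three_T
  have frob : ∀ x y : T, (x - y) ^ (3 ^ m) = x ^ (3 ^ m) - y ^ (3 ^ m) := by
    have : CharP T 3 := by
      have := charP_of_injective_ringHom (f := ((AdjoinRoot.of g0).comp toR0).comp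
        (C : ZMod 3 →+* (ZMod 3)[X])) (RingHom.injective _) 3
      exact this
    intro x y
    exact sub_pow_char_pow x y m
  set z := AdjoinRoot.of g0 a' + AdjoinRoot.of g0 b' * AdjoinRoot.root g0 +
      AdjoinRoot.of g0 (toR0 (C γ)) * AdjoinRoot.root g0 ^ 2 with hz
  have hd : (z ^ 3 - z) ^ (3 ^ m) = z ^ 3 - z := by
    rw [frob, ← pow_mul, mul_comm 3, pow_mul, h1]
  have hd1 : z ^ 3 - z = AdjoinRoot.of g0 (a' ^ 3 + b' ^ 3 * f0 + toR0 (C γ) * f0 ^ 2 - a') +
      AdjoinRoot.of g0 (b' ^ 3 + 2 * toR0 (C γ) * f0 - b') * AdjoinRoot.root g0 +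
      AdjoinRoot.of g0 0 * AdjoinRoot.root g0 ^ 2 := by
    rw [hz, coord_cube, toR0_C_cube, map_sub, map_sub, map_zero]
    ring
  obtain ⟨a2, h3⟩ := iterate_coord' (a' ^ 3 + b' ^ 3 * f0 + toR0 (C γ) * f0 ^ 2 - a')
    (b' ^ 3 + 2 * toR0 (C γ) * f0 - b') m
  rw [← hd1, hd, hd1] at h3
  have h4 := coord_inj h3
  obtain ⟨r, hr⟩ := fixed_const hm h4.2.1.symm
  have hγ : γ = 0 := by
    apply artin_schreier (u := b') (r := r)
    have h3' := three_R0
    linear_combination hr - (toR0 (C γ) * f0) * h3'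
  subst hγ
  have hz' : z = AdjoinRoot.of g0 a' + AdjoinRoot.of g0 b' * AdjoinRoot.root g0 +
      AdjoinRoot.of g0 0 * AdjoinRoot.root g0 ^ 2 := by rw [hz]; simp
  obtain ⟨a3, h5⟩ := iterate_coord' a' b' m
  rw [← hz', h1, hz'] at h5
  have h6 := coord_inj h5
  obtain ⟨β, rfl⟩ := fixed_const hm h6.2.1.symm
  have h7 : z ^ 3 - z = AdjoinRoot.of g0 (a' ^ 3 + toR0 (C β) * f0 - a') := by
    rw [hz', coord_cube, toR0_C_cube, map_sub]
    simp only [map_zero, zero_pow (by norm_num : (3 : ℕ) ≠ 0), zero_mul, add_zero, mul_zero]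
    ring
  have h8 : (a' ^ 3 + toR0 (C β) * f0 - a') ^ (3 ^ m) = a' ^ 3 + toR0 (C β) * f0 - a' := by
    apply of_injective
    rw [map_pow, ← h7, hd]
  obtain ⟨r', hr'⟩ := fixed_const hm h8
  have hβ : -β = 0 := by
    apply artin_schreier (u := a') (r := r')
    have : (C (-β) : (ZMod 3)[X]) = - C β := by simp
    rw [this, map_neg]
    linear_combination hr'
  have hβ' : β = 0 := by simpa using hβ
  subst hβ'
  have h9 : z = AdjoinRoot.of g0 a' := by rw [hz']; simp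
  have h10 : a' ^ (3 ^ m) = a' := by
    apply of_injective
    rw [map_pow, ← h9, h1]
  obtain ⟨k, hk⟩ := fixed_const hm h10
  exact ⟨k, by rw [h9, hk]⟩

theorem isFull : IsFullConstantField (ZMod 3) KK := by
  intro x hx
  have hint : IsIntegral (ZMod 3) x := hx.isIntegral
  obtain ⟨m, hm, hxm⟩ : ∃ m : ℕ, 0 < m ∧ x ^ (3 ^ m) = x := by
    have hfd := IntermediateField.adjoin.finiteDimensional hint
    have hfin : Finite (IntermediateField.adjoin (ZMod 3) {x}) := Module.finite_of_finite (ZMod 3)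
    refine ⟨Module.finrank (ZMod 3) (IntermediateField.adjoin (ZMod 3) {x}),
      Module.finrank_pos, ?_⟩
    have := Fintype.ofFinite (IntermediateField.adjoin (ZMod 3) {x})
    have h1 := FiniteField.pow_card (IntermediateField.AdjoinSimple.gen (ZMod 3) x)
    rw [← Nat.card_eq_fintype_card, Module.natCard_eq_pow_finrank (K := ZMod 3)] at h1
    have h2 := congrArg Subtype.val h1
    simpa using h2
  have hT : IsIntegral T x := hint.tower_top
  obtain ⟨z, hz⟩ := IsIntegrallyClosed.isIntegral_iff.mp hT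
  have hzm : z ^ (3 ^ m) = z := by
    apply iT_injective
    rw [map_pow]
    change (algebraMap T KK z) ^ (3 ^ m) = algebraMap T KK z
    rw [hz, hxm]
  obtain ⟨k, hk⟩ := fixed_T hm hzm
  refine ⟨k, ?_⟩
  rw [algMap_eq, ← hz, hk]

end

end Pool.Agent.Helper28.Goss
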