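import Pool.Agent.Helper28.GossTriples
import Pool.Agent.Helper28.GossFull
import Pool.Agent.Helper28.GossFF

namespace Pool.Agent.Helper28.Goss
open Polynomial

noncomputable section

/-! ### values of triples -/

/-- value of a triple -/
def vals {R : Type*} [CommRing R] (w v : R) (x : R × R × R) : R := x.1 + x.2.1 * w + x.2.2 * v

section vals
variable {R : Type*} [CommRing R] {w v P N : R}

theorem vals_tmul (h1 : w ^ 2 = P * v) (h2 : w * v = P * w + N * P) (h3 : v ^ 2 = P * v + N * w)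
    (x y : R × R × R) : vals w v (tmul P N x y) = vals w v x * vals w v y := by
  simp only [vals, tmul]
  linear_combination (-(x.2.1 * y.2.1)) * h1 - (x.2.1 * y.2.2 + x.2.2 * y.2.1) * h2 -
    (x.2.2 * y.2.2) * h3

theorem vals_tadd (x y : R × R × R) : vals w v (tadd x y) = vals w v x + vals w v y := by
  simp only [vals, tadd]; ring

theorem vals_tsc (c : R) (x : R × R × R) : vals w v (tsc c x) = c * vals w v x := by
  simp only [vals, tsc]; ring

theorem vals_base (c : R) : vals w v (c, 0, 0) = c := by simp [vals]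

theorem f17_eq {K : Type*} [Field K] (h3 : (3 : K) = 0) (x : K) :
    f17 x = 2 * (x ^ 3 - x) * (1 + (x ^ 3 - x) ^ 2) ^ 2 := by
  rw [f17]
  linear_combination (11 * x ^ 1 + 453 * x ^ 3 + 4127 * x ^ 5 + 12965 * x ^ 7 + 16204 * x ^ 9 +
    8254 * x ^ 11 + 1585 * x ^ 13 + 91 * x ^ 15 + 1 * x ^ 17 -
    (x ^ 3 - x) * (1 + (x ^ 3 - x) ^ 2) ^ 2) * h3

theorem f17_tF {K : Type*} [Field K] {w v P N p : K} (h3 : (3 : K) = 0) (h1 : w ^ 2 = P * v)
    (h2 : w * v = P * w + N * P) (h4 : v ^ 2 = P * v + N * w) (hp : p ≠ 0) (x : K × K × K) :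
    f17 (vals w v x / p) = vals w v (tF P N p x) / p ^ 15 := by
  simp only [tF, vals_tsc, vals_tmul h1 h2 h4, vals_tadd, vals_base]
  rw [f17_eq h3]
  set X := vals w v x
  have e : (X / p) ^ 3 - X / p = (X * X * X + 2 * p ^ 2 * X) / p ^ 3 := by
    field_simp
    linear_combination (-(X * p ^ 2)) * h3
  rw [e]
  field_simp

theorem sum_tF {K : Type*} [Field K] {w v t : K} (h3 : (3 : K) = 0)
    (h1 : w ^ 2 = (t ^ 3 + t ^ 2 + t + 2) * v)
    (h2 : w * v = (t ^ 3 + t ^ 2 + t + 2) * w + (t ^ 3 + 2 * t ^ 2 + 1) * (t ^ 3 + t ^ 2 + t + 2))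
    (h4 : v ^ 2 = (t ^ 3 + t ^ 2 + t + 2) * v + (t ^ 3 + 2 * t ^ 2 + 1) * w)
    (hp : t ^ 5 + t ^ 4 + 2 ≠ 0) (l : List ℕ) :
    vals w v (ttot t l) / (t ^ 5 + t ^ 4 + 2) ^ 15 =
      1 + (l.map fun n => f17 (vals w v (tcode t n) / (t ^ 5 + t ^ 4 + 2))).sum := by
  induction l with
  | nil =>
    simp only [ttot, List.foldr_nil, List.map_nil, List.sum_nil, vals_base]
    rw [div_self (pow_ne_zero 15 hp), add_zero]
  | cons n l ih =>
    have e : ttot t (n :: l) = tadd (tF (t ^ 3 + t ^ 2 + t + 2) (t ^ 3 + 2 * t ^ 2 + 1)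
      (t ^ 5 + t ^ 4 + 2) (tcode t n)) (ttot t l) := rfl
    rw [e, vals_tadd, add_div, ih, List.map_cons, List.sum_cons, f17_tF h3 h1 h2 h4 hp]
    ring

end vals

/-! ### the elements attached to codes -/

/-- digits as constants -/
abbrev dz (n i : ℕ) : ZMod 3 := (dg n i : ZMod 3)

/-- first coordinate -/
def q0' (n : ℕ) : (ZMod 3)[X] := C (dz n 0) + C (dz n 1) * X + C (dz n 2) * X ^ 2 +
  C (dz n 3) * X ^ 3 + C (dz n 4) * X ^ 4
/-- second coordinate -/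
def q1' (n : ℕ) : (ZMod 3)[X] := C (dz n 5) + C (dz n 6) * X + C (dz n 7) * X ^ 2
/-- third coordinate -/
def q2' (n : ℕ) : (ZMod 3)[X] := C (dz n 8) + C (dz n 9) * X + C (dz n 10) * X ^ 2

/-- The element of `L(∞)` with a given code. -/
def xc (n : ℕ) : KK := elt (q0' n) (q1' n) (q2' n)

theorem three_KK : (3 : KK) = 0 := three_eq_zero KK

theorem psi_cast (n : ℕ) : psi (C ((n : ZMod 3))) = (n : KK) := by
  simp

theorem piK_eq' : piK = tK ^ 5 + tK ^ 4 + 2 := by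
  rw [piK_eq, psi_P0]; linear_combination (-1 : KK) * three_KK

theorem psi_Pp' : psi Pp = tK ^ 3 + tK ^ 2 + tK + 2 := by
  rw [psi_Pp]; linear_combination (-1 : KK) * three_KK

theorem psi_Nn' : psi Nn = tK ^ 3 + 2 * tK ^ 2 + 1 := by
  rw [psi_Nn]; linear_combination (-tK ^ 2) * three_KK

theorem xc_eq (n : ℕ) : xc n = vals (psi Pp * yK) (psi Pp * yK ^ 2) (tcode tK n) /
    (tK ^ 5 + tK ^ 4 + 2) := by
  rw [xc, elt, ← piK_eq']
  congr 1
  simp only [vals, tcode, q0', q1', q2', map_add, map_mul, map_pow, psi_cast]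
  rfl

theorem rel1 : (psi Pp * yK) ^ 2 = (tK ^ 3 + tK ^ 2 + tK + 2) * (psi Pp * yK ^ 2) := by
  rw [← psi_Pp']; ring

theorem rel2 : (psi Pp * yK) * (psi Pp * yK ^ 2) = (tK ^ 3 + tK ^ 2 + tK + 2) * (psi Pp * yK) +
    (tK ^ 3 + 2 * tK ^ 2 + 1) * (tK ^ 3 + tK ^ 2 + tK + 2) := by
  rw [← psi_Pp', ← psi_Nn', ← fK_spec]
  linear_combination (psi Pp) ^ 2 * yK_spec

theorem rel3 : (psi Pp * yK ^ 2) ^ 2 = (tK ^ 3 + tK ^ 2 + tK + 2) * (psi Pp * yK ^ 2) +
    (tK ^ 3 + 2 * tK ^ 2 + 1) * (psi Pp * yK) := by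
  rw [← psi_Pp', ← psi_Nn', ← fK_spec]
  linear_combination (psi Pp) ^ 2 * yK * yK_spec

theorem sum_codes : 1 + ((1 :: 3 :: 4 :: 5 :: codes).map fun n => f17 (xc n)).sum = 0 := by
  have h := sum_tF three_KK rel1 rel2 rel3 (by rw [← piK_eq']; exact piK_ne_zero)
    (1 :: 3 :: 4 :: 5 :: codes)
  rw [ttot_codes three_KK tK] at h
  have h0 : vals (psi Pp * yK) (psi Pp * yK ^ 2) ((0, 0, 0) : KK × KK × KK) = 0 := by simp [vals]
  rw [h0, zero_div] at h
  simp only [xc_eq]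
  exact h.symm

/-! ### uniqueness of coordinates -/

theorem iT_triple (a b c : R0) : iT (AdjoinRoot.of g0 a + AdjoinRoot.of g0 b * AdjoinRoot.root g0 +
    AdjoinRoot.of g0 c * AdjoinRoot.root g0 ^ 2) = iT (AdjoinRoot.of g0 a) +
    iT (AdjoinRoot.of g0 b) * yK + iT (AdjoinRoot.of g0 c) * yK ^ 2 := by
  rw [map_add, map_add, map_mul, map_mul, map_pow iT (AdjoinRoot.root g0) 2]; rfl

theorem elt_const {a0 a1 a2 : (ZMod 3)[X]} (h0 : a0.natDegree ≤ 4) {r : ZMod 3}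
    (h : elt a0 a1 a2 = algebraMap (ZMod 3) KK r) : a0 = 0 ∧ a1 = 0 ∧ a2 = 0 ∧ r = 0 := by
  have h1 : psi a0 + psi a1 * (psi Pp * yK) + psi a2 * (psi Pp * yK ^ 2) =
      psi (C r) * psi P0 := by
    rw [elt, div_eq_iff piK_ne_zero] at h
    rw [h, psi_C, piK_eq]
  have h2 : iT (AdjoinRoot.of g0 (toR0 (a0 - C r * P0)) +
      AdjoinRoot.of g0 (toR0 (a1 * Pp)) * AdjoinRoot.root g0 +
      AdjoinRoot.of g0 (toR0 (a2 * Pp)) * AdjoinRoot.root g0 ^ 2) = 0 := by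
    have : iT (AdjoinRoot.of g0 (toR0 (a0 - C r * P0)) +
      AdjoinRoot.of g0 (toR0 (a1 * Pp)) * AdjoinRoot.root g0 +
      AdjoinRoot.of g0 (toR0 (a2 * Pp)) * AdjoinRoot.root g0 ^ 2) =
      psi (a0 - C r * P0) + psi (a1 * Pp) * yK + psi (a2 * Pp) * yK ^ 2 := by
      rw [iT_triple]; rfl
    rw [this, map_sub, map_mul, map_mul, map_mul]
    linear_combination h1
  have h3 := coord_zero _ _ _ (iT_injective (by rw [h2, map_zero]))
  obtain ⟨e0, e1, e2⟩ := h3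
  have z0 : a0 - C r * P0 = 0 := toR0_injective (by rw [e0, map_zero])
  have z1 : a1 * Pp = 0 := toR0_injective (by rw [e1, map_zero])
  have z2 : a2 * Pp = 0 := toR0_injective (by rw [e2, map_zero])
  have hP := Pp_monic.ne_zero
  have y1 := (mul_eq_zero.mp z1).resolve_right hP
  have y2 := (mul_eq_zero.mp z2).resolve_right hP
  have hr : r = 0 := by
    by_contra hr
    have h5 : (C r * P0).natDegree = 5 := by
      rw [natDegree_C_mul hr, P0_natDegree]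
    have h6 : a0 = C r * P0 := sub_eq_zero.mp z0
    rw [h6, h5] at h0; omega
  subst hr
  refine ⟨by simpa using z0, y1, y2, rfl⟩

theorem elt_add (a0 a1 a2 b0 b1 b2 : (ZMod 3)[X]) :
    elt a0 a1 a2 + elt b0 b1 b2 = elt (a0 + b0) (a1 + b1) (a2 + b2) := by
  simp only [elt, map_add]; ring

theorem elt_sub (a0 a1 a2 b0 b1 b2 : (ZMod 3)[X]) :
    elt a0 a1 a2 - elt b0 b1 b2 = elt (a0 - b0) (a1 - b1) (a2 - b2) := by
  simp only [elt, map_sub]; ring

theorem piinv_eq : piK⁻¹ = elt 1 0 0 := by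
  simp [elt]

/-- the element `u = t / π` -/
def uK : KK := elt X 0 0

theorem elt_smul (s : ZMod 3) (a0 a1 a2 : (ZMod 3)[X]) :
    algebraMap (ZMod 3) KK s * elt a0 a1 a2 = elt (C s * a0) (C s * a1) (C s * a2) := by
  simp only [elt, map_mul, psi_C]; ring

theorem q0'_deg (n : ℕ) : (q0' n).natDegree ≤ 4 := by unfold q0'; compute_degree
theorem q1'_deg (n : ℕ) : (q1' n).natDegree ≤ 2 := by unfold q1'; compute_degree
theorem q2'_deg (n : ℕ) : (q2' n).natDegree ≤ 2 := by unfold q2'; compute_degree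

theorem elt_mem_lam (a0 a1 a2 : (ZMod 3)[X]) (h0 : a0.natDegree ≤ 5) (h1 : a1.natDegree ≤ 2)
    (h2 : a2.natDegree ≤ 2) : elt a0 a1 a2 ∈ lam Pinf piK := by
  refine mem_lam.mpr ⟨elt_mem_regular a0 a1 a2 h0 h1 h2, ?_⟩
  refine ⟨AdjoinRoot.of g0 (toR0 a0) + AdjoinRoot.of g0 (toR0 (a1 * Pp)) * AdjoinRoot.root g0 +
      AdjoinRoot.of g0 (toR0 (a2 * Pp)) * AdjoinRoot.root g0 ^ 2, ?_⟩
  have : iT (AdjoinRoot.of g0 (toR0 a0) +
      AdjoinRoot.of g0 (toR0 (a1 * Pp)) * AdjoinRoot.root g0 +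
      AdjoinRoot.of g0 (toR0 (a2 * Pp)) * AdjoinRoot.root g0 ^ 2) =
      psi a0 + psi (a1 * Pp) * yK + psi (a2 * Pp) * yK ^ 2 := by
    rw [iT_triple]; rfl
  rw [this, map_mul, map_mul, elt]
  have := piK_ne_zero
  field_simp

theorem dz_inj {n m i : ℕ} (h : dz n i = dz m i) : dg n i = dg m i := by
  have h1 := (ZMod.natCast_eq_natCast_iff' _ _ _).mp h
  have a : dg n i < 3 := Nat.mod_lt _ (by norm_num)
  have b : dg m i < 3 := Nat.mod_lt _ (by norm_num)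
  omega

theorem code_inj {n m : ℕ} (hn : n < 3 ^ 11) (hm : m < 3 ^ 11)
    (h : ∀ i < 11, dg n i = dg m i) : n = m := by
  have h0 := h 0 (by norm_num)
  have h1 := h 1 (by norm_num)
  have h2 := h 2 (by norm_num)
  have h3 := h 3 (by norm_num)
  have h4 := h 4 (by norm_num)
  have h5 := h 5 (by norm_num)
  have h6 := h 6 (by norm_num)
  have h7 := h 7 (by norm_num)
  have h8 := h 8 (by norm_num)
  have h9 := h 9 (by norm_num)
  have h10 := h 10 (by norm_num)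
  simp only [dg] at *
  norm_num at *
  omega

end

end Pool.Agent.Helper28.Goss
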