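import Pool.Agent.Helper28.GossRegular

namespace Pool.Agent.Helper28.Goss
open Polynomial

noncomputable section

theorem coord_exists (z : T) : ∃ a b c : R0, z = AdjoinRoot.of g0 a +
    AdjoinRoot.of g0 b * AdjoinRoot.root g0 + AdjoinRoot.of g0 c * AdjoinRoot.root g0 ^ 2 := by
  obtain ⟨p, rfl⟩ := AdjoinRoot.mk_surjective z
  have h1 : AdjoinRoot.mk g0 p = AdjoinRoot.mk g0 (p %ₘ g0) := by
    rw [AdjoinRoot.mk_eq_mk]
    exact ⟨p /ₘ g0, by linear_combination -(Polynomial.modByMonic_add_div p g0)⟩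
  have h2 : (p %ₘ g0).natDegree < 3 := by
    have h3 := Polynomial.natDegree_modByMonic_lt p g0_monic (by
      intro h
      have := congrArg natDegree h
      rw [g0_natDegree] at this
      simp at this)
    rwa [g0_natDegree] at h3
  refine ⟨(p %ₘ g0).coeff 0, (p %ₘ g0).coeff 1, (p %ₘ g0).coeff 2, ?_⟩
  rw [h1]
  conv_lhs => rw [(p %ₘ g0).as_sum_range_C_mul_X_pow' h2]
  simp only [Finset.sum_range_succ, Finset.sum_range_zero, map_add, map_mul, map_pow,
    map_zero, AdjoinRoot.mk_C, AdjoinRoot.mk_X]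
  ring

theorem coord_zero (a b c : R0) (h : AdjoinRoot.of g0 a + AdjoinRoot.of g0 b * AdjoinRoot.root g0 +
    AdjoinRoot.of g0 c * AdjoinRoot.root g0 ^ 2 = 0) : a = 0 ∧ b = 0 ∧ c = 0 := by
  have h1 : AdjoinRoot.mk g0 (C a + C b * X + C c * X ^ 2) = 0 := by
    simp only [map_add, map_mul, map_pow, AdjoinRoot.mk_C, AdjoinRoot.mk_X]
    exact h
  rw [AdjoinRoot.mk_eq_zero] at h1
  have h2 : (C a + C b * X + C c * X ^ 2 : R0[X]) = 0 := by
    apply Polynomial.eq_zero_of_dvd_of_natDegree_lt h1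
    rw [g0_natDegree]
    have : (C a + C b * X + C c * X ^ 2 : R0[X]).natDegree ≤ 2 := by compute_degree
    omega
  have k0' := congrArg (fun p => coeff p 0) h2
  have k1' := congrArg (fun p => coeff p 1) h2
  have k2' := congrArg (fun p => coeff p 2) h2
  simp [coeff_X, coeff_C] at k0' k1' k2'
  exact ⟨k0', k1', k2'⟩

theorem coord_inj {a b c a' b' c' : R0} (h : AdjoinRoot.of g0 a +
    AdjoinRoot.of g0 b * AdjoinRoot.root g0 + AdjoinRoot.of g0 c * AdjoinRoot.root g0 ^ 2 =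
    AdjoinRoot.of g0 a' + AdjoinRoot.of g0 b' * AdjoinRoot.root g0 +
    AdjoinRoot.of g0 c' * AdjoinRoot.root g0 ^ 2) : a = a' ∧ b = b' ∧ c = c' := by
  have := coord_zero (a - a') (b - b') (c - c') (by
    rw [map_sub, map_sub, map_sub]; linear_combination h)
  exact ⟨sub_eq_zero.mp this.1, sub_eq_zero.mp this.2.1, sub_eq_zero.mp this.2.2⟩

theorem root_cube : AdjoinRoot.root g0 ^ 3 = AdjoinRoot.root g0 + AdjoinRoot.of g0 f0 := by
  have h := AdjoinRoot.eval₂_root g0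
  have e : g0 = X ^ 3 - X - C f0 := rfl
  conv at h => lhs; arg 3; rw [e]
  rw [eval₂_sub, eval₂_sub, eval₂_pow, eval₂_X, eval₂_C] at h
  linear_combination h

theorem three_T : (3 : T) = 0 := by
  have h := map_ofNat ((AdjoinRoot.of g0).comp toR0) 3
  rw [three_zero_poly, map_zero] at h
  exact h.symm

theorem three_R0 : (3 : R0) = 0 := by
  have h := map_ofNat toR0 3
  rw [three_zero_poly, map_zero] at h
  exact h.symm

theorem coord_cube (a b c : R0) : (AdjoinRoot.of g0 a + AdjoinRoot.of g0 b * AdjoinRoot.root g0 +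
    AdjoinRoot.of g0 c * AdjoinRoot.root g0 ^ 2) ^ 3 =
    AdjoinRoot.of g0 (a ^ 3 + b ^ 3 * f0 + c ^ 3 * f0 ^ 2) +
    AdjoinRoot.of g0 (b ^ 3 + 2 * c ^ 3 * f0) * AdjoinRoot.root g0 +
    AdjoinRoot.of g0 (c ^ 3) * AdjoinRoot.root g0 ^ 2 := by
  have h3 := three_T
  have hr := root_cube
  simp only [map_add, map_mul, map_pow]
  have h2 : AdjoinRoot.of g0 2 = 2 := map_ofNat _ 2
  rw [h2]
  set A := AdjoinRoot.of g0 a
  set B := AdjoinRoot.of g0 b
  set D := AdjoinRoot.of g0 c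
  set y := AdjoinRoot.root g0
  set f := AdjoinRoot.of g0 f0
  have hr6 : y ^ 6 = (y + f) ^ 2 := by rw [← hr]; ring
  linear_combination B ^ 3 * hr + D ^ 3 * hr6 + (A ^ 2 * (B * y) + A * (B * y) ^ 2 +
    A ^ 2 * (D * y ^ 2) + A * (D * y ^ 2) ^ 2 + (B * y) ^ 2 * (D * y ^ 2) +
    (B * y) * (D * y ^ 2) ^ 2 + 2 * A * (B * y) * (D * y ^ 2)) * h3

theorem zmod3_cube (k : ZMod 3) : k ^ 3 = k := by revert k; decide

theorem toR0_C_cube (k : ZMod 3) : (toR0 (C k)) ^ 3 = toR0 (C k) := by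
  rw [← map_pow, ← map_pow, zmod3_cube]

/-- Elements of `R0` fixed by a power of Frobenius are constants. -/
theorem fixed_const {r : R0} {m : ℕ} (hm : 0 < m) (h : r ^ (3 ^ m) = r) :
    ∃ k : ZMod 3, r = toR0 (C k) := by
  obtain ⟨A, B, rfl⟩ := IsLocalization.exists_mk'_eq pI.primeCompl r
  set r := IsLocalization.mk' R0 A B with hr
  have h1 : r * toR0 B = toR0 A := IsLocalization.mk'_spec R0 A B
  have hB : (B : (ZMod 3)[X]) ≠ 0 := fun h0 => B.2 (h0 ▸ pI.zero_mem)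
  by_cases hA : A = 0
  · refine ⟨0, ?_⟩
    rw [hA, map_zero] at h1
    have : toR0 (B : (ZMod 3)[X]) ≠ 0 := fun h0 => hB (toR0_injective (by rw [map_zero]; exact h0))
    rcases mul_eq_zero.mp h1 with h2 | h2
    · rw [h2]; simp
    · exact absurd h2 this
  · obtain ⟨N, hN⟩ : ∃ N, 3 ^ m = N + 1 := ⟨3 ^ m - 1, by have := Nat.one_le_pow m 3 (by norm_num); omega⟩
    have hN0 : N ≠ 0 := by
      rintro rfl
      have : 1 < 3 ^ m := Nat.one_lt_pow hm.ne' (by norm_num)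
      omega
    have h2 : A ^ (N + 1) = A * (B : (ZMod 3)[X]) ^ N := by
      apply toR0_injective
      rw [map_pow, map_mul, map_pow, ← h1, mul_pow, ← hN, h, hN]
      ring
    have h3 : A ^ N = (B : (ZMod 3)[X]) ^ N := by
      apply mul_left_cancel₀ hA
      rw [← h2]; ring
    have d1 : A ∣ B := (UniqueFactorizationMonoid.pow_dvd_pow_iff_dvd hN0).mp (by rw [h3])
    have d2 : (B : (ZMod 3)[X]) ∣ A := (UniqueFactorizationMonoid.pow_dvd_pow_iff_dvd hN0).mp (by rw [h3])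
    obtain ⟨u, hu⟩ := associated_of_dvd_dvd d2 d1
    obtain ⟨k, hk, hku⟩ := Polynomial.isUnit_iff.mp u.isUnit
    refine ⟨k, ?_⟩
    have hB' : toR0 (B : (ZMod 3)[X]) ≠ 0 := fun h0 => hB (toR0_injective (by rw [map_zero]; exact h0))
    apply mul_right_cancel₀ hB'
    rw [h1, ← hu, map_mul, ← hku]; ring

end

end Pool.Agent.Helper28.Goss
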