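import Pool.Agent.Helper28.GossCodes

namespace Pool.Agent.Helper28.Goss
open Polynomial

noncomputable section

theorem H1' : piK⁻¹ ∈ Pinf.regularAway := by
  rw [piinv_eq]
  exact elt_mem_regular _ _ _ (by simp) (by simp) (by simp)

theorem Hu' : uK ∈ lam Pinf piK := by
  exact elt_mem_lam _ _ _ (by simp) (by simp) (by simp)

theorem comb_eq (s t : ZMod 3) : algebraMap (ZMod 3) KK s * piK⁻¹ + algebraMap (ZMod 3) KK t * uK =
    elt (C s + C t * X) 0 0 := by
  rw [piinv_eq, uK, elt_smul, elt_smul, elt_add]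
  simp

theorem H2' (r s t : ZMod 3) (h : algebraMap (ZMod 3) KK r + algebraMap (ZMod 3) KK s * piK⁻¹ +
    algebraMap (ZMod 3) KK t * uK = 0) : r = 0 ∧ s = 0 ∧ t = 0 := by
  have h1 : elt (C s + C t * X) 0 0 = algebraMap (ZMod 3) KK (-r) := by
    rw [← comb_eq, map_neg]; linear_combination h
  have hd : (C s + C t * X : (ZMod 3)[X]).natDegree ≤ 4 := by
    have : (C s + C t * X : (ZMod 3)[X]).natDegree ≤ 1 := by compute_degree
    omega
  obtain ⟨e0, -, -, er⟩ := elt_const hd h1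
  have k0 := congrArg (fun p => coeff p 0) e0
  have k1 := congrArg (fun p => coeff p 1) e0
  simp [coeff_C, coeff_X] at k0 k1
  exact ⟨by simpa using er, k0, k1⟩

theorem xc_mem_lam (n : ℕ) : xc n ∈ lam Pinf piK :=
  elt_mem_lam _ _ _ ((q0'_deg n).trans (by norm_num)) (q1'_deg n) (q2'_deg n)

theorem coeffs0 {d0 d1 d2 d3 d4 : ZMod 3} (h : C d0 + C d1 * X + C d2 * X ^ 2 + C d3 * X ^ 3 +
    C d4 * X ^ 4 = (0 : (ZMod 3)[X])) : d0 = 0 ∧ d1 = 0 ∧ d2 = 0 ∧ d3 = 0 ∧ d4 = 0 := by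
  have k0 := congrArg (fun p => coeff p 0) h
  have k1 := congrArg (fun p => coeff p 1) h
  have k2 := congrArg (fun p => coeff p 2) h
  have k3 := congrArg (fun p => coeff p 3) h
  have k4 := congrArg (fun p => coeff p 4) h
  simp [coeff_C, coeff_X] at k0 k1 k2 k3 k4
  exact ⟨k0, k1, k2, k3, k4⟩

theorem coeffs1 {d0 d1 d2 : ZMod 3} (h : C d0 + C d1 * X + C d2 * X ^ 2 = (0 : (ZMod 3)[X])) :
    d0 = 0 ∧ d1 = 0 ∧ d2 = 0 := by
  have h' := coeffs0 (d0 := d0) (d1 := d1) (d2 := d2) (d3 := 0) (d4 := 0) (by simpa using h)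
  exact ⟨h'.1, h'.2.1, h'.2.2.1⟩

theorem H4' (n m : ℕ) (hn : n < 3 ^ 11) (hm : m < 3 ^ 11) (r : ZMod 3)
    (h : xc n - xc m = algebraMap (ZMod 3) KK r) : n = m := by
  rw [xc, xc, elt_sub] at h
  obtain ⟨e0, e1, e2, -⟩ := elt_const
    ((natDegree_sub_le _ _).trans (max_le (q0'_deg n) (q0'_deg m))) h
  have g0 := coeffs0 (d0 := dz n 0 - dz m 0) (d1 := dz n 1 - dz m 1) (d2 := dz n 2 - dz m 2)
    (d3 := dz n 3 - dz m 3) (d4 := dz n 4 - dz m 4) (by
      rw [← e0]; simp only [q0', map_sub]; ring)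
  have g1 := coeffs1 (d0 := dz n 5 - dz m 5) (d1 := dz n 6 - dz m 6) (d2 := dz n 7 - dz m 7) (by
      rw [← e1]; simp only [q1', map_sub]; ring)
  have g2 := coeffs1 (d0 := dz n 8 - dz m 8) (d1 := dz n 9 - dz m 9) (d2 := dz n 10 - dz m 10) (by
      rw [← e2]; simp only [q2', map_sub]; ring)
  simp only [sub_eq_zero] at g0 g1 g2
  obtain ⟨a0, a1, a2, a3, a4⟩ := g0
  obtain ⟨b0, b1, b2⟩ := g1
  obtain ⟨c0, c1, c2⟩ := g2
  apply code_inj hn hm
  intro i hi
  apply dz_inj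
  interval_cases i <;> assumption

theorem dz_sum {n m i : ℕ} (h : dz n i + dz m i = 0) : (dg n i + dg m i) % 3 = 0 := by
  have : ((dg n i + dg m i : ℕ) : ZMod 3) = 0 := by push_cast; exact h
  rwa [ZMod.natCast_eq_zero_iff, Nat.dvd_iff_mod_eq_zero] at this

theorem H5' (n m : ℕ) (hp : pairOk n m = true) (r s t : ZMod 3) :
    xc n + xc m ≠ algebraMap (ZMod 3) KK r + algebraMap (ZMod 3) KK s * piK⁻¹ +
      algebraMap (ZMod 3) KK t * uK := by
  intro h
  have h1 : elt (q0' n + q0' m - (C s + C t * X)) (q1' n + q1' m - 0) (q2' n + q2' m - 0) =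
      algebraMap (ZMod 3) KK r := by
    rw [← elt_sub, ← elt_add, ← comb_eq]
    change xc n + xc m - _ = _
    rw [h]; ring
  have hd : (C s + C t * X : (ZMod 3)[X]).natDegree ≤ 4 := by
    have : (C s + C t * X : (ZMod 3)[X]).natDegree ≤ 1 := by compute_degree
    omega
  obtain ⟨e0, e1, e2, -⟩ := elt_const ((natDegree_sub_le _ _).trans
    (max_le ((natDegree_add_le _ _).trans (max_le (q0'_deg n) (q0'_deg m))) hd)) h1
  have g0 := coeffs0 (d0 := dz n 0 + dz m 0 - s) (d1 := dz n 1 + dz m 1 - t)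
    (d2 := dz n 2 + dz m 2)
    (d3 := dz n 3 + dz m 3) (d4 := dz n 4 + dz m 4) (by
      rw [← e0]; simp only [q0', map_sub, map_add]; ring)
  have g1 := coeffs1 (d0 := dz n 5 + dz m 5) (d1 := dz n 6 + dz m 6) (d2 := dz n 7 + dz m 7) (by
      rw [← e1]; simp only [q1', map_add]; ring)
  have g2 := coeffs1 (d0 := dz n 8 + dz m 8) (d1 := dz n 9 + dz m 9) (d2 := dz n 10 + dz m 10) (by
      rw [← e2]; simp only [q2', map_add]; ring)
  obtain ⟨-, -, a2, a3, a4⟩ := g0
  obtain ⟨b0, b1, b2⟩ := g1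
  obtain ⟨c0, c1, c2⟩ := g2
  have hall : ∀ i < 9, (dg n (i + 2) + dg m (i + 2)) % 3 = 0 := by
    intro i hi
    apply dz_sum
    interval_cases i <;> assumption
  rw [pairOk, List.any_eq_true] at hp
  obtain ⟨i, hi, hi'⟩ := hp
  rw [List.mem_range] at hi
  have := hall i hi
  simp [this] at hi'

theorem counterexample : ∃ S : Set (Pinf.ResidueField)ˣ, IsRepresentatives Pinf S ∧
    IsZetaValueK Pinf isUnif.sgn S 17 0 := by
  classical
  have hinj : Set.InjOn xc (codes.toFinset : Set ℕ) := by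
    intro n hn m hm h
    simp only [List.coe_toFinset, Set.mem_ofPred_eq] at hn hm
    exact H4' n m (codes_lt n hn) (codes_lt m hm) 0 (by rw [h]; simp)
  apply main_abstract isFull isUnif uK (codes.toFinset.image xc) H1' Hu' H2'
  · intro x hx
    obtain ⟨n, _, rfl⟩ := Finset.mem_image.mp hx
    exact xc_mem_lam n
  · intro x hx y hy r h
    obtain ⟨n, hn, rfl⟩ := Finset.mem_image.mp hx
    obtain ⟨m, hm, rfl⟩ := Finset.mem_image.mp hy
    rw [List.mem_toFinset] at hn hm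
    rw [H4' n m (codes_lt n hn) (codes_lt m hm) r h]
  · intro x hx y hy r s t
    obtain ⟨n, hn, rfl⟩ := Finset.mem_image.mp hx
    obtain ⟨m, hm, rfl⟩ := Finset.mem_image.mp hy
    rw [List.mem_toFinset] at hn hm
    exact H5' n m (pairs n hn m hm) r s t
  · rw [Finset.sum_image hinj, List.sum_toFinset _ codes_nodup]
    have h := sum_codes
    simp only [List.map_cons, List.sum_cons] at h
    have e1 : xc 1 = piK⁻¹ := by
      rw [piinv_eq, xc, q0', q1', q2']
      simp [dz, dg]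
    have e3 : xc 3 = uK := by
      rw [uK, xc, q0', q1', q2']
      simp [dz, dg]
    have e4 : xc 4 = uK + piK⁻¹ := by
      rw [piinv_eq, uK, elt_add, xc, q0', q1', q2']
      simp [dz, dg]
      ring_nf
    have e5 : xc 5 = uK - piK⁻¹ := by
      rw [piinv_eq, uK, elt_sub, xc, q0', q1', q2']
      have : (C (2 : ZMod 3) : (ZMod 3)[X]) = -1 := by
        have h2 : (2 : ZMod 3) = -1 := rfl
        rw [h2]; simp
      simp [dz, dg]
      congr 1
      linear_combination this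
    rw [e1, e3, e4, e5] at h
    linear_combination h

end

end Pool.Agent.Helper28.Goss
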