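import Mathlib

/-!
# Goss zeta values at negative integers: the setting of problem MP_b811f7_nt

`F` is a finite field with `q` elements and `K` a field containing it.  Places of `K` over `F`
are given by their valuation rings.
-/

namespace Pool.Agent.Helper28.Goss

/-- `K` is a function field in one variable over `F`: a finite extension of `F(t)` for some
element `t` transcendental over `F`. -/
def IsFunctionField (F K : Type) [Field F] [Field K] [Algebra F K] : Prop :=
  ∃ t : K, Transcendental F t ∧ FiniteDimensional (IntermediateField.adjoin F ({t} : Set K)) K

/-- `F` is the full constant field of `K`: every element of `K` algebraic over `F` lies in `F`. -/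
def IsFullConstantField (F K : Type) [Field F] [Field K] [Algebra F K] : Prop :=
  ∀ x : K, IsAlgebraic F x → ∃ c : F, algebraMap F K c = x

/-- A place of `K` over `F`, given by its valuation ring `O` with `F ⊆ O ⊊ K`. -/
@[ext] structure Place (F K : Type) [Field F] [Field K] [Algebra F K] where
  /-- the valuation ring of the place -/
  ring : ValuationSubring K
  algebraMap_mem : ∀ c : F, algebraMap F K c ∈ ring
  ne_top : ring ≠ ⊤

variable {F K : Type} [Field F] [Field K] [Algebra F K]

namespace Place

/-- The residue field `F_∞ = O / 𝔪` of a place. -/
abbrev ResidueField (P : Place F K) : Type := IsLocalRing.ResidueField P.ring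

/-- The inclusion of the constants into the valuation ring. -/
def constants (P : Place F K) : F →+* P.ring where
  toFun c := ⟨algebraMap F K c, P.algebraMap_mem c⟩
  map_one' := by ext; simp
  map_mul' a b := by ext; simp
  map_zero' := by ext; simp
  map_add' a b := by ext; simp

noncomputable instance (P : Place F K) : Algebra F P.ResidueField :=
  ((IsLocalRing.residue P.ring).comp P.constants).toAlgebra

/-- The degree of a place: the dimension of its residue field over `F`. -/
noncomputable def degree (P : Place F K) : ℕ := Module.finrank F P.ResidueField

/-- `P.HasOrd x n` says that `x` has normalised valuation `n` at `P`: `x = π ^ n * u` for a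
generator `π` of the maximal ideal of the valuation ring and a unit `u` of that ring. -/
def HasOrd (P : Place F K) (x : K) (n : ℤ) : Prop :=
  ∃ π : P.ring, IsLocalRing.maximalIdeal P.ring = Ideal.span {π} ∧
    ∃ u : (P.ring)ˣ, x = (π : K) ^ n * ((u : P.ring) : K)

/-- The ring `A` of elements of `K` regular away from `P`: the intersection of the valuation
rings of all the other places. -/
def regularAway (P : Place F K) : Subring K :=
  ⨅ Q : {Q : Place F K // Q ≠ P}, Q.1.ring.toSubring

/-- The completion `K_∞` of `K` at the place. -/
def Completion (P : Place F K) : Type := P.ring.valuation.Completion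

/-- The field structure of the completion. -/
noncomputable instance (P : Place F K) : Field P.Completion :=
  (inferInstance : Field P.ring.valuation.Completion)

/-- The embedding of `K` into its completion `K_∞`. -/
noncomputable def toCompletion (P : Place F K) (x : K) : P.Completion :=
  UniformSpace.Completion.coe' (WithVal.toVal P.ring.valuation x)

end Place

/-- A sign function at `P`: a homomorphism `K_∞^* → F_∞^*` which on the units of the valuation
ring of `P` is reduction modulo the maximal ideal.  (Such a homomorphism is trivial on the
one-units of `K_∞`, since these are divisible by the order of `F_∞^*`; so it is reduction on all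
units of the valuation ring of `K_∞`, which is to say that it is the identity on `F_∞^*`.) -/
structure SignFunction (P : Place F K) where
  /-- the underlying homomorphism -/
  toHom : (P.Completion)ˣ →* (P.ResidueField)ˣ
  map_unit : ∀ (x : (P.Completion)ˣ) (u : (P.ring)ˣ),
    (x : P.Completion) = P.toCompletion ((u : P.ring) : K) →
      (toHom x : P.ResidueField) = IsLocalRing.residue P.ring (u : P.ring)

/-- `S` is a set of representatives of `F_∞^* / F^*`. -/
def IsRepresentatives (P : Place F K) (S : Set (P.ResidueField)ˣ) : Prop :=
  ∀ c : (P.ResidueField)ˣ, ∃! s : (P.ResidueField)ˣ,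
    s ∈ S ∧ ∃ r : Fˣ, (c : P.ResidueField) = algebraMap F P.ResidueField (r : F) * s

/-- The set `A_{i+}` of positive elements of degree `i` in `A`, where
`deg a = - d_∞ v_∞(a)` and `a` is positive if its sign lies in `S`. -/
def positive (P : Place F K) (sgn : SignFunction P) (S : Set (P.ResidueField)ˣ) (i : ℕ) : Set K :=
  {a | a ∈ P.regularAway ∧ (∃ n : ℤ, P.HasOrd a n ∧ (i : ℤ) = -((P.degree : ℤ) * n)) ∧
    ∃ x : (P.Completion)ˣ, (x : P.Completion) = P.toCompletion a ∧ sgn.toHom x ∈ S}

/-- `z` is the Goss zeta value `ζ_A(-k) = ∑_{i ≥ 0} ∑_{a ∈ A_{i+}} a ^ k`: every `A_{i+}` is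
finite, the inner sums vanish for all large `i`, and `z` is the sum. -/
def IsZetaValue (P : Place F K) (sgn : SignFunction P) (S : Set (P.ResidueField)ˣ) (k : ℕ)
    (z : K) : Prop :=
  (∀ i, (positive P sgn S i).Finite) ∧
    ∃ n : ℕ, (∀ i, n ≤ i → ∑ᶠ a ∈ positive P sgn S i, a ^ k = 0) ∧
      z = ∑ i ∈ Finset.range n, ∑ᶠ a ∈ positive P sgn S i, a ^ k

end Pool.Agent.Helper28.Goss
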