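import Mathlib

namespace Pool.Agent.Helper28.Goss

/-- Half systems in a finite group without `2`-torsion, periodic modulo a subgroup `U` and
containing a prescribed set. -/
theorem exists_half {G : Type*} [AddCommGroup G] [Finite G] (h2 : ∀ g : G, g + g + g = 0)
    (U : AddSubgroup G) (B : Set G) (hB : ∀ x ∈ B, ∀ y ∈ B, x + y ∉ U) :
    ∃ S : Set G, (∀ g, g ∉ U → (g ∈ S ↔ -g ∉ S)) ∧ (∀ g ∈ S, g ∉ U) ∧
      (∀ g ∈ S, ∀ u ∈ U, g + u ∈ S) ∧ B ⊆ S := by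
  classical
  obtain ⟨n, ⟨e⟩⟩ := Finite.exists_equiv_fin (G ⧸ U)
  let Bq : Set (G ⧸ U) := (fun g : G => (g : G ⧸ U)) '' B
  have hBq : ∀ w ∈ Bq, -w ∉ Bq := by
    rintro _ ⟨x, hx, rfl⟩ ⟨y, hy, hxy⟩
    apply hB x hx y hy
    have h1 : ((x + y : G) : G ⧸ U) = 0 := by
      rw [QuotientAddGroup.mk_add]
      simp only at hxy
      rw [hxy]; simp
    exact (QuotientAddGroup.eq_zero_iff _).mp h1
  have hneg : ∀ w : G ⧸ U, w ≠ 0 → -w ≠ w := by
    intro w hw h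
    apply hw
    have h3 : w + w + w = 0 := by
      obtain ⟨g, rfl⟩ := QuotientAddGroup.mk_surjective w
      rw [← QuotientAddGroup.mk_add, ← QuotientAddGroup.mk_add, h2]
      rfl
    have h4 : w + w = 0 := by
      nth_rewrite 1 [← h]; simp
    rwa [h4, zero_add] at h3
  let Sq : Set (G ⧸ U) := {w | w ≠ 0 ∧ (w ∈ Bq ∨ (-w ∉ Bq ∧ e w < e (-w)))}
  have hSq : ∀ w : G ⧸ U, w ≠ 0 → (w ∈ Sq ↔ -w ∉ Sq) := by
    intro w hw
    have hw' : -w ≠ 0 := neg_ne_zero.mpr hw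
    have he : e w ≠ e (-w) := fun h => hneg w hw (e.injective h).symm
    simp only [Sq, Set.mem_setOf_eq, neg_neg, not_and, not_or, hw, hw', ne_eq, not_false_eq_true,
      true_and, forall_const]
    constructor
    · rintro (h | ⟨h, h'⟩)
      · exact ⟨hBq w h, fun hh => absurd h hh⟩
      · exact ⟨h, fun _ => not_lt.mpr h'.le⟩
    · rintro ⟨h, h'⟩
      by_cases hwB : w ∈ Bq
      · exact Or.inl hwB
      · exact Or.inr ⟨h, lt_of_le_of_ne (not_lt.mp (h' hwB)) he⟩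
  refine ⟨{g | (g : G ⧸ U) ∈ Sq}, ?_, ?_, ?_, ?_⟩
  · intro g hg
    have : (g : G ⧸ U) ≠ 0 := fun h => hg ((QuotientAddGroup.eq_zero_iff _).mp h)
    simpa using hSq _ this
  · intro g hg hgU
    exact hg.1 ((QuotientAddGroup.eq_zero_iff _).mpr hgU)
  · intro g hg u hu
    have : ((g + u : G) : G ⧸ U) = (g : G ⧸ U) := by
      rw [QuotientAddGroup.mk_add, (QuotientAddGroup.eq_zero_iff _).mpr hu, add_zero]
    simpa [this] using hg
  · intro g hg
    have hgB : (g : G ⧸ U) ∈ Bq := ⟨g, hg, rfl⟩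
    refine ⟨fun h => ?_, Or.inl hgB⟩
    apply hBq _ hgB
    rw [h] at hgB ⊢
    simpa using hgB

end Pool.Agent.Helper28.Goss
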