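import Pool.Agent.Helper28.GossT
import Pool.Agent.Helper28.GossAbstract

namespace Pool.Agent.Helper28.Goss
open Polynomial

noncomputable section

theorem of_injective : Function.Injective (AdjoinRoot.of g0) := by
  apply AdjoinRoot.of.injective_of_degree_ne_zero
  rw [degree_eq_natDegree g0_monic.ne_zero, g0_natDegree]
  norm_num

/-- `P0` as an element of `T`. -/
def pT : T := AdjoinRoot.of g0 (toR0 P0)

theorem pT_ne_zero : pT ≠ 0 := by
  intro h
  have h1 : toR0 P0 = 0 := of_injective (by rw [map_zero]; exact h)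
  have h2 : P0 = 0 := toR0_injective (by rw [map_zero]; exact h1)
  exact P0_monic.ne_zero h2

theorem maximalIdeal_T' : IsLocalRing.maximalIdeal T = Ideal.span {pT} := maximalIdeal_T

theorem T_not_isField : ¬ IsField T := by
  rw [IsLocalRing.isField_iff_maximalIdeal_eq, maximalIdeal_T', Ideal.span_singleton_eq_bot]
  exact pT_ne_zero

instance : IsDiscreteValuationRing T := by
  have h : (IsLocalRing.maximalIdeal T).IsPrincipal := by
    rw [maximalIdeal_T']; exact ⟨pT, rfl⟩
  exact ((IsDiscreteValuationRing.TFAE T T_not_isField).out 4 0).mp h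

/-- The function field. -/
abbrev KK : Type := FractionRing T

theorem pT_irreducible : Irreducible pT := by
  rw [IsDiscreteValuationRing.irreducible_iff_uniformizer]
  exact maximalIdeal_T'

/-- The embedding of `T` into its fraction field. -/
abbrev iT : T →+* KK := algebraMap T KK

theorem iT_injective : Function.Injective iT := IsFractionRing.injective T KK

/-- The uniformiser. -/
def piK : KK := iT pT

theorem piK_ne_zero : piK ≠ 0 := by
  intro h
  exact pT_ne_zero (iT_injective (by rw [map_zero]; exact h))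

theorem repr_K (x : KK) (hx : x ≠ 0) : ∃ n : ℤ, ∃ u : Tˣ, x = piK ^ n * iT u := by
  obtain ⟨a, b, hb, rfl⟩ := IsFractionRing.div_surjective (A := T) x
  have hb0 : b ≠ 0 := nonZeroDivisors.ne_zero hb
  have ha0 : a ≠ 0 := by
    rintro rfl; apply hx; simp
  obtain ⟨n, u, hu⟩ := IsDiscreteValuationRing.eq_unit_mul_pow_irreducible ha0 pT_irreducible
  obtain ⟨m, v, hv⟩ := IsDiscreteValuationRing.eq_unit_mul_pow_irreducible hb0 pT_irreducible
  refine ⟨(n : ℤ) - m, u * v⁻¹, ?_⟩
  have hvinv : iT (v : T) * iT ((v⁻¹ : Tˣ) : T) = 1 := by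
    rw [← map_mul, Units.mul_inv, map_one]
  have hv0 : iT (v : T) ≠ 0 := left_ne_zero_of_mul_eq_one hvinv
  have hp := piK_ne_zero
  rw [hu, hv, zpow_sub₀ hp, zpow_natCast, zpow_natCast]
  simp only [map_mul, map_pow, Units.val_mul]
  change iT ↑u * piK ^ n / (iT ↑v * piK ^ m) = _
  have : iT ((v⁻¹ : Tˣ) : T) = (iT (v : T))⁻¹ := eq_inv_of_mul_eq_one_right hvinv
  rw [this]
  field_simp

/-- The valuation ring of the place at infinity. -/
def Oinf : ValuationSubring KK where
  toSubring := iT.range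
  mem_or_inv_mem' := by
    intro x
    by_cases hx : x = 0
    · left; rw [hx]; exact ⟨0, map_zero _⟩
    obtain ⟨n, u, hu⟩ := repr_K x hx
    rcases le_total 0 n with hn | hn
    · left
      obtain ⟨k, rfl⟩ := Int.eq_ofNat_of_zero_le hn
      refine ⟨pT ^ k * u, ?_⟩
      rw [hu, map_mul, map_pow]; simp [piK]
    · right
      obtain ⟨k, rfl⟩ : ∃ k : ℕ, n = -(k : ℤ) := ⟨(-n).toNat, by omega⟩
      refine ⟨pT ^ k * (u⁻¹ : Tˣ), ?_⟩
      have hvinv : iT (u : T) * iT ((u⁻¹ : Tˣ) : T) = 1 := by
        rw [← map_mul, Units.mul_inv, map_one]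
      have : iT ((u⁻¹ : Tˣ) : T) = (iT (u : T))⁻¹ := eq_inv_of_mul_eq_one_right hvinv
      rw [hu, map_mul, map_pow, this, mul_inv, zpow_neg, inv_inv, zpow_natCast]
      rfl

theorem mem_Oinf {x : KK} : x ∈ Oinf ↔ ∃ y : T, iT y = x := Iff.rfl

end

end Pool.Agent.Helper28.Goss
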