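import Pool.Agent.Helper28.GossLevels
import Pool.Agent.Helper28.GossHalf

namespace Pool.Agent.Helper28.Goss

variable {K : Type} [Field K] [Algebra (ZMod 3) K] {P : Place (ZMod 3) K} {π : K}

/-- Sum of `17`-th powers over the coset `x + F_3`. -/
def f17 {R : Type*} [CommRing R] (x : R) : R := x ^ 17 + (x + 1) ^ 17 + (x - 1) ^ 17

theorem charP3 (K : Type) [Field K] [Algebra (ZMod 3) K] : CharP K 3 :=
  charP_of_injective_algebraMap (algebraMap (ZMod 3) K).injective 3

theorem three_eq_zero (K : Type) [Field K] [Algebra (ZMod 3) K] : (3 : K) = 0 := by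
  have := charP3 K
  exact_mod_cast CharP.cast_eq_zero K 3

theorem zmod3_cases (c : ZMod 3) : c = 0 ∨ c = 1 ∨ c = -1 := by
  revert c; decide

/-- the additive group `L(∞)` -/
def lam (P : Place (ZMod 3) K) (π : K) : AddSubgroup K where
  carrier := lvl P π 1
  zero_mem' := ⟨P.regularAway.zero_mem, by simpa using P.ring.zero_mem⟩
  add_mem' := by
    rintro a b ⟨ha, ha'⟩ ⟨hb, hb'⟩
    exact ⟨P.regularAway.add_mem ha hb, by rw [mul_add]; exact P.ring.add_mem _ _ ha' hb'⟩
  neg_mem' := by
    rintro a ⟨ha, ha'⟩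
    exact ⟨P.regularAway.neg_mem ha, by rw [mul_neg]; exact P.ring.neg_mem _ ha'⟩

theorem mem_lam {a : K} : a ∈ lam P π ↔ a ∈ P.regularAway ∧ π * a ∈ P.ring := by
  change a ∈ lvl P π 1 ↔ _
  simp [lvl]

/-- leading coefficient map -/
noncomputable def rho (P : Place (ZMod 3) K) (π : K) (a : K) : P.ResidueField := res P (π * a)

theorem rho_add {a b : K} (ha : a ∈ lam P π) (hb : b ∈ lam P π) :
    rho P π (a + b) = rho P π a + rho P π b := by
  rw [rho, mul_add, res_add (mem_lam.mp ha).2 (mem_lam.mp hb).2]; rfl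

theorem rho_neg {a : K} (ha : a ∈ lam P π) : rho P π (-a) = - rho P π a := by
  rw [rho, mul_neg, res_neg (mem_lam.mp ha).2]; rfl

theorem rho_sub {a b : K} (ha : a ∈ lam P π) (hb : b ∈ lam P π) :
    rho P π (a - b) = rho P π a - rho P π b := by
  rw [sub_eq_add_neg, rho_add ha ((lam P π).neg_mem hb), rho_neg hb, sub_eq_add_neg]

theorem const_mem_lam (h : IsUnif P π) (c : ZMod 3) : algebraMap (ZMod 3) K c ∈ lam P π :=
  mem_lam.mpr ⟨const_mem_regularAway P c, P.ring.mul_mem _ _ h.mem (P.algebraMap_mem c)⟩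

theorem one_mem_lam (h : IsUnif P π) : (1 : K) ∈ lam P π := by
  simpa using const_mem_lam h 1

theorem rho_const (h : IsUnif P π) (c : ZMod 3) : rho P π (algebraMap (ZMod 3) K c) = 0 :=
  res_unif_mul h (P.algebraMap_mem c)

theorem rho_one (h : IsUnif P π) : rho P π (1 : K) = 0 := by
  simpa using rho_const h 1

theorem rho_eq_zero (hc : IsFullConstantField (ZMod 3) K) (h : IsUnif P π) {a : K}
    (ha : a ∈ lam P π) (h0 : rho P π a = 0) : ∃ c : ZMod 3, algebraMap (ZMod 3) K c = a := by
  obtain ⟨y, hy, e⟩ := (res_eq_zero_iff h (mem_lam.mp ha).2).mp h0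
  have : a = y := mul_left_cancel₀ h.ne_zero e
  exact const_of_mem hc P (mem_lam.mp ha).1 (this ▸ hy)

theorem alg_neg_one : algebraMap (ZMod 3) K (-1) = -1 := by simp

theorem rho_fiber (hc : IsFullConstantField (ZMod 3) K) (h : IsUnif P π) {a x : K}
    (hx : x ∈ lam P π) :
    (a ∈ lam P π ∧ rho P π a = rho P π x) ↔ (a = x ∨ a = x + 1 ∨ a = x - 1) := by
  constructor
  · rintro ⟨ha, e⟩
    obtain ⟨c, hc⟩ := rho_eq_zero hc h ((lam P π).sub_mem ha hx)
      (by rw [rho_sub ha hx, e, sub_self])
    rcases zmod3_cases c with rfl | rfl | rfl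
    · left; rw [map_zero] at hc; exact (sub_eq_zero.mp hc.symm)
    · right; left; rw [map_one] at hc; rw [hc]; ring
    · right; right; rw [alg_neg_one] at hc; linear_combination -hc
  · rintro (rfl | rfl | rfl)
    · exact ⟨hx, rfl⟩
    · exact ⟨(lam P π).add_mem hx (one_mem_lam h), by
        rw [rho_add hx (one_mem_lam h), rho_one h, add_zero]⟩
    · exact ⟨(lam P π).sub_mem hx (one_mem_lam h), by
        rw [rho_sub hx (one_mem_lam h), rho_one h, sub_zero]⟩

section main

open Classical in
/-- The sum of the `17`-th powers of the elements of `L(∞)` with leading coefficient in `C`. -/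
noncomputable def tsum (P : Place (ZMod 3) K) (π : K) (hfin : (lvl P π 1).Finite)
    (C : Set P.ResidueField) : K :=
  ∑ a ∈ hfin.toFinset, if rho P π a ∈ C then a ^ 17 else 0

theorem mem_fin {hfin : (lvl P π 1).Finite} {a : K} : a ∈ hfin.toFinset ↔ a ∈ lam P π := by
  rw [Set.Finite.mem_toFinset]; rfl

open Classical in
theorem tsum_image (hc : IsFullConstantField (ZMod 3) K) (h : IsUnif P π)
    (hfin : (lvl P π 1).Finite) (X : Finset K) (hX : ∀ x ∈ X, x ∈ lam P π)
    (hinj : ∀ x ∈ X, ∀ y ∈ X, rho P π x = rho P π y → x = y) :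
    tsum P π hfin (rho P π '' (X : Set K)) = ∑ x ∈ X, f17 x := by
  have h1 : ∀ a ∈ hfin.toFinset, (if rho P π a ∈ rho P π '' (X : Set K) then a ^ 17 else 0) =
      ∑ x ∈ X, if rho P π a = rho P π x then a ^ 17 else 0 := by
    intro a _
    by_cases ha : rho P π a ∈ rho P π '' (X : Set K)
    · obtain ⟨x, hx, e⟩ := ha
      rw [if_pos ⟨x, hx, e⟩, Finset.sum_eq_single x]
      · rw [if_pos e.symm]
      · intro y hy hne
        rw [if_neg]
        intro e'
        exact hne (hinj y hy x hx (by rw [← e', e]))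
      · intro hx'; exact absurd hx hx'
    · rw [if_neg ha, Finset.sum_eq_zero]
      intro x hx
      rw [if_neg]
      intro e
      exact ha ⟨x, hx, e.symm⟩
  rw [tsum, Finset.sum_congr rfl h1, Finset.sum_comm]
  refine Finset.sum_congr rfl ?_
  intro x hx
  rw [← Finset.sum_filter]
  have h3 := three_eq_zero K
  have h10 : (1 : K) ≠ 0 := one_ne_zero
  have e1 : x ≠ x + 1 := by intro e; apply h10; linear_combination -e
  have e2 : x ≠ x - 1 := by intro e; apply h10; linear_combination e
  have e3 : x + 1 ≠ x - 1 := by intro e; apply h10; linear_combination h3 - e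
  have : (hfin.toFinset.filter fun a => rho P π a = rho P π x) = {x, x + 1, x - 1} := by
    ext a
    rw [Finset.mem_filter, mem_fin, rho_fiber hc h (hX x hx)]
    simp
  rw [this, Finset.sum_insert (by simp [e2]), Finset.sum_insert (by simpa using e3),
    Finset.sum_singleton, f17]
  ring

end main

end Pool.Agent.Helper28.Goss
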