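import Pool.Agent.Helper28.GossUnif

namespace Pool.Agent.Helper28.Goss

variable {F K : Type} [Field F] [Field K] [Algebra F K]

theorem mem_regularAway {P : Place F K} {x : K} :
    x ∈ P.regularAway ↔ ∀ Q : Place F K, Q ≠ P → x ∈ Q.ring := by
  simp [Place.regularAway, Subring.mem_iInf]

theorem const_of_mem (hc : IsFullConstantField F K) (P : Place F K) {x : K}
    (hx : x ∈ P.regularAway) (hx' : x ∈ P.ring) : ∃ c : F, algebraMap F K c = x := by
  by_contra hne
  have hR : IsIntegrallyClosedIn (algebraMap F K).range K := by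
    rw [Subring.isIntegrallyClosedIn_iff]
    intro y hy
    obtain ⟨c, hc⟩ := hc y (by
      refine IsIntegral.isAlgebraic ?_
      obtain ⟨p, hp, hpy⟩ := hy
      obtain ⟨q, hq, hq1, hq2⟩ := Polynomial.lifts_and_natDegree_eq_and_monic
        (f := (algebraMap F K).rangeRestrict) (p := p) (by
        rw [Polynomial.lifts_iff_coeff_lifts]
        intro n
        exact (algebraMap F K).rangeRestrict_surjective _) hp
      refine ⟨q, hq2, ?_⟩
      rw [← hq, Polynomial.eval₂_map] at hpy
      exact hpy)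
    exact ⟨c, hc⟩
  have hxR : x ∉ (algebraMap F K).range := by
    rintro ⟨c, hc⟩
    exact hne ⟨c, hc⟩
  obtain ⟨V, hV, hxV⟩ := Subring.exists_le_valuationSubring_of_isIntegrallyClosedIn hxR
  let Q : Place F K := ⟨V, fun c => hV ⟨c, rfl⟩, fun h => hxV (h ▸ ValuationSubring.mem_top x)⟩
  by_cases hQ : Q = P
  · exact hxV (show x ∈ Q.ring by rw [hQ]; exact hx')
  · exact hxV (mem_regularAway.mp hx Q hQ)

theorem const_mem_regularAway (P : Place F K) (c : F) : algebraMap F K c ∈ P.regularAway :=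
  mem_regularAway.mpr fun Q _ => Q.algebraMap_mem c

open Classical in
/-- Reduction at `P`, extended by zero. -/
noncomputable def res (P : Place F K) (x : K) : P.ResidueField :=
  if h : x ∈ P.ring then IsLocalRing.residue P.ring ⟨x, h⟩ else 0

section res

variable {P : Place F K} {x y : K}

theorem res_of_mem (h : x ∈ P.ring) : res P x = IsLocalRing.residue P.ring ⟨x, h⟩ := by
  simp [res, h]

theorem res_coe (x : P.ring) : res P (x : K) = IsLocalRing.residue P.ring x := by
  rw [res_of_mem x.2]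

theorem res_add (hx : x ∈ P.ring) (hy : y ∈ P.ring) : res P (x + y) = res P x + res P y := by
  rw [res_of_mem hx, res_of_mem hy, res_of_mem (P.ring.add_mem _ _ hx hy), ← map_add]
  rfl

theorem res_mul (hx : x ∈ P.ring) (hy : y ∈ P.ring) : res P (x * y) = res P x * res P y := by
  rw [res_of_mem hx, res_of_mem hy, res_of_mem (P.ring.mul_mem _ _ hx hy), ← map_mul]
  rfl

theorem res_neg (hx : x ∈ P.ring) : res P (-x) = -res P x := by
  rw [res_of_mem hx, res_of_mem (P.ring.neg_mem _ hx), ← map_neg]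
  rfl

theorem res_sub (hx : x ∈ P.ring) (hy : y ∈ P.ring) : res P (x - y) = res P x - res P y := by
  rw [sub_eq_add_neg, res_add hx (P.ring.neg_mem _ hy), res_neg hy, sub_eq_add_neg]

theorem res_algebraMap (c : F) : res P (algebraMap F K c) = algebraMap F P.ResidueField c := by
  rw [res_of_mem (P.algebraMap_mem c)]
  rfl

theorem res_zero : res P (0 : K) = 0 := by
  have := res_algebraMap (P := P) (0 : F)
  simpa using this

theorem res_one : res P (1 : K) = 1 := by
  have := res_algebraMap (P := P) (1 : F)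
  simpa using this

theorem exists_unit_of_res_ne_zero (hx : x ∈ P.ring) (h : res P x ≠ 0) :
    ∃ u : (P.ring)ˣ, ((u : P.ring) : K) = x := by
  rw [res_of_mem hx, Ne, IsLocalRing.residue_eq_zero_iff, IsLocalRing.mem_maximalIdeal,
    mem_nonunits_iff, not_not] at h
  obtain ⟨u, hu⟩ := h
  exact ⟨u, by rw [hu]⟩

theorem res_unit_ne_zero (u : (P.ring)ˣ) : res P ((u : P.ring) : K) ≠ 0 := by
  rw [res_coe, Ne, IsLocalRing.residue_eq_zero_iff, IsLocalRing.mem_maximalIdeal,
    mem_nonunits_iff, not_not]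
  exact u.isUnit

theorem res_eq_zero_iff {π : K} (h : IsUnif P π) (hx : x ∈ P.ring) :
    res P x = 0 ↔ ∃ y ∈ P.ring, x = π * y := by
  obtain ⟨h1, h2⟩ := h.max
  rw [res_of_mem hx, IsLocalRing.residue_eq_zero_iff, h2, Ideal.mem_span_singleton]
  constructor
  · rintro ⟨y, hy⟩
    exact ⟨y, y.2, congrArg Subtype.val hy⟩
  · rintro ⟨y, hy, e⟩
    exact ⟨⟨y, hy⟩, Subtype.ext e⟩

theorem res_unif_mul {π : K} (h : IsUnif P π) (hx : x ∈ P.ring) : res P (π * x) = 0 :=
  (res_eq_zero_iff h (P.ring.mul_mem _ _ h.mem hx)).mpr ⟨x, hx, rfl⟩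

end res

/-- The space `L(m∞)`. -/
def lvl (P : Place F K) (π : K) (m : ℕ) : Set K := {a | a ∈ P.regularAway ∧ π ^ m * a ∈ P.ring}

variable {P : Place F K} {π : K}

theorem lvl_finite [Finite F] (hc : IsFullConstantField F K) (h : IsUnif P π)
    [Finite P.ResidueField] (m : ℕ) : (lvl P π m).Finite := by
  induction m with
  | zero =>
    refine (Set.finite_range (algebraMap F K)).subset ?_
    rintro a ⟨ha, ha'⟩
    obtain ⟨c, hc⟩ := const_of_mem hc P ha (by simpa using ha')
    exact ⟨c, hc⟩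
  | succ m ih =>
    refine Set.Finite.of_finite_fibers (fun a => res P (π ^ (m + 1) * a)) (Set.toFinite _) ?_
    rintro _ ⟨a, ha, rfl⟩
    refine (ih.image (fun b => a + b)).subset ?_
    rintro b ⟨hb, hb'⟩
    refine ⟨b - a, ⟨P.regularAway.sub_mem hb.1 ha.1, ?_⟩, by ring⟩
    have h1 : res P (π ^ (m + 1) * (b - a)) = 0 := by
      rw [mul_sub, res_sub hb.2 ha.2, sub_eq_zero]
      exact hb'
    have h2 : π ^ (m + 1) * (b - a) ∈ P.ring := by
      rw [mul_sub]; exact sub_mem hb.2 ha.2
    obtain ⟨y, hy, e⟩ := (res_eq_zero_iff h h2).mp h1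
    have h3 : π ^ m * (b - a) = y := by
      apply mul_left_cancel₀ h.ne_zero
      rw [← e]; ring
    rw [h3]; exact hy

/-- Positive elements of pole order `m`, described through the uniformiser. -/
def lvlPos (P : Place F K) (π : K) (S : Set (P.ResidueField)ˣ) (m : ℕ) : Set K :=
  {a | a ∈ lvl P π m ∧ ∃ s ∈ S, (s : P.ResidueField) = res P (π ^ m * a)}

theorem degree_pos [Finite F] [Finite P.ResidueField] : 0 < P.degree := by
  have : Module.Finite F P.ResidueField := Module.Finite.of_finite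
  exact Module.finrank_pos

theorem mem_positive_iff [Finite F] [Finite P.ResidueField] (h : IsUnif P π) (S : Set (P.ResidueField)ˣ)
    (i : ℕ) (a : K) :
    a ∈ positiveK P h.sgn S i ↔ ∃ m : ℕ, i = P.degree * m ∧ a ∈ lvlPos P π S m := by
  have hd : 0 < P.degree := degree_pos
  constructor
  · rintro ⟨hA, ⟨n, hn, hi⟩, hne, hs⟩
    obtain ⟨u, hu⟩ := h.hasOrd_iff.mp hn
    have hn0 : n ≤ 0 := by
      have : 0 ≤ -((P.degree : ℤ) * n) := by rw [← hi]; positivity
      have hd' : (0 : ℤ) < P.degree := by exact_mod_cast hd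
      nlinarith
    obtain ⟨m, rfl⟩ : ∃ m : ℕ, n = -(m : ℤ) := ⟨(-n).toNat, by omega⟩
    have e : π ^ m * a = ((u : P.ring) : K) := by
      rw [hu, zpow_neg, zpow_natCast, ← mul_assoc, mul_inv_cancel₀ (pow_ne_zero _ h.ne_zero),
        one_mul]
    refine ⟨m, by have : (i : ℤ) = P.degree * m := by rw [hi]; ring
                  exact_mod_cast this, ⟨hA, ?_⟩, _, hs, ?_⟩
    · rw [e]; exact (u : P.ring).2
    · rw [h.sgn_eq (Units.mk0 a hne) (n := -(m : ℤ)) (u := u) hu, e, res_coe]
  · rintro ⟨m, rfl, ⟨hA, hm⟩, s, hs, hsa⟩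
    have h0 : res P (π ^ m * a) ≠ 0 := by rw [← hsa]; exact s.ne_zero
    obtain ⟨u, hu⟩ := exists_unit_of_res_ne_zero hm h0
    have hu' : a = π ^ (-(m : ℤ)) * ((u : P.ring) : K) := by
      rw [hu, zpow_neg, zpow_natCast, ← mul_assoc, inv_mul_cancel₀ (pow_ne_zero _ h.ne_zero),
        one_mul]
    have hne : a ≠ 0 := by
      rintro rfl
      rw [mul_zero, res_zero] at h0
      exact h0 rfl
    refine ⟨hA, ⟨-(m : ℤ), h.hasOrd_iff.mpr ⟨u, hu'⟩, by push_cast; ring⟩, hne, ?_⟩
    have : h.sgn.toHom (Units.mk0 a hne) = s := by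
      ext
      rw [h.sgn_eq (Units.mk0 a hne) (n := -(m : ℤ)) (u := u) hu', hsa, ← hu, res_coe]
    rw [this]; exact hs

theorem positive_mul [Finite F] [Finite P.ResidueField] (h : IsUnif P π) (S : Set (P.ResidueField)ˣ) (m : ℕ) :
    positiveK P h.sgn S (P.degree * m) = lvlPos P π S m := by
  ext a
  rw [mem_positive_iff h]
  constructor
  · rintro ⟨m', h1, h2⟩
    have := Nat.eq_of_mul_eq_mul_left degree_pos h1
    rwa [this]
  · intro h1
    exact ⟨m, rfl, h1⟩

theorem positive_of_not_dvd [Finite F] [Finite P.ResidueField] (h : IsUnif P π) (S : Set (P.ResidueField)ˣ) {i : ℕ} (hi : ¬ P.degree ∣ i) :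
    positiveK P h.sgn S i = ∅ := by
  ext a
  rw [mem_positive_iff h]
  simp only [Set.mem_empty_iff_false, iff_false]
  rintro ⟨m, h1, h2⟩
  exact hi ⟨m, h1⟩

/-- Reduction of the zeta value to levels `0` and `1`. -/
theorem isZetaValue_of_levels [Finite F] [Finite P.ResidueField] (hc : IsFullConstantField F K)
    (h : IsUnif P π) (S : Set (P.ResidueField)ˣ) (k : ℕ)
    (h2 : ∀ m, 2 ≤ m → ∑ᶠ a ∈ lvlPos P π S m, a ^ k = 0)
    (h01 : ∑ᶠ a ∈ lvlPos P π S 0, a ^ k + ∑ᶠ a ∈ lvlPos P π S 1, a ^ k = 0) :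
    IsZetaValueK P h.sgn S k 0 := by
  have hd : 0 < P.degree := degree_pos
  refine ⟨fun i => ?_, P.degree + 1, ?_, ?_⟩
  · by_cases hi : P.degree ∣ i
    · obtain ⟨m, rfl⟩ := hi
      rw [positive_mul h]
      exact (lvl_finite hc h m).subset fun a ha => ha.1
    · rw [positive_of_not_dvd h S hi]; exact Set.finite_empty
  · intro i hi
    by_cases hi' : P.degree ∣ i
    · obtain ⟨m, rfl⟩ := hi'
      rw [positive_mul h]
      apply h2
      by_contra hm
      have : m ≤ 1 := by omega
      have := Nat.mul_le_mul_left P.degree this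
      omega
    · rw [positive_of_not_dvd h S hi']; simp
  · rw [Finset.sum_range_succ]
    obtain ⟨d, hd'⟩ : ∃ d, P.degree = d + 1 := ⟨P.degree - 1, by omega⟩
    have e1 : ∑ᶠ a ∈ positiveK P h.sgn S P.degree, a ^ k = ∑ᶠ a ∈ lvlPos P π S 1, a ^ k := by
      have := positive_mul h S 1
      rw [mul_one] at this
      rw [this]
    have e0 : ∑ i ∈ Finset.range P.degree, ∑ᶠ a ∈ positiveK P h.sgn S i, a ^ k =
        ∑ᶠ a ∈ lvlPos P π S 0, a ^ k := by
      rw [Finset.sum_eq_single 0]
      · have := positive_mul h S 0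
        rw [mul_zero] at this
        rw [this]
      · intro i hi hi0
        rw [positive_of_not_dvd h S]
        · simp
        · intro hdvd
          have := Nat.le_of_dvd (by omega) hdvd
          rw [Finset.mem_range] at hi
          omega
      · intro h0
        exact absurd (Finset.mem_range.mpr hd) h0
    rw [e0, e1, h01]

end Pool.Agent.Helper28.Goss
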