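import Mathlib

namespace Pool.Agent.Helper28.Goss
open Polynomial

/-- The prime of degree `5`. -/
noncomputable def P0 : (ZMod 3)[X] := X ^ 5 + X ^ 4 - 1
/-- The denominator of `f`. -/
noncomputable def Pp : (ZMod 3)[X] := X ^ 3 + X ^ 2 + X - 1
/-- The numerator of `f`. -/
noncomputable def Nn : (ZMod 3)[X] := X ^ 3 - X ^ 2 + 1

instance : Fact (Nat.Prime 3) := ⟨by norm_num⟩

theorem P0_natDegree : P0.natDegree = 5 := by
  unfold P0; compute_degree!

theorem P0_monic : P0.Monic := by
  unfold P0; monicity!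

theorem dec1 : ∀ a : ZMod 3, (-a) ^ 5 + (-a) ^ 4 - 1 ≠ 0 := by decide

theorem dec2 : ∀ a b c0 c1 c2 : ZMod 3, ¬ (c2 + a = 1 ∧ c1 + a * c2 + b = 0 ∧
    c0 + a * c1 + b * c2 = 0 ∧ a * c0 + b * c1 = 0 ∧ b * c0 = -1) := by decide

theorem coeff_lemma (a4 a3 a2 a1 a0 : ZMod 3)
    (e : X ^ 5 + C a4 * X ^ 4 + C a3 * X ^ 3 + C a2 * X ^ 2 + C a1 * X + C a0 =
      (X ^ 5 + X ^ 4 - 1 : (ZMod 3)[X])) :
    a4 = 1 ∧ a3 = 0 ∧ a2 = 0 ∧ a1 = 0 ∧ a0 = -1 := by
  have k4 := congrArg (fun p => coeff p 4) e
  have k3 := congrArg (fun p => coeff p 3) e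
  have k2 := congrArg (fun p => coeff p 2) e
  have k1 := congrArg (fun p => coeff p 1) e
  have k0 := congrArg (fun p => coeff p 0) e
  simp [coeff_X, coeff_one, coeff_C] at k4 k3 k2 k1 k0
  exact ⟨k4, k3, k2, k1, k0⟩

theorem P0_irreducible : Irreducible P0 := by
  rw [P0_monic.irreducible_iff_natDegree']
  refine ⟨fun h => ?_, ?_⟩
  · have := congrArg natDegree h
    rw [P0_natDegree] at this
    simp at this
  · intro f g hf hg hfg hmem
    rw [P0_natDegree] at hmem
    have hdeg : f.natDegree + g.natDegree = 5 := by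
      rw [← hf.natDegree_mul hg, hfg, P0_natDegree]
    have hg12 : g.natDegree = 1 ∨ g.natDegree = 2 := by
      rw [Finset.mem_Ioc] at hmem; omega
    rcases hg12 with h1 | h2
    · -- linear factor
      have hgX : g = X + C (g.coeff 0) := by
        have := hg.as_sum
        rw [h1] at this
        rw [this]; simp
      have h0 : P0.eval (-(g.coeff 0)) = 0 := by
        rw [← hfg, eval_mul]
        have : g.eval (-(g.coeff 0)) = 0 := by
          conv_lhs => rw [hgX]
          simp
        rw [this, mul_zero]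
      unfold P0 at h0
      simp only [eval_sub, eval_add, eval_pow, eval_X, eval_one] at h0
      exact dec1 _ h0
    · have hf3 : f.natDegree = 3 := by omega
      have hgX : g = X ^ 2 + C (g.coeff 1) * X + C (g.coeff 0) := by
        have := hg.as_sum
        rw [h2] at this
        conv_lhs => rw [this]
        simp [Finset.sum_range_succ]
        ring
      have hfX : f = X ^ 3 + C (f.coeff 2) * X ^ 2 + C (f.coeff 1) * X + C (f.coeff 0) := by
        have := hf.as_sum
        rw [hf3] at this
        conv_lhs => rw [this]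
        simp [Finset.sum_range_succ]
        ring
      set a := g.coeff 1
      set b := g.coeff 0
      set c0 := f.coeff 0
      set c1 := f.coeff 1
      set c2 := f.coeff 2
      have e : X ^ 5 + C (c2 + a) * X ^ 4 + C (c1 + a * c2 + b) * X ^ 3 +
          C (c0 + a * c1 + b * c2) * X ^ 2 + C (a * c0 + b * c1) * X + C (b * c0) = P0 := by
        rw [← hfg, hgX, hfX]
        simp only [map_add, map_mul]
        ring
      unfold P0 at e
      exact dec2 a b c0 c1 c2 (coeff_lemma _ _ _ _ _ e)

end Pool.Agent.Helper28.Goss
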