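import Pool.Agent.Helper28.GossK

namespace Pool.Agent.Helper28.Goss
open Polynomial

noncomputable section

theorem algMap_eq (c : ZMod 3) : algebraMap (ZMod 3) KK c = iT (AdjoinRoot.of g0 (toR0 (C c))) := by
  rfl

theorem piK_inv_not_mem : piK⁻¹ ∉ Oinf := by
  intro h
  obtain ⟨y, hy⟩ := mem_Oinf.mp h
  have h1 : iT (pT * y) = iT 1 := by
    rw [map_mul, hy, map_one]
    exact mul_inv_cancel₀ piK_ne_zero
  have h2 := iT_injective h1
  exact pT_irreducible.not_isUnit (IsUnit.of_mul_eq_one _ h2)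

/-- The place at infinity. -/
def Pinf : Place (ZMod 3) KK where
  ring := Oinf
  algebraMap_mem c := ⟨_, (algMap_eq c).symm⟩
  ne_top h := piK_inv_not_mem (h ▸ ValuationSubring.mem_top _)

/-- the ring isomorphism of `T` with the valuation ring. -/
def eO : T ≃+* Oinf := RingEquiv.ofBijective
  (iT.codRestrict Oinf.toSubring (fun y => ⟨y, rfl⟩))
  ⟨fun _ _ h => iT_injective (congrArg Subtype.val h), fun ⟨_, y, hy⟩ => ⟨y, Subtype.ext hy⟩⟩

theorem eO_coe (y : T) : ((eO y : Oinf) : KK) = iT y := rfl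

theorem isUnif : IsUnif Pinf piK where
  ne_zero := piK_ne_zero
  max := by
    have hmem : piK ∈ Oinf := ⟨pT, rfl⟩
    refine ⟨hmem, ?_⟩
    have h1 : IsLocalRing.maximalIdeal Oinf = (IsLocalRing.maximalIdeal T).map (eO : T →+* Oinf) := by
      symm
      apply IsLocalRing.eq_maximalIdeal
      exact Ideal.map_isMaximal_of_equiv eO
    change IsLocalRing.maximalIdeal Oinf = _
    rw [h1, maximalIdeal_T', Ideal.map_span, Set.image_singleton]
    rfl
  repr := by
    intro x hx
    obtain ⟨n, u, hu⟩ := repr_K x hx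
    exact ⟨n, Units.map (eO : T →* Oinf) u, hu⟩

theorem finite_k0 : Finite k0 := by
  have e : ((ZMod 3)[X] ⧸ pI) ≃+* k0 := IsLocalization.AtPrime.equivQuotMaximalIdeal pI R0
  have hirr : Fact (Irreducible P0) := ⟨P0_irreducible⟩
  have hf : Module.Finite (ZMod 3) (AdjoinRoot P0) := (AdjoinRoot.powerBasis P0_monic.ne_zero).finite
  have hF : Finite (AdjoinRoot P0) := Module.finite_of_finite (ZMod 3)
  have hF' : Finite ((ZMod 3)[X] ⧸ pI) := hF
  exact Finite.of_equiv _ e.toEquiv

theorem finite_TmT : Finite (T ⧸ mT) := by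
  have := finite_k0
  have e := AdjoinRoot.quotAdjoinRootEquivQuotPolynomialQuot (IsLocalRing.maximalIdeal R0) g0
  have hf : Module.Finite k0 (AdjoinRoot (g0.map q0)) := (g0_monic.map q0).finite_adjoinRoot
  have hF : Finite (AdjoinRoot (g0.map q0)) := Module.finite_of_finite k0
  have hF' : Finite (k0[X] ⧸ Ideal.span ({g0.map q0} : Set k0[X])) := hF
  rw [mT_eq]
  exact Finite.of_equiv _ e.symm.toEquiv

instance : Finite Pinf.ResidueField := by
  have := finite_TmT
  let φ : T →+* Pinf.ResidueField := (IsLocalRing.residue Oinf).comp (eO : T →+* Oinf)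
  have hφ : Function.Surjective φ := by
    intro z
    obtain ⟨w, rfl⟩ := IsLocalRing.residue_surjective z
    refine ⟨eO.symm w, ?_⟩
    exact congrArg (IsLocalRing.residue Oinf) (eO.apply_symm_apply w)
  have hker : mT ≤ RingHom.ker φ := by
    have h1 : (RingHom.ker φ).IsMaximal := RingHom.ker_isMaximal_of_surjective φ hφ
    rw [eq_mT _ h1]
  exact Finite.of_surjective (Ideal.Quotient.lift mT φ hker)
    (Ideal.Quotient.lift_surjective_of_surjective mT hker hφ)

end

end Pool.Agent.Helper28.Goss
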