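import Pool.Agent.Helper28.GossP0

namespace Pool.Agent.Helper28.Goss
open Polynomial

noncomputable section

/-- The prime ideal of `F_3[t]` generated by `P0`. -/
def pI : Ideal (ZMod 3)[X] := Ideal.span {P0}

theorem pI_ne_bot : pI ≠ ⊥ := by
  unfold pI
  rw [Ne, Ideal.span_singleton_eq_bot]
  exact P0_monic.ne_zero

instance pI_prime : pI.IsPrime :=
  (Ideal.span_singleton_prime P0_monic.ne_zero).mpr P0_irreducible.prime

instance pI_maximal : pI.IsMaximal := pI_prime.isMaximal pI_ne_bot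

/-- The local ring of `F_3[t]` at `P0`. -/
abbrev R0 : Type := Localization.AtPrime pI

instance : IsDiscreteValuationRing R0 :=
  IsLocalization.AtPrime.isDiscreteValuationRing_of_dedekind_domain (ZMod 3)[X] pI_ne_bot R0

/-- The embedding of polynomials. -/
abbrev toR0 : (ZMod 3)[X] →+* R0 := algebraMap (ZMod 3)[X] R0

theorem toR0_injective : Function.Injective toR0 :=
  IsLocalization.injective R0 pI.primeCompl_le_nonZeroDivisors

theorem mem_pI {p : (ZMod 3)[X]} : p ∈ pI ↔ P0 ∣ p := Ideal.mem_span_singleton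

theorem maximalIdeal_R0 : IsLocalRing.maximalIdeal R0 = Ideal.span {toR0 P0} := by
  rw [← Localization.AtPrime.map_eq_maximalIdeal]
  change Ideal.map toR0 (Ideal.span {P0}) = _
  rw [Ideal.map_span, Set.image_singleton]

theorem Pp_not_mem : Pp ∉ pI := by
  rw [mem_pI]
  intro h
  have hne : Pp ≠ 0 := by
    have : Pp.Monic := by unfold Pp; monicity!
    exact this.ne_zero
  have h1 := natDegree_le_of_dvd h hne
  rw [P0_natDegree] at h1
  have h2 : Pp.natDegree = 3 := by unfold Pp; compute_degree!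
  omega

theorem isUnit_Pp : IsUnit (toR0 Pp) :=
  IsLocalization.map_units R0 (⟨Pp, Pp_not_mem⟩ : pI.primeCompl)

/-- The element `f = N / P` of the Artin-Schreier equation. -/
def f0 : R0 := IsLocalization.mk' R0 Nn (⟨Pp, Pp_not_mem⟩ : pI.primeCompl)

theorem f0_spec : f0 * toR0 Pp = toR0 Nn :=
  IsLocalization.mk'_spec R0 Nn (⟨Pp, Pp_not_mem⟩ : pI.primeCompl)

theorem P0_eq : P0 = X ^ 2 * Pp - Nn := by
  unfold P0 Pp Nn; ring

theorem three_zero_poly : (3 : (ZMod 3)[X]) = 0 := by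
  have : ((3 : ℕ) : (ZMod 3)[X]) = 0 := CharP.cast_eq_zero _ 3
  exact_mod_cast this

/-- The residue field of `R0`. -/
abbrev k0 : Type := R0 ⧸ IsLocalRing.maximalIdeal R0

instance : Field k0 := Ideal.Quotient.field _

/-- Reduction. -/
abbrev q0 : R0 →+* k0 := Ideal.Quotient.mk (IsLocalRing.maximalIdeal R0)

/-- The class of `t`. -/
def tau : k0 := q0 (toR0 X)

theorem three_zero_k0 : (3 : k0) = 0 := by
  have h := map_ofNat (q0.comp toR0) 3
  rw [three_zero_poly, map_zero] at h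
  exact h.symm

instance : CharP k0 3 :=
  charP_of_injective_ringHom (f := (q0.comp toR0).comp (C : ZMod 3 →+* (ZMod 3)[X]))
    (RingHom.injective _) 3

theorem q0_P0 : q0 (toR0 P0) = 0 := by
  rw [Ideal.Quotient.eq_zero_iff_mem, maximalIdeal_R0]
  exact Ideal.mem_span_singleton_self _

theorem tau_spec : tau ^ 5 + tau ^ 4 - 1 = 0 := by
  have := q0_P0
  unfold P0 at this
  simpa [tau] using this

theorem q0_f0 : q0 f0 = tau ^ 2 := by
  have h1 : f0 * toR0 Pp = toR0 X ^ 2 * toR0 Pp - toR0 P0 := by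
    rw [f0_spec, P0_eq]; simp
  have h2 : (q0 f0 - tau ^ 2) * q0 (toR0 Pp) = 0 := by
    have := congrArg q0 h1
    rw [map_mul, map_sub, map_mul, map_pow, q0_P0] at this
    rw [tau]
    linear_combination this
  have h3 : q0 (toR0 Pp) ≠ 0 := (isUnit_Pp.map q0).ne_zero
  exact sub_eq_zero.mp ((mul_eq_zero.mp h2).resolve_right h3)

theorem k0_pow (x : k0) : x ^ 243 = x := by
  have e : ((ZMod 3)[X] ⧸ pI) ≃+* k0 := IsLocalization.AtPrime.equivQuotMaximalIdeal pI R0
  have hirr : Fact (Irreducible P0) := ⟨P0_irreducible⟩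
  let pb := AdjoinRoot.powerBasis P0_monic.ne_zero
  have hfin : Module.finrank (ZMod 3) (AdjoinRoot P0) = 5 := by
    rw [pb.finrank, AdjoinRoot.powerBasis_dim, P0_natDegree]
  have hf : Module.Finite (ZMod 3) (AdjoinRoot P0) := pb.finite
  have hF : Finite (AdjoinRoot P0) := Module.finite_of_finite (ZMod 3)
  have hcard : Nat.card (AdjoinRoot P0) = 243 := by
    rw [Module.natCard_eq_pow_finrank (K := ZMod 3), hfin]; simp
  have key : ∀ y : AdjoinRoot P0, y ^ 243 = y := by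
    intro y
    have := Fintype.ofFinite (AdjoinRoot P0)
    have h1 := FiniteField.pow_card y
    rwa [← Nat.card_eq_fintype_card, hcard] at h1
  obtain ⟨y, rfl⟩ := e.surjective x
  rw [← map_pow]
  congr 1
  exact key y

theorem no_root (x : k0) : x ^ 3 - x ≠ tau ^ 2 := by
  intro h
  have h3 := three_zero_k0
  have ht := tau_spec
  have frob : ∀ a b : k0, (a + b) ^ 3 = a ^ 3 + b ^ 3 := fun a b => add_pow_char a b 3
  have frobs : ∀ a b : k0, (a - b) ^ 3 = a ^ 3 - b ^ 3 := fun a b => sub_pow_char a b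
  have e1 : x ^ 9 - x ^ 3 = tau ^ 4 + tau + 2 := by
    have : x ^ 9 - x ^ 3 = (x ^ 3 - x) ^ 3 := by rw [frobs]; ring
    rw [this, h]
    linear_combination ((-1) * tau ^ 0 + (1) * tau ^ 1) * ht + ((-1) * tau ^ 0) * h3
  have c2 : (2 : k0) ^ 3 = 2 := by linear_combination 2 * h3
  have e2 : x ^ 27 - x ^ 9 = 2 * tau ^ 3 + 2 * tau + 1 := by
    have : x ^ 27 - x ^ 9 = (x ^ 9 - x ^ 3) ^ 3 := by rw [frobs]; ring
    rw [this, e1, frob, frob, c2]
    linear_combination ((2) * tau ^ 0 + (-1) * tau ^ 1 + (1) * tau ^ 3 + (-1) * tau ^ 4 +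
      (1) * tau ^ 5 + (-1) * tau ^ 6 + (1) * tau ^ 7) * ht +
      ((1) * tau ^ 0 + (-1) * tau ^ 1 + (-1) * tau ^ 4) * h3
  have e3 : x ^ 81 - x ^ 27 = 2 * tau ^ 2 + tau := by
    have : x ^ 81 - x ^ 27 = (x ^ 27 - x ^ 9) ^ 3 := by rw [frobs]; ring
    rw [this, e2, frob, frob, mul_pow, mul_pow, c2]
    linear_combination ((2) * tau ^ 0 + (-2) * tau ^ 1 + (2) * tau ^ 2 + (-2) * tau ^ 3 +
      (2) * tau ^ 4) * ht + ((1) * tau ^ 0 + (-1) * tau ^ 1) * h3
  have e4 : x ^ 243 - x ^ 81 = 2 * tau ^ 4 + tau ^ 3 + 2 * tau + 1 := by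
    have : x ^ 243 - x ^ 81 = (x ^ 81 - x ^ 27) ^ 3 := by rw [frobs]; ring
    rw [this, e3, frob, mul_pow, c2]
    linear_combination ((-2) * tau ^ 0 + (2) * tau ^ 1) * ht + ((-1) * tau ^ 0) * h3
  have e5 := k0_pow x
  have : (1 : k0) = 0 := by
    linear_combination e5 - e4 - e3 - e2 - e1 - h +
      (-(tau ^ 4) - tau ^ 3 - tau ^ 2 - 2 * tau - 1) * h3
  exact one_ne_zero this

end

end Pool.Agent.Helper28.Goss
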