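import Pool.Agent.Helper28.GossPlace

namespace Pool.Agent.Helper28.Goss
open Polynomial

noncomputable section

theorem mem_of_cubic {K : Type*} [Field K] (V : ValuationSubring K) {x a b c : K} (ha : a ∈ V)
    (hb : b ∈ V) (hc : c ∈ V) (h : x ^ 3 = a * x ^ 2 + b * x + c) : x ∈ V := by
  rcases V.mem_or_inv_mem x with hx | hx
  · exact hx
  · by_cases h0 : x = 0
    · rw [h0]; exact V.zero_mem
    · have : x = a + b * x⁻¹ + c * (x⁻¹ * x⁻¹) := by
        field_simp
        linear_combination h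
      rw [this]
      exact V.add_mem _ _ (V.add_mem _ _ ha (V.mul_mem _ _ hb hx))
        (V.mul_mem _ _ hc (V.mul_mem _ _ hx hx))

theorem inv_one_add_mem {K : Type*} [Field K] (V : ValuationSubring K) {x : K}
    (hx : x ∈ V.nonunits) : (1 + x)⁻¹ ∈ V := by
  by_contra h
  have h1 : 1 + x ∈ V.nonunits := by
    rw [ValuationSubring.mem_nonunits_iff_or]; exact Or.inr h
  have h2 : (1 : K) ∈ V.nonunits := by
    have := V.nonunits.sub_mem h1 hx
    simpa using this
  rw [ValuationSubring.mem_nonunits_iff_or] at h2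
  rcases h2 with h2 | h2
  · exact one_ne_zero h2
  · apply h2; rw [inv_one]; exact V.one_mem

theorem nonunits_mul {K : Type*} [Field K] (V : ValuationSubring K) {x y : K}
    (hx : x ∈ V.nonunits) (hy : y ∈ V) : x * y ∈ V.nonunits := by
  rw [ValuationSubring.mem_nonunits_iff] at hx ⊢
  rw [map_mul]
  have := (V.valuation_le_one_iff y).mpr hy
  exact mul_lt_one_of_lt_of_le hx this

/-- Polynomials in `t` inside the function field. -/
def psi : (ZMod 3)[X] →+* KK := (iT.comp (AdjoinRoot.of g0)).comp toR0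

theorem psi_injective : Function.Injective psi :=
  (iT_injective.comp of_injective).comp toR0_injective

/-- The element `t`. -/
def tK : KK := psi X
/-- The element `y`. -/
def yK : KK := iT (AdjoinRoot.root g0)
/-- The element `f`. -/
def fK : KK := iT (AdjoinRoot.of g0 f0)

theorem psi_C (c : ZMod 3) : psi (C c) = algebraMap (ZMod 3) KK c := rfl

theorem piK_eq : piK = psi P0 := rfl

theorem yK_spec : yK ^ 3 = yK + fK := by
  have h := AdjoinRoot.eval₂_root g0
  have e : g0 = X ^ 3 - X - C f0 := rfl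
  conv at h => lhs; arg 3; rw [e]
  rw [eval₂_sub, eval₂_sub, eval₂_pow, eval₂_X, eval₂_C] at h
  have h2 := congrArg iT h
  rw [map_sub, map_sub, map_pow, map_zero] at h2
  change yK ^ 3 - yK - fK = 0 at h2
  linear_combination h2

theorem fK_spec : fK * psi Pp = psi Nn := by
  have := congrArg (fun x => iT (AdjoinRoot.of g0 x)) f0_spec
  simpa [fK, psi] using this

theorem psi_Pp_ne : psi Pp ≠ 0 := by
  intro h
  have : Pp = 0 := psi_injective (by rw [map_zero]; exact h)
  have h2 : Pp.Monic := by unfold Pp; monicity!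
  exact h2.ne_zero this

theorem psi_Pp : psi Pp = tK ^ 3 + tK ^ 2 + tK - 1 := by
  unfold Pp tK; simp
theorem psi_Nn : psi Nn = tK ^ 3 - tK ^ 2 + 1 := by
  unfold Nn tK; simp
theorem psi_P0 : psi P0 = tK ^ 5 + tK ^ 4 - 1 := by
  unfold P0 tK; simp

theorem psi_mem {V : ValuationSubring KK} (hc : ∀ c : ZMod 3, algebraMap (ZMod 3) KK c ∈ V)
    (ht : tK ∈ V) (a : (ZMod 3)[X]) : psi a ∈ V := by
  induction a using Polynomial.induction_on' with
  | add p q hp hq => rw [map_add]; exact V.add_mem _ _ hp hq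
  | monomial n c =>
    rw [← C_mul_X_pow_eq_monomial, map_mul, map_pow, psi_C]
    exact V.mul_mem _ _ (hc c) (pow_mem ht n)

theorem psi_mem_inv {V : ValuationSubring KK} (hc : ∀ c : ZMod 3, algebraMap (ZMod 3) KK c ∈ V)
    {s : KK} (hs : s ∈ V) (hst : tK * s = 1) (a : (ZMod 3)[X]) (n : ℕ) (hn : a.natDegree ≤ n) :
    psi a * s ^ n ∈ V := by
  rw [a.as_sum_range_C_mul_X_pow' (Nat.lt_succ_of_le hn), map_sum, Finset.sum_mul]
  apply sum_mem
  intro i hi
  rw [Finset.mem_range] at hi
  have : psi (C (a.coeff i) * X ^ i) * s ^ n = algebraMap (ZMod 3) KK (a.coeff i) * s ^ (n - i) := by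
    rw [map_mul, map_pow, psi_C]
    change _ * tK ^ i * s ^ n = _
    have e : s ^ n = s ^ i * s ^ (n - i) := by rw [← pow_add]; congr 1; omega
    rw [e]
    have e2 : tK ^ i * s ^ i = 1 := by rw [← mul_pow, hst, one_pow]
    linear_combination (algebraMap (ZMod 3) KK (a.coeff i) * s ^ (n - i)) * e2
  rw [this]
  exact V.mul_mem _ _ (hc _) (pow_mem hs _)

theorem eq_Oinf_of_le {V : ValuationSubring KK} (h : ∀ y : T, iT y ∈ V) (hV : V ≠ ⊤) :
    V = Oinf := by
  ext x
  constructor
  · intro hx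
    by_contra hxO
    apply hV
    have hx0 : x ≠ 0 := by rintro rfl; exact hxO Oinf.zero_mem
    obtain ⟨n, u, hu⟩ := repr_K x hx0
    have hn : n < 0 := by
      by_contra hn
      push Not at hn
      obtain ⟨k, rfl⟩ := Int.eq_ofNat_of_zero_le hn
      apply hxO
      refine ⟨pT ^ k * u, ?_⟩
      rw [hu, map_mul, map_pow]; simp [piK]
    have hpi : piK⁻¹ ∈ V := by
      obtain ⟨k, rfl⟩ : ∃ k : ℕ, n = -((k : ℤ) + 1) := ⟨(-n - 1).toNat, by omega⟩
      have hvinv : iT (u : T) * iT ((u⁻¹ : Tˣ) : T) = 1 := by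
        rw [← map_mul, Units.mul_inv, map_one]
      have e : piK⁻¹ = x * (piK ^ k * iT ((u⁻¹ : Tˣ) : T)) := by
        have hp := piK_ne_zero
        rw [hu, zpow_neg]
        have e1 : piK ^ ((k : ℤ) + 1) = piK ^ k * piK := by
          rw [zpow_add₀ hp]; simp
        rw [e1]
        have e2 : (piK ^ k * piK)⁻¹ * iT (u : T) * (piK ^ k * iT ((u⁻¹ : Tˣ) : T)) =
          (piK ^ k * piK)⁻¹ * piK ^ k * (iT (u : T) * iT ((u⁻¹ : Tˣ) : T)) := by ring
        rw [e2, hvinv]
        field_simp
      rw [e]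
      exact V.mul_mem _ _ hx (V.mul_mem _ _ (pow_mem (h pT) k) (h _))
    rw [eq_top_iff]
    intro z _
    by_cases hz : z = 0
    · rw [hz]; exact V.zero_mem
    obtain ⟨m, v, rfl⟩ := repr_K z hz
    refine V.mul_mem _ _ ?_ (h _)
    rcases le_total 0 m with hm | hm
    · obtain ⟨k, rfl⟩ := Int.eq_ofNat_of_zero_le hm
      rw [zpow_natCast]; exact pow_mem (h pT) k
    · obtain ⟨k, rfl⟩ : ∃ k : ℕ, m = -(k : ℤ) := ⟨(-m).toNat, by omega⟩
      rw [zpow_neg, zpow_natCast, ← inv_pow]; exact pow_mem hpi k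
  · rintro ⟨y, rfl⟩
    exact h y

/-- The general shape of the elements of `L(∞)`. -/
def elt (a0 a1 a2 : (ZMod 3)[X]) : KK :=
  (psi a0 + psi a1 * (psi Pp * yK) + psi a2 * (psi Pp * yK ^ 2)) / piK

theorem elt_mem_regular (a0 a1 a2 : (ZMod 3)[X]) (h0 : a0.natDegree ≤ 5) (h1 : a1.natDegree ≤ 2)
    (h2 : a2.natDegree ≤ 2) : elt a0 a1 a2 ∈ Pinf.regularAway := by
  rw [mem_regularAway]
  intro Q hQ
  have hc := Q.algebraMap_mem
  set V := Q.ring with hV
  have hy := yK_spec
  have hf := fK_spec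
  have hP := psi_Pp_ne
  by_cases ht : tK ∈ V
  · have hpsi := psi_mem hc ht
    by_cases hp : (psi P0)⁻¹ ∈ V
    · -- `P0` is a unit
      have hw : psi Pp * yK ∈ V := by
        refine mem_of_cubic V V.zero_mem (pow_mem (hpsi Pp) 2)
          (V.mul_mem _ _ (hpsi Nn) (pow_mem (hpsi Pp) 2)) ?_
        rw [mul_pow, hy, ← hf]; ring
      have hv : psi Pp * yK ^ 2 ∈ V := by
        refine mem_of_cubic V (V.mul_mem _ _ (hc 2) (hpsi Pp)) (V.neg_mem _ (pow_mem (hpsi Pp) 2))
          (V.mul_mem _ _ (hpsi Pp) (pow_mem (hpsi Nn) 2)) ?_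
        have h2 : algebraMap (ZMod 3) KK 2 = 2 := map_ofNat _ 2
        rw [h2, ← hf]
        have e6 : yK ^ 6 = (yK + fK) ^ 2 := by rw [← hy]; ring
        have e4 : yK ^ 4 = (yK + fK) * yK := by rw [← hy]; ring
        linear_combination (psi Pp) ^ 3 * e6 - 2 * (psi Pp) ^ 3 * e4
      rw [elt, div_eq_mul_inv, piK_eq]
      exact V.mul_mem _ _ (V.add_mem _ _ (V.add_mem _ _ (hpsi _) (V.mul_mem _ _ (hpsi _) hw))
        (V.mul_mem _ _ (hpsi _) hv)) hp
    · -- the place lies over `P0`
      exfalso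
      apply hQ
      have hnon : psi P0 ∈ V.nonunits := by
        rw [ValuationSubring.mem_nonunits_iff_or]; exact Or.inr hp
      have hinv : ∀ b : (ZMod 3)[X], b ∉ pI → (psi b)⁻¹ ∈ V := by
        intro b hb
        have hco : IsCoprime b P0 := by
          rw [isCoprime_comm]
          exact (Irreducible.coprime_iff_not_dvd P0_irreducible).mpr (fun h => hb (mem_pI.mpr h))
        obtain ⟨u, v, huv⟩ := hco
        have e := congrArg psi huv
        rw [map_add, map_mul, map_mul, map_one] at e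
        have hb0 : psi b ≠ 0 := by
          intro h
          have : b = 0 := psi_injective (by rw [map_zero]; exact h)
          exact hb (this ▸ pI.zero_mem)
        have hx : -(psi P0 * psi v) ∈ V.nonunits :=
          V.nonunits.neg_mem (nonunits_mul V hnon (hpsi v))
        have h1 := inv_one_add_mem V hx
        have h3 : (1 + -(psi P0 * psi v)) = psi u * psi b := by linear_combination -e
        rw [h3, mul_inv] at h1
        have hu0 : psi u ≠ 0 := by
          intro h
          rw [h, zero_mul] at h3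
          have h4 : psi P0 * psi v = 1 := by linear_combination -h3
          have h5 : psi P0 * psi v ∈ V.nonunits := nonunits_mul V hnon (hpsi v)
          rw [h4, ValuationSubring.mem_nonunits_iff_or] at h5
          rcases h5 with h5 | h5
          · exact one_ne_zero h5
          · apply h5; rw [inv_one]; exact V.one_mem
        have h6 : (psi b)⁻¹ = psi u * ((psi u)⁻¹ * (psi b)⁻¹) := by field_simp
        rw [h6]; exact V.mul_mem _ _ (hpsi u) h1
      have hR0 : ∀ r : R0, iT (AdjoinRoot.of g0 r) ∈ V := by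
        intro r
        obtain ⟨a, b, rfl⟩ := IsLocalization.exists_mk'_eq pI.primeCompl r
        have e : iT (AdjoinRoot.of g0 (IsLocalization.mk' R0 a b)) * psi b = psi a := by
          have h1 := IsLocalization.mk'_spec R0 a b
          have h2 := congrArg (iT.comp (AdjoinRoot.of g0)) h1
          rw [map_mul] at h2
          exact h2
        have hb0 : psi (b : (ZMod 3)[X]) ≠ 0 := by
          intro h
          have : (b : (ZMod 3)[X]) = 0 := psi_injective (by rw [map_zero]; exact h)
          exact b.2 (this ▸ pI.zero_mem)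
        have e2 : iT (AdjoinRoot.of g0 (IsLocalization.mk' R0 a b)) =
            psi a * (psi (b : (ZMod 3)[X]))⁻¹ := by
          rw [← e]; field_simp
        rw [e2]
        exact V.mul_mem _ _ (hpsi a) (hinv b b.2)
      have hyV : yK ∈ V :=
        mem_of_cubic V V.zero_mem V.one_mem (hR0 f0) (by
          change yK ^ 3 = 0 * yK ^ 2 + 1 * yK + fK
          rw [hy]; ring)
      have hT : ∀ z : T, iT z ∈ V := by
        intro z
        obtain ⟨p, rfl⟩ := AdjoinRoot.mk_surjective z
        induction p using Polynomial.induction_on' with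
        | add p q hp hq => rw [map_add, map_add]; exact V.add_mem _ _ hp hq
        | monomial n c =>
          rw [← C_mul_X_pow_eq_monomial, map_mul, map_pow, map_mul, map_pow, AdjoinRoot.mk_C,
            AdjoinRoot.mk_X]
          exact V.mul_mem _ _ (hR0 c) (pow_mem hyV n)
      have := eq_Oinf_of_le hT Q.ne_top
      apply Place.ext
      rw [← hV, this]; rfl
  · -- the place at infinity of `F_3(t)`
    have hs : tK⁻¹ ∈ V := (V.mem_or_inv_mem tK).resolve_left ht
    have ht0 : tK ≠ 0 := by rintro h; apply ht; rw [h]; exact V.zero_mem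
    set s := tK⁻¹ with hsdef
    have hst : tK * s = 1 := mul_inv_cancel₀ ht0
    have hsn : s ∈ V.nonunits := by
      rw [ValuationSubring.mem_nonunits_iff_or]; right
      rw [hsdef, inv_inv]; exact ht
    have hpi := psi_mem_inv hc hs hst
    have hP0 : (psi P0 * s ^ 5)⁻¹ ∈ V := by
      have e : psi P0 * s ^ 5 = 1 + s * (1 - s ^ 4) := by
        rw [psi_P0]
        have e5 : tK ^ 5 * s ^ 5 = 1 := by rw [← mul_pow, hst, one_pow]
        have e4 : tK ^ 4 * s ^ 4 = 1 := by rw [← mul_pow, hst, one_pow]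
        linear_combination e5 + s * e4
      rw [e]
      exact inv_one_add_mem V (nonunits_mul V hsn (sub_mem V.one_mem (pow_mem hs 4)))
    have hPp : (psi Pp * s ^ 3)⁻¹ ∈ V := by
      have e : psi Pp * s ^ 3 = 1 + s * (1 + s - s ^ 2) := by
        rw [psi_Pp]
        have e5 : tK ^ 3 * s ^ 3 = 1 := by rw [← mul_pow, hst, one_pow]
        have e4 : tK ^ 2 * s ^ 2 = 1 := by rw [← mul_pow, hst, one_pow]
        linear_combination e5 + s * e4 + s ^ 2 * hst
      rw [e]
      exact inv_one_add_mem V (nonunits_mul V hsn (sub_mem (V.add_mem _ _ V.one_mem hs)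
        (pow_mem hs 2)))
    have hPd : Pp.natDegree ≤ 3 := by unfold Pp; compute_degree
    have hNd : Nn.natDegree ≤ 3 := by unfold Nn; compute_degree
    have hP0d : P0.natDegree ≤ 5 := by rw [P0_natDegree]
    have hPV := hpi Pp 3 hPd
    have hNV := hpi Nn 3 hNd
    have hs0 : s ≠ 0 := inv_ne_zero ht0
    have hfV : fK ∈ V := by
      have e : fK = (psi Nn * s ^ 3) * (psi Pp * s ^ 3)⁻¹ := by
        rw [← hf]; field_simp
      rw [e]; exact V.mul_mem _ _ hNV hPp
    have hyV : yK ∈ V :=
      mem_of_cubic V V.zero_mem V.one_mem hfV (by rw [hy]; ring)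
    have hPi : psi P0 ≠ 0 := piK_ne_zero
    have e : elt a0 a1 a2 = (psi a0 * s ^ 5 + (psi a1 * s ^ 2) * ((psi Pp * s ^ 3) * yK) +
        (psi a2 * s ^ 2) * ((psi Pp * s ^ 3) * yK ^ 2)) * (psi P0 * s ^ 5)⁻¹ := by
      rw [elt, piK_eq]
      field_simp
    rw [e]
    exact V.mul_mem _ _ (V.add_mem _ _ (V.add_mem _ _ (hpi a0 5 h0)
      (V.mul_mem _ _ (hpi a1 2 h1) (V.mul_mem _ _ hPV hyV)))
      (V.mul_mem _ _ (hpi a2 2 h2) (V.mul_mem _ _ hPV (pow_mem hyV 2)))) hP0

end

end Pool.Agent.Helper28.Goss
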