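import Pool.Agent.Helper28.GossDefs

/-!
# Extension of sign functions from `K^*` to `K_∞^*`
-/

namespace Pool.Agent.Helper28.Goss

variable {F K : Type} [Field F] [Field K] [Algebra F K]

/-- The valuation of the completion. -/
noncomputable instance (P : Place F K) : Valued P.Completion P.ring.ValueGroup :=
  (inferInstance : Valued P.ring.valuation.Completion P.ring.ValueGroup)

/-- The embedding of `K` into its completion as a ring homomorphism. -/
noncomputable def Place.toCompHom (P : Place F K) : K →+* P.Completion :=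
  (UniformSpace.Completion.coeRingHom : WithVal P.ring.valuation →+* _).comp
    ((WithVal.equiv P.ring.valuation).symm : K →+* WithVal P.ring.valuation)

theorem Place.toCompHom_apply (P : Place F K) (x : K) : P.toCompHom x = P.toCompletion x := rfl

theorem v_toCompletion (P : Place F K) (a : K) :
    Valued.v (P.toCompHom a) = P.ring.valuation a := by
  simp only [Place.toCompHom, RingHom.comp_apply]
  exact Valued.valuedCompletion_apply _

theorem approx (P : Place F K) (x : P.Completion) (hx : x ≠ 0) :
    ∃ a : K, Valued.v (P.toCompHom a * x⁻¹ - 1) < 1 := by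
  have hopen : IsOpen {z : P.Completion | Valued.v z < (1 : P.ring.ValueGroup)} := by
    have := Valued.isOpen_ball P.Completion 1
    convert this using 1
    ext z
    simp
  have hcont : Continuous fun y : P.Completion => y * x⁻¹ - 1 := by fun_prop
  have hU := hopen.preimage hcont
  obtain ⟨y, hy⟩ := UniformSpace.Completion.denseRange_coe.exists_mem_open hU
    ⟨x, by
      change Valued.v (x * x⁻¹ - 1) < 1
      rw [mul_inv_cancel₀ hx, sub_self, map_zero]; exact zero_lt_one⟩
  exact ⟨WithVal.equiv P.ring.valuation y, hy⟩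

/-- A sign function on `K^*`. -/
structure SignK (P : Place F K) where
  /-- the underlying homomorphism -/
  toHom : Kˣ →* (P.ResidueField)ˣ
  map_unit : ∀ (x : Kˣ) (u : (P.ring)ˣ), (x : K) = ((u : P.ring) : K) →
    (toHom x : P.ResidueField) = IsLocalRing.residue P.ring (u : P.ring)

namespace SignK

variable {P : Place F K} (s : SignK P)

theorem close_val {L : Type} [Field L] {Γ : Type} [LinearOrderedCommGroupWithZero Γ]
    (v : Valuation L Γ) {x : L} (h : v (x - 1) < 1) : v x = 1 := by
  have h1 : x = 1 + (x - 1) := by ring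
  rw [h1, Valuation.map_one_add_of_lt v h]

theorem exists_approx (x : (P.Completion)ˣ) : ∃ a : Kˣ,
    Valued.v (P.toCompHom (a : K) * (x : P.Completion)⁻¹ - 1) < 1 := by
  obtain ⟨a, ha⟩ := approx P x x.ne_zero
  have ha0 : a ≠ 0 := by
    rintro rfl
    rw [map_zero, zero_mul, zero_sub, Valuation.map_neg, map_one] at ha
    exact lt_irrefl _ ha
  exact ⟨Units.mk0 a ha0, ha⟩

/-- Elements of `K` close to each other have the same sign. -/
theorem sign_eq {a b : Kˣ} (h : P.ring.valuation ((a : K) * (b : K)⁻¹ - 1) < 1) :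
    s.toHom a = s.toHom b := by
  have h1 := close_val P.ring.valuation h
  have hab : (a : K) * (b : K)⁻¹ ∈ P.ring := (P.ring.valuation_le_one_iff _).mp h1.le
  have hu : IsUnit (⟨(a : K) * (b : K)⁻¹, hab⟩ : P.ring) :=
    (P.ring.valuation_eq_one_iff _).mpr h1
  obtain ⟨u, hu⟩ := hu
  have h2 := s.map_unit (a * b⁻¹) u (by rw [hu]; simp)
  have h3 : (u : P.ring) - 1 ∈ IsLocalRing.maximalIdeal P.ring := by
    rw [P.ring.valuation_lt_one_iff, hu]; exact h
  have h4 : IsLocalRing.residue P.ring (u : P.ring) = 1 := by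
    have := (IsLocalRing.residue_eq_zero_iff _).mpr h3
    rw [map_sub, map_one] at this
    exact sub_eq_zero.mp this
  rw [h4] at h2
  have h5 : s.toHom (a * b⁻¹) = 1 := Units.ext h2
  rw [map_mul, map_inv] at h5
  exact mul_inv_eq_one.mp h5

theorem sign_eq' {a b : Kˣ} {x : P.Completion} (hx : x ≠ 0)
    (ha : Valued.v (P.toCompHom (a : K) * x⁻¹ - 1) < 1)
    (hb : Valued.v (P.toCompHom (b : K) * x⁻¹ - 1) < 1) : s.toHom a = s.toHom b := by
  apply s.sign_eq
  rw [← v_toCompletion, map_sub, map_mul, map_inv₀, map_one]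
  set A := P.toCompHom (a : K) * x⁻¹ with hA
  set B := P.toCompHom (b : K) * x⁻¹ with hB
  have hvB := close_val _ hb
  have hb0 : P.toCompHom (b : K) ≠ 0 := by
    rw [Ne, map_eq_zero]; exact b.ne_zero
  have hB0 : B ≠ 0 := mul_ne_zero hb0 (inv_ne_zero hx)
  have e : P.toCompHom (a : K) * (P.toCompHom (b : K))⁻¹ - 1 = ((A - 1) - (B - 1)) * B⁻¹ := by
    rw [hA, hB]; field_simp; ring
  rw [e, map_mul, map_inv₀, hvB, inv_one, mul_one]
  exact Valuation.map_sub_lt _ ha hb

/-- The extension of a sign function from `K^*` to `K_∞^*`. -/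
noncomputable def ext : SignFunction P where
  toHom := MonoidHom.mk' (fun x => s.toHom (exists_approx x).choose) (by
    intro x y
    have hx := (exists_approx x).choose_spec
    have hy := (exists_approx y).choose_spec
    have hxy := (exists_approx (x * y)).choose_spec
    set a := (exists_approx x).choose
    set b := (exists_approx y).choose
    set c := (exists_approx (x * y)).choose
    rw [← map_mul]
    apply s.sign_eq' (x := ((x * y : (P.Completion)ˣ) : P.Completion)) (x * y).ne_zero hxy
    set A := P.toCompHom (a : K) * (x : P.Completion)⁻¹ with hA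
    set B := P.toCompHom (b : K) * (y : P.Completion)⁻¹ with hB
    have e : P.toCompHom ((a * b : Kˣ) : K) * ((x * y : (P.Completion)ˣ) : P.Completion)⁻¹ - 1 =
        (A - 1) * B + (B - 1) := by
      rw [hA, hB, Units.val_mul, Units.val_mul, map_mul, mul_inv]; ring
    rw [e]
    have hvB := close_val _ hy
    apply Valuation.map_add_lt _ _ hy
    rw [map_mul, hvB, mul_one]; exact hx)
  map_unit := by
    intro x u hxu
    have hx := (exists_approx x).choose_spec
    change ((s.toHom (exists_approx x).choose : (P.ResidueField)ˣ) : P.ResidueField) = _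
    set a := (exists_approx x).choose
    have hu0 : ((u : P.ring) : K) ≠ 0 := by
      intro h
      have : (u : P.ring) = 0 := by exact_mod_cast h
      exact u.ne_zero this
    have h1 := s.map_unit (Units.mk0 _ hu0) u rfl
    rw [← h1]
    congr 1
    apply s.sign_eq' x.ne_zero hx
    rw [← P.toCompHom_apply] at hxu
    rw [hxu, Units.val_mk0, mul_inv_cancel₀ (by rw [← hxu]; exact x.ne_zero), sub_self, map_zero]
    exact zero_lt_one

theorem ext_apply (x : (P.Completion)ˣ) (a : Kˣ)
    (h : (x : P.Completion) = P.toCompHom (a : K)) : s.ext.toHom x = s.toHom a := by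
  change s.toHom (exists_approx x).choose = _
  have hx := (exists_approx x).choose_spec
  apply s.sign_eq' x.ne_zero hx
  rw [← h, mul_inv_cancel₀ x.ne_zero, sub_self, map_zero]
  exact zero_lt_one

end SignK

/-- positive elements, with a sign function on `K^*` -/
def positiveK (P : Place F K) (sgn : SignK P) (S : Set (P.ResidueField)ˣ) (i : ℕ) : Set K :=
  {a | a ∈ P.regularAway ∧ (∃ n : ℤ, P.HasOrd a n ∧ (i : ℤ) = -((P.degree : ℤ) * n)) ∧
    ∃ h : a ≠ 0, sgn.toHom (Units.mk0 a h) ∈ S}

/-- zeta values, with a sign function on `K^*` -/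
def IsZetaValueK (P : Place F K) (sgn : SignK P) (S : Set (P.ResidueField)ˣ) (k : ℕ)
    (z : K) : Prop :=
  (∀ i, (positiveK P sgn S i).Finite) ∧
    ∃ n : ℕ, (∀ i, n ≤ i → ∑ᶠ a ∈ positiveK P sgn S i, a ^ k = 0) ∧
      z = ∑ i ∈ Finset.range n, ∑ᶠ a ∈ positiveK P sgn S i, a ^ k

theorem positive_ext (P : Place F K) (s : SignK P) (S : Set (P.ResidueField)ˣ) (i : ℕ) :
    positive P s.ext S i = positiveK P s S i := by
  ext a
  refine and_congr_right fun _ => and_congr_right fun _ => ?_
  constructor
  · rintro ⟨x, hx, hS⟩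
    have ha : a ≠ 0 := by
      rintro rfl
      rw [← P.toCompHom_apply, map_zero] at hx
      exact x.ne_zero hx
    refine ⟨ha, ?_⟩
    rwa [s.ext_apply x (Units.mk0 a ha) hx] at hS
  · rintro ⟨ha, hS⟩
    have hne : P.toCompHom a ≠ 0 := by rw [Ne, map_eq_zero]; exact ha
    refine ⟨Units.mk0 _ hne, rfl, ?_⟩
    rwa [s.ext_apply (Units.mk0 _ hne) (Units.mk0 a ha) rfl]

theorem IsZetaValueK.ext {P : Place F K} {s : SignK P} {S : Set (P.ResidueField)ˣ} {k : ℕ} {z : K}
    (h : IsZetaValueK P s S k z) : IsZetaValue P s.ext S k z := by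
  unfold IsZetaValue
  simp only [positive_ext]
  exact h

end Pool.Agent.Helper28.Goss
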