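import Mathlib

namespace Pool.Agent.Helper28.Goss

open Polynomial

/-- The `17`-th power sum over a finite set that is stable under translation by at least `27`
elements vanishes in characteristic `3`. -/
theorem stable_sum_zero {K : Type*} [Field K] [CharP K 3] (Z W : Finset K) (hW : 27 ≤ W.card)
    (h : ∀ w ∈ W, ∀ a ∈ Z, a + w ∈ Z) : ∑ a ∈ Z, a ^ 17 = 0 := by
  classical
  have key : ∀ w ∈ W, ∑ a ∈ Z, (a + w) ^ 26 = ∑ a ∈ Z, a ^ 26 := by
    intro w hw
    have himg : Z.image (fun a => a + w) = Z := by
      apply Finset.eq_of_subset_of_card_le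
      · intro b hb
        obtain ⟨a, ha, rfl⟩ := Finset.mem_image.mp hb
        exact h w hw a ha
      · rw [Finset.card_image_of_injective _ (add_left_injective w)]
    conv_rhs => rw [← himg]
    rw [Finset.sum_image (fun a _ b _ hab => add_left_injective w hab)]
  set R : K[X] := ∑ a ∈ Z, ((X + C a) ^ 26 - C (a ^ 26)) with hR
  have hdeg : R.natDegree < W.card := by
    refine lt_of_le_of_lt ?_ (lt_of_lt_of_le (by norm_num : 26 < 27) hW)
    rw [hR]
    apply Polynomial.natDegree_sum_le_of_forall_le
    intro a _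
    refine (Polynomial.natDegree_sub_le _ _).trans ?_
    simp only [natDegree_C, Nat.max_zero]
    refine (Polynomial.natDegree_pow_le).trans ?_
    rw [natDegree_X_add_C]
  have hR0 : R = 0 := by
    apply Polynomial.eq_zero_of_natDegree_lt_card_of_eval_eq_zero' R W _ hdeg
    intro w hw
    rw [hR, Polynomial.eval_finset_sum]
    simp only [eval_sub, eval_pow, eval_add, eval_X, eval_C, Finset.sum_sub_distrib]
    rw [← key w hw]
    simp [add_comm]
  have hc : R.coeff 9 = 0 := by rw [hR0]; simp
  rw [hR, Polynomial.finset_sum_coeff] at hc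
  simp only [coeff_sub, coeff_X_add_C_pow, coeff_C] at hc
  norm_num at hc
  rw [← Finset.sum_mul] at hc
  rcases mul_eq_zero.mp hc with h1 | h1
  · exact h1
  · exfalso
    have h2 : ((Nat.choose 26 9 : ℕ) : K) = 0 := by exact_mod_cast h1
    rw [CharP.cast_eq_zero_iff K 3] at h2
    revert h2
    decide

end Pool.Agent.Helper28.Goss
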