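import Pool.Agent.Helper28.GossR0

namespace Pool.Agent.Helper28.Goss
open Polynomial

noncomputable section

/-- The Artin-Schreier polynomial `y^3 - y - f`. -/
def g0 : R0[X] := X ^ 3 - X - C f0

theorem g0_monic : g0.Monic := by unfold g0; monicity!

theorem g0_natDegree : g0.natDegree = 3 := by unfold g0; compute_degree!

theorem g0_map : g0.map q0 = X ^ 3 - X - C (tau ^ 2) := by
  unfold g0
  rw [Polynomial.map_sub, Polynomial.map_sub, Polynomial.map_pow, Polynomial.map_X,
    Polynomial.map_C, q0_f0]

theorem g0_map_irreducible : Irreducible (g0.map q0) := by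
  have hm : (g0.map q0).Monic := g0_monic.map q0
  have hd : (g0.map q0).natDegree = 3 := by
    rw [g0_monic.natDegree_map, g0_natDegree]
  rw [hm.irreducible_iff_roots_eq_zero_of_degree_le_three (by omega) (by omega)]
  rw [Multiset.eq_zero_iff_forall_notMem]
  intro x hx
  rw [mem_roots hm.ne_zero, IsRoot.def, g0_map] at hx
  simp only [eval_sub, eval_pow, eval_X, eval_C] at hx
  exact no_root x (sub_eq_zero.mp hx)

theorem g0_irreducible : Irreducible g0 :=
  g0_monic.irreducible_of_irreducible_map q0 _ g0_map_irreducible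

theorem g0_prime : Prime g0 := g0_irreducible.prime

/-- The valuation ring at infinity. -/
abbrev T : Type := AdjoinRoot g0

instance : IsDomain T := AdjoinRoot.isDomain_of_prime g0_prime

/-- The ideal generated by `P0`. -/
def mT : Ideal T := Ideal.span {AdjoinRoot.of g0 (toR0 P0)}

theorem mT_eq : mT = (IsLocalRing.maximalIdeal R0).map (AdjoinRoot.of g0) := by
  rw [maximalIdeal_R0, Ideal.map_span, Set.image_singleton, mT]

instance mT_maximal : mT.IsMaximal := by
  rw [mT_eq]
  have e := AdjoinRoot.quotAdjoinRootEquivQuotPolynomialQuot (IsLocalRing.maximalIdeal R0) g0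
  have hmax : (Ideal.span ({g0.map q0} : Set k0[X])).IsMaximal :=
    PrincipalIdealRing.isMaximal_of_irreducible g0_map_irreducible
  have hf : IsField (k0[X] ⧸ Ideal.span ({g0.map q0} : Set k0[X])) :=
    (Ideal.Quotient.maximal_ideal_iff_isField_quotient _).mp hmax
  rw [Ideal.Quotient.maximal_ideal_iff_isField_quotient]
  exact e.toMulEquiv.isField hf

instance : Module.Finite R0 T := g0_monic.finite_adjoinRoot

theorem eq_mT (M : Ideal T) (hM : M.IsMaximal) : M = mT := by
  have h1 : (M.comap (algebraMap R0 T)).IsMaximal :=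
    Ideal.isMaximal_comap_of_isIntegral_of_isMaximal M
  have h2 : M.comap (algebraMap R0 T) = IsLocalRing.maximalIdeal R0 :=
    IsLocalRing.eq_maximalIdeal h1
  have h3 : mT ≤ M := by
    rw [mT_eq, Ideal.map_le_iff_le_comap, ← h2]
    exact le_refl _
  exact (mT_maximal.eq_of_le hM.ne_top h3).symm

instance : IsLocalRing T :=
  IsLocalRing.of_unique_max_ideal ⟨mT, mT_maximal, fun M hM => eq_mT M hM⟩

theorem maximalIdeal_T : IsLocalRing.maximalIdeal T = mT :=
  eq_mT _ (IsLocalRing.maximalIdeal.isMaximal T)

end

end Pool.Agent.Helper28.Goss
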