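import Mathlib

/-!
# Arithmetic of triples, and Kronecker substitution
-/

namespace Pool.Agent.Helper28.Goss

/-- base three digit -/
def dg (n i : ℕ) : ℕ := n / 3 ^ i % 3

section gen
variable {R : Type*} [CommSemiring R]

/-- multiplication of triples -/
def tmul (P N : R) (x y : R × R × R) : R × R × R :=
  (x.1 * y.1 + N * P * (x.2.1 * y.2.2 + x.2.2 * y.2.1),
   x.1 * y.2.1 + x.2.1 * y.1 + P * (x.2.1 * y.2.2 + x.2.2 * y.2.1) + N * (x.2.2 * y.2.2),
   x.1 * y.2.2 + x.2.2 * y.1 + P * (x.2.1 * y.2.1) + P * (x.2.2 * y.2.2))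

/-- addition of triples -/
def tadd (x y : R × R × R) : R × R × R := (x.1 + y.1, x.2.1 + y.2.1, x.2.2 + y.2.2)

/-- scaling of triples -/
def tsc (c : R) (x : R × R × R) : R × R × R := (c * x.1, c * x.2.1, c * x.2.2)

/-- the triple of a code -/
def tcode (t : R) (n : ℕ) : R × R × R :=
  ((dg n 0 : R) + (dg n 1 : R) * t + (dg n 2 : R) * t ^ 2 + (dg n 3 : R) * t ^ 3 + (dg n 4 : R) * t ^ 4,
   (dg n 5 : R) + (dg n 6 : R) * t + (dg n 7 : R) * t ^ 2,
   (dg n 8 : R) + (dg n 9 : R) * t + (dg n 10 : R) * t ^ 2)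

/-- the numerator of the sum of the seventeenth powers -/
def tF (P N p : R) (x : R × R × R) : R × R × R :=
  let Y := tadd (tmul P N (tmul P N x x) x) (tsc (2 * p ^ 2) x)
  let Z := tadd (p ^ 6, 0, 0) (tmul P N Y Y)
  tsc 2 (tmul P N Y (tmul P N Z Z))

/-- total sum -/
def ttot (t : R) (l : List ℕ) : R × R × R :=
  l.foldr (fun n acc => tadd (tF (t ^ 3 + t ^ 2 + t + 2) (t ^ 3 + 2 * t ^ 2 + 1)
    (t ^ 5 + t ^ 4 + 2) (tcode t n)) acc) ((t ^ 5 + t ^ 4 + 2) ^ 15, 0, 0)

end gen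

section nat
variable {R S : Type*} [CommSemiring R] [CommSemiring S] (f : R →+* S)

/-- functoriality of triples -/
def tmap (x : R × R × R) : S × S × S := (f x.1, f x.2.1, f x.2.2)

theorem tmap_tmul (P N : R) (x y : R × R × R) :
    tmap f (tmul P N x y) = tmul (f P) (f N) (tmap f x) (tmap f y) := by
  simp [tmap, tmul]

theorem tmap_tadd (x y : R × R × R) : tmap f (tadd x y) = tadd (tmap f x) (tmap f y) := by
  simp [tmap, tadd]

theorem tmap_tsc (c : R) (x : R × R × R) : tmap f (tsc c x) = tsc (f c) (tmap f x) := by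
  simp [tmap, tsc]

theorem tmap_tcode (t : R) (n : ℕ) : tmap f (tcode t n) = tcode (f t) n := by
  simp [tmap, tcode]

theorem tmap_tF (P N p : R) (x : R × R × R) :
    tmap f (tF P N p x) = tF (f P) (f N) (f p) (tmap f x) := by
  have h2 : f 2 = 2 := map_ofNat f 2
  have e : ∀ a : R, tmap f (a, 0, 0) = (f a, 0, 0) := fun a => by simp [tmap]
  simp only [tF, tmap_tsc, tmap_tmul, tmap_tadd, e, map_mul, map_pow, h2]

theorem tmap_ttot (t : R) (l : List ℕ) : tmap f (ttot t l) = ttot (f t) l := by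
  induction l with
  | nil =>
    have h2 : f 2 = 2 := map_ofNat f 2
    simp [ttot, tmap, h2]
  | cons n l ih =>
    have h2 : f 2 = 2 := map_ofNat f 2
    have e : ∀ r : R, ttot r (n :: l) = tadd (tF (r ^ 3 + r ^ 2 + r + 2) (r ^ 3 + 2 * r ^ 2 + 1)
      (r ^ 5 + r ^ 4 + 2) (tcode r n)) (ttot r l) := fun r => rfl
    have e' : ∀ r : S, ttot r (n :: l) = tadd (tF (r ^ 3 + r ^ 2 + r + 2) (r ^ 3 + 2 * r ^ 2 + 1)
      (r ^ 5 + r ^ 4 + 2) (tcode r n)) (ttot r l) := fun r => rfl
    rw [e, e', tmap_tadd, ih, tmap_tF, tmap_tcode]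
    simp [h2]

end nat

/-- checks that all base `T` digits are divisible by three -/
def chk (T : ℕ) : ℕ → ℕ → Bool
  | 0, n => n == 0
  | k + 1, n => (n % T) % 3 == 0 && chk T k (n / T)

open Polynomial

theorem coeff_le_eval_one (p : ℕ[X]) (i : ℕ) : p.coeff i ≤ p.eval 1 := by
  rw [eval_eq_sum_range]
  simp only [one_pow, mul_one]
  by_cases h : i ∈ Finset.range (p.natDegree + 1)
  · exact Finset.single_le_sum (f := fun i => p.coeff i) (fun _ _ => Nat.zero_le _) h
  · rw [Finset.mem_range] at h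
    rw [coeff_eq_zero_of_natDegree_lt (by omega)]
    exact Nat.zero_le _

theorem chk_sound (T : ℕ) : ∀ (k : ℕ) (p : ℕ[X]), p.eval 1 < T → chk T k (p.eval T) = true →
    ∀ i, 3 ∣ p.coeff i := by
  intro k
  induction k with
  | zero =>
    intro p hp h i
    simp only [chk, beq_iff_eq] at h
    have hT : 0 < T := by omega
    rw [eval_eq_sum_range] at h
    rw [Finset.sum_eq_zero_iff] at h
    by_cases hi : i ∈ Finset.range (p.natDegree + 1)
    · have := h i hi
      rcases Nat.mul_eq_zero.mp this with h1 | h1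
      · rw [h1]; exact dvd_zero _
      · exact absurd h1 (pow_pos hT i).ne'
    · rw [Finset.mem_range] at hi
      rw [coeff_eq_zero_of_natDegree_lt (by omega)]
      exact dvd_zero _
  | succ k ih =>
    intro p hp h i
    simp only [chk, Bool.and_eq_true, beq_iff_eq] at h
    obtain ⟨h1, h2⟩ := h
    have hT : 0 < T := by omega
    have e : ∀ x : ℕ, p.eval x = p.coeff 0 + x * p.divX.eval x := by
      intro x
      conv_lhs => rw [← divX_mul_X_add p]
      simp; ring
    have hc : p.coeff 0 < T := lt_of_le_of_lt (coeff_le_eval_one p 0) hp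
    have e1 : p.eval T % T = p.coeff 0 := by
      rw [e T, Nat.add_mul_mod_self_left, Nat.mod_eq_of_lt hc]
    have e2 : p.eval T / T = p.divX.eval T := by
      rw [e T, Nat.add_mul_div_left _ _ hT, Nat.div_eq_of_lt hc, zero_add]
    rw [e1] at h1
    rw [e2] at h2
    have h3 : p.divX.eval 1 < T := by
      have := e 1; omega
    cases i with
    | zero => exact Nat.dvd_of_mod_eq_zero h1
    | succ i => rw [← coeff_divX]; exact ih p.divX h3 h2 i

theorem ring_zero {R : Type*} [CommRing R] (h3 : (3 : R) = 0) (t : R) (p : ℕ[X])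
    (hp : ∀ i, 3 ∣ p.coeff i) : eval₂ (Nat.castRingHom R) t p = 0 := by
  rw [eval₂_eq_sum_range]
  apply Finset.sum_eq_zero
  intro i _
  obtain ⟨c, hc⟩ := hp i
  rw [hc]
  simp [h3]

/-- checking a triple -/
def okT (T k : ℕ) (r : ℕ × ℕ × ℕ) : Bool := chk T k r.1 && chk T k r.2.1 && chk T k r.2.2

theorem ttot_zero {R : Type*} [CommRing R] (h3 : (3 : R) = 0) (t : R) (l : List ℕ) (T k : ℕ)
    (h1 : (ttot (1 : ℕ) l).1 < T ∧ (ttot (1 : ℕ) l).2.1 < T ∧ (ttot (1 : ℕ) l).2.2 < T)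
    (h2 : okT T k (ttot T l) = true) : ttot t l = (0, 0, 0) := by
  have e1 := tmap_ttot (evalRingHom (1 : ℕ)) (X : ℕ[X]) l
  have e2 := tmap_ttot (evalRingHom (T : ℕ)) (X : ℕ[X]) l
  have e3 := tmap_ttot (eval₂RingHom (Nat.castRingHom R) t) (X : ℕ[X]) l
  simp only [coe_evalRingHom, eval_X] at e1 e2
  simp only [coe_eval₂RingHom, eval₂_X] at e3
  rw [← e1] at h1
  rw [← e2] at h2
  rw [← e3]
  simp only [okT, Bool.and_eq_true] at h2
  obtain ⟨⟨g1, g2⟩, g3⟩ := h2
  obtain ⟨f1, f2, f3⟩ := h1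
  have r1 := ring_zero h3 t _ (chk_sound T k _ f1 g1)
  have r2 := ring_zero h3 t _ (chk_sound T k _ f2 g2)
  have r3 := ring_zero h3 t _ (chk_sound T k _ f3 g3)
  simp only [tmap]
  rw [Prod.mk.injEq, Prod.mk.injEq]
  exact ⟨r1, r2, r3⟩

/-- The list of codes of the counterexample. -/
def codes : List ℕ := [120852, 117068, 81919, 63800, 112097, 2350, 22223, 94462, 29944, 12283,
  1383, 21490, 67788, 167230, 57233, 26896, 139818, 22921, 31506, 153329, 76131, 4482, 53643,
  145238, 153296, 162449, 105474, 39405, 139291, 90291, 75971, 22192, 63197, 140397, 106069,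
  95522, 157121, 1094, 104511, 65709, 18869, 62383, 166238, 1652, 128927, 28337, 174924, 25368,
  96862, 57969, 161621, 36283, 74635, 121137, 81124, 174989, 16511, 49519, 102318, 172894,
  43568, 47240, 49066, 176251, 132358, 172338, 175038, 168738, 32357, 44854, 169823, 157995,
  63285, 46606, 108537, 15620, 148111, 56229, 72763, 171736, 85946, 94031, 1920, 149489,
  162759, 119424, 47820, 60440, 141032, 175021, 7961, 20054, 130195, 53338]

theorem bound_codes : (ttot (1 : ℕ) (1 :: 3 :: 4 :: 5 :: codes)).1 < 2 ^ 128 ∧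
    (ttot (1 : ℕ) (1 :: 3 :: 4 :: 5 :: codes)).2.1 < 2 ^ 128 ∧
    (ttot (1 : ℕ) (1 :: 3 :: 4 :: 5 :: codes)).2.2 < 2 ^ 128 := by decide +kernel

theorem check_codes : okT (2 ^ 128) 90 (ttot (2 ^ 128 : ℕ) (1 :: 3 :: 4 :: 5 :: codes)) = true := by
  decide +kernel

theorem codes_nodup : codes.Nodup := by decide +kernel

theorem codes_lt : ∀ n ∈ codes, n < 3 ^ 11 := by decide +kernel

/-- pair condition -/
def pairOk (n m : ℕ) : Bool := (List.range 9).any fun i => (dg n (i + 2) + dg m (i + 2)) % 3 != 0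

theorem pairs : ∀ n ∈ codes, ∀ m ∈ codes, pairOk n m = true := by decide +kernel

theorem ttot_codes {R : Type*} [CommRing R] (h3 : (3 : R) = 0) (t : R) :
    ttot t (1 :: 3 :: 4 :: 5 :: codes) = (0, 0, 0) :=
  ttot_zero h3 t _ (2 ^ 128) 90 bound_codes check_codes

end Pool.Agent.Helper28.Goss
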