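import Pool.Agent.Helper28.GossSign
import Pool.Agent.Helper28.GossSums

namespace Pool.Agent.Helper28.Goss

variable {F K : Type} [Field F] [Field K] [Algebra F K]

/-- `π` is a uniformiser at `P` and every nonzero element is a power of `π` times a unit. -/
structure IsUnif (P : Place F K) (π : K) : Prop where
  ne_zero : π ≠ 0
  max : ∃ h : π ∈ P.ring, IsLocalRing.maximalIdeal P.ring = Ideal.span {⟨π, h⟩}
  repr : ∀ x : K, x ≠ 0 → ∃ n : ℤ, ∃ u : (P.ring)ˣ, x = π ^ n * ((u : P.ring) : K)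

namespace IsUnif

variable {P : Place F K} {π : K}

theorem mem (h : IsUnif P π) : π ∈ P.ring := h.max.1

theorem unit_ne_zero (u : (P.ring)ˣ) : ((u : P.ring) : K) ≠ 0 := by
  intro h
  have : (u : P.ring) = 0 := by exact_mod_cast h
  exact u.ne_zero this

theorem inv_not_mem (h : IsUnif P π) : π⁻¹ ∉ P.ring := by
  intro hm
  obtain ⟨h1, h2⟩ := h.max
  have hu : IsUnit (⟨π, h1⟩ : P.ring) := by
    refine IsUnit.of_mul_eq_one (⟨π⁻¹, hm⟩ : P.ring) ?_
    ext
    simp [h.ne_zero]
  have h3 : IsLocalRing.maximalIdeal P.ring = ⊤ := by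
    rw [h2, Ideal.span_singleton_eq_top]; exact hu
  exact (IsLocalRing.maximalIdeal.isMaximal P.ring).ne_top h3

theorem zpow_mem_iff (h : IsUnif P π) (n : ℤ) (u : (P.ring)ˣ) :
    π ^ n * ((u : P.ring) : K) ∈ P.ring ↔ 0 ≤ n := by
  constructor
  · intro hm
    by_contra hn
    push Not at hn
    apply h.inv_not_mem
    have h1 : π ^ n ∈ P.ring := by
      have h2 := P.ring.mul_mem _ _ hm (u⁻¹ : (P.ring)ˣ).1.2
      have h3 : ((u : P.ring) : K) * (((u⁻¹ : (P.ring)ˣ) : P.ring) : K) = 1 := by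
        have := u.mul_inv
        exact_mod_cast congrArg (Subtype.val) this
      rwa [mul_assoc, h3, mul_one] at h2
    obtain ⟨k, hk⟩ : ∃ k : ℕ, n = -(k + 1 : ℕ) := ⟨(-n - 1).toNat, by omega⟩
    have h4 : π⁻¹ = π ^ n * π ^ k := by
      rw [hk, zpow_neg, zpow_natCast, pow_succ]
      field_simp [h.ne_zero]
    rw [h4]
    exact P.ring.mul_mem _ _ h1 (pow_mem h.mem k)
  · intro hn
    obtain ⟨k, rfl⟩ := Int.eq_ofNat_of_zero_le hn
    rw [zpow_natCast]
    exact P.ring.mul_mem _ _ (pow_mem h.mem k) (u : P.ring).2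

theorem repr_unique (h : IsUnif P π) {n m : ℤ} {u v : (P.ring)ˣ}
    (e : π ^ n * ((u : P.ring) : K) = π ^ m * ((v : P.ring) : K)) : n = m ∧ u = v := by
  have key : ∀ {n m : ℤ} {u v : (P.ring)ˣ},
      π ^ n * ((u : P.ring) : K) = π ^ m * ((v : P.ring) : K) → n ≤ m := by
    intro n m u v e
    by_contra hlt
    push Not at hlt
    have h1 : π ^ (m - n) * ((v : P.ring) : K) = ((u : P.ring) : K) := by
      rw [zpow_sub₀ h.ne_zero]
      have := zpow_ne_zero n h.ne_zero
      field_simp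
      rw [← e]
    have h2 : π ^ (m - n) * ((v : P.ring) : K) ∈ P.ring := by
      rw [h1]; exact (u : P.ring).2
    rw [h.zpow_mem_iff] at h2
    omega
  have hnm : n = m := le_antisymm (key e) (key e.symm)
  subst hnm
  refine ⟨rfl, ?_⟩
  have := mul_left_cancel₀ (zpow_ne_zero n h.ne_zero) e
  ext
  exact_mod_cast this

theorem hasOrd_iff (h : IsUnif P π) {x : K} {n : ℤ} :
    P.HasOrd x n ↔ ∃ u : (P.ring)ˣ, x = π ^ n * ((u : P.ring) : K) := by
  constructor
  · rintro ⟨π', h1, u, hu⟩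
    obtain ⟨h2, h3⟩ := h.max
    have h4 : Associated (⟨π, h2⟩ : P.ring) π' := by
      rw [← Ideal.span_singleton_eq_span_singleton, ← h3, ← h1]
    obtain ⟨v, hv⟩ := h4
    refine ⟨v ^ n * u, ?_⟩
    have h5 : (π' : K) = π * ((v : P.ring) : K) := by
      rw [← hv]; rfl
    have h6 : (((v ^ n : (P.ring)ˣ) : P.ring) : K) = ((v : P.ring) : K) ^ n := by
      let φ : (P.ring)ˣ →* Kˣ := Units.map (P.ring.subtype : P.ring →* K)
      have : ((φ (v ^ n) : Kˣ) : K) = ((φ v : Kˣ) : K) ^ n := by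
        rw [map_zpow, Units.val_zpow_eq_zpow_val]
      exact this
    rw [hu, h5, mul_zpow]
    push_cast
    rw [h6]
    ring
  · rintro ⟨u, hu⟩
    obtain ⟨h2, h3⟩ := h.max
    exact ⟨⟨π, h2⟩, h3, u, hu⟩

/-- The exponent of a nonzero element. -/
noncomputable def expo (h : IsUnif P π) (x : Kˣ) : ℤ := (h.repr x x.ne_zero).choose

/-- The unit part of a nonzero element. -/
noncomputable def unitPart (h : IsUnif P π) (x : Kˣ) : (P.ring)ˣ :=
  (h.repr x x.ne_zero).choose_spec.choose

theorem expo_spec (h : IsUnif P π) (x : Kˣ) :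
    (x : K) = π ^ (h.expo x) * ((h.unitPart x : P.ring) : K) :=
  (h.repr x x.ne_zero).choose_spec.choose_spec

theorem unitPart_eq (h : IsUnif P π) (x : Kˣ) {n : ℤ} {u : (P.ring)ˣ}
    (e : (x : K) = π ^ n * ((u : P.ring) : K)) : h.unitPart x = u :=
  (h.repr_unique ((h.expo_spec x).symm.trans e)).2

/-- The sign function normalised by `sgn π = 1`. -/
noncomputable def sgn (h : IsUnif P π) : SignK P where
  toHom := (Units.map (IsLocalRing.residue P.ring : P.ring →* P.ResidueField)).comp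
    (MonoidHom.mk' h.unitPart (by
      intro a b
      apply h.unitPart_eq (a * b) (n := h.expo a + h.expo b)
      have ha := h.expo_spec a
      have hb := h.expo_spec b
      rw [Units.val_mul, zpow_add₀ h.ne_zero]
      push_cast
      calc (a : K) * (b : K) = (π ^ h.expo a * ((h.unitPart a : P.ring) : K)) *
            (π ^ h.expo b * ((h.unitPart b : P.ring) : K)) := by rw [← ha, ← hb]
        _ = _ := by ring))
  map_unit := by
    intro x u hx
    have : h.unitPart x = u := h.unitPart_eq x (n := 0) (by rw [zpow_zero, one_mul]; exact hx)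
    simp [this]

theorem sgn_eq (h : IsUnif P π) (x : Kˣ) {n : ℤ} {u : (P.ring)ˣ}
    (e : (x : K) = π ^ n * ((u : P.ring) : K)) :
    ((h.sgn.toHom x : (P.ResidueField)ˣ) : P.ResidueField) =
      IsLocalRing.residue P.ring (u : P.ring) := by
  have : h.unitPart x = u := h.unitPart_eq x e
  simp [sgn, this]

end IsUnif

end Pool.Agent.Helper28.Goss
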