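import Mathlib
import Pool.Agent.Helper28.EtaFinal

/-!
# MP_bd7e56_nt: the limit `S_N(a) → 1` for every real `a > 0`

`eta` is the Dirichlet eta function (entire).  For every real `a > 0` and every `N ≥ 1` we show
that `G_N(a) ≠ 0` (so `S_N(a)` is always defined), that `S_N(a) = 1 / (1 - (-1)^N ρ)` for a real
number `ρ` with `0 < ρ ≤ ((N+3)/(N+1))^(-N(N-1+a)) < 1`, and that `S_N(a) → 1`.
-/

open Filter Topology

namespace Pool.Agent.Helper28.PositiveReal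

/-- The Dirichlet eta function `η(s) = (1 - 2^(1-s)) ζ(s)`, an entire function; the value at the
removable singularity `s = 1` is `log 2`. -/
noncomputable def eta (s : ℂ) : ℂ :=
  if s = 1 then (Real.log 2 : ℂ) else (1 - (2 : ℂ) ^ (1 - s)) * riemannZeta s

/-- The Hankel determinant `H_N(a) = det (η^{(j+k)}(a))_{0 ≤ j,k ≤ N-1}`. -/
noncomputable def H (N : ℕ) (a : ℂ) : ℂ :=
  (Matrix.of fun j k : Fin N => iteratedDeriv ((j : ℕ) + (k : ℕ)) eta a).det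

/-- The Hankel determinant `G_N(a) = det (η^{(j+k+2)}(a))_{0 ≤ j,k ≤ N-2}` (equal to `1` for
`N = 1`). -/
noncomputable def G (N : ℕ) (a : ℂ) : ℂ :=
  (Matrix.of fun j k : Fin (N - 1) => iteratedDeriv ((j : ℕ) + (k : ℕ) + 2) eta a).det

theorem eta_eq : eta = Pool.Agent.Helper28.Eta.eta := rfl

theorem H_eq (N : ℕ) (a : ℂ) : H N a = (Pool.Agent.Helper28.Eta.EE N a).det := rfl

theorem G_eq (n : ℕ) (a : ℂ) : G (n + 1) a =
    ((Pool.Agent.Helper28.Eta.EE (n + 1) a).submatrix Fin.succ Fin.succ).det := by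
  change (Matrix.of fun j k : Fin n => iteratedDeriv ((j : ℕ) + (k : ℕ) + 2) eta a).det = _
  congr 1
  ext j k
  simp only [Matrix.of_apply, Matrix.submatrix_apply, Pool.Agent.Helper28.Eta.EE, Fin.val_succ]
  rw [show (j : ℕ) + 1 + ((k : ℕ) + 1) = (j : ℕ) + (k : ℕ) + 2 by ring]
  rfl

theorem HG_formula {s : ℝ} (hs : 0 < s) {N : ℕ} (hN : 1 ≤ N) :
    H N ((s : ℂ) + s) ≠ 0 ∧ G N ((s : ℂ) + s) =
      H N ((s : ℂ) + s) * ((1 - (-1) ^ N * Pool.Agent.Helper28.Eta.rho N s : ℝ) : ℂ) := by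
  obtain ⟨n, rfl⟩ : ∃ n, N = n + 1 := ⟨N - 1, by omega⟩
  have h1 := Pool.Agent.Helper28.Eta.cc_det_EE (n := n + 1) hs
  have h2 := Pool.Agent.Helper28.Eta.cc_det_UU_sub (n := n + 1) hs
  have h3 := Pool.Agent.Helper28.Eta.det_UU_sub
    (Pool.Agent.Helper28.Eta.EE (n + 1) ((s : ℂ) + s))
  have hc := Pool.Agent.Helper28.Eta.cc_ne (n := n + 1) hs
  have hZ0 := Pool.Agent.Helper28.Eta.ZZ_pos (n := n + 1) (le_refl (0 : ℝ)) hs
  have hsg := Pool.Agent.Helper28.Eta.sg_ne_zero (n + 1)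
  rw [← G_eq, ← H_eq] at h3
  rw [← H_eq] at h1
  have h4 : (Pool.Agent.Helper28.Eta.UU (n + 1) -
      Pool.Agent.Helper28.Eta.EE (n + 1) ((s : ℂ) + s)).det =
      (-1) ^ (n + 1) * (H (n + 1) ((s : ℂ) + s) - G (n + 1) ((s : ℂ) + s)) := by
    rw [← neg_sub, Matrix.det_neg, h3, Fintype.card_fin]
  rw [h4] at h2
  constructor
  · intro h0
    rw [h0, mul_zero] at h1
    have : Pool.Agent.Helper28.Eta.sg (n + 1) * Pool.Agent.Helper28.Eta.ZZ (n + 1) 0 s = 0 := by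
      exact_mod_cast h1.symm
    exact (mul_ne_zero hsg hZ0.ne') this
  · have hZ0' : ((Pool.Agent.Helper28.Eta.ZZ (n + 1) 0 s : ℝ) : ℂ) ≠ 0 := by
      exact_mod_cast hZ0.ne'
    have e : ((-1 : ℂ) ^ (n + 1)) * ((-1 : ℂ) ^ (n + 1)) = 1 := by
      rw [← mul_pow]; simp
    refine mul_left_cancel₀ hc ?_
    rw [← mul_assoc, h1]
    have h5 : Pool.Agent.Helper28.Eta.cc (n + 1) s * G (n + 1) ((s : ℂ) + s) =
        Pool.Agent.Helper28.Eta.cc (n + 1) s * H (n + 1) ((s : ℂ) + s) -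
        (-1) ^ (n + 1) * (Pool.Agent.Helper28.Eta.cc (n + 1) s *
          ((-1) ^ (n + 1) * (H (n + 1) ((s : ℂ) + s) - G (n + 1) ((s : ℂ) + s)))) := by
      linear_combination (Pool.Agent.Helper28.Eta.cc (n + 1) s *
        (H (n + 1) ((s : ℂ) + s) - G (n + 1) ((s : ℂ) + s))) * e
    rw [h5, h1, h2]
    unfold Pool.Agent.Helper28.Eta.rho
    push_cast
    field_simp

/-- For every real `a > 0` and `N ≥ 1`: `H_N(a) ≠ 0`, `G_N(a) ≠ 0`, and
`S_N(a) = H_N(a)/G_N(a) = 1/(1 - (-1)^N ρ)` with `0 < ρ ≤ ((N+3)/(N+1))^(-N(N-1+a))`;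
consequently `S_N(a) → 1`. -/
theorem result (a : ℝ) (ha : 0 < a) :
    (∀ N : ℕ, 1 ≤ N → H N (a : ℂ) ≠ 0 ∧ G N (a : ℂ) ≠ 0 ∧
      ∃ ρ : ℝ, 0 < ρ ∧ ρ < 1 ∧
        ρ ≤ (((N : ℝ) + 3) / ((N : ℝ) + 1)) ^ (-((N : ℝ) * ((N : ℝ) - 1 + a))) ∧
        H N (a : ℂ) / G N (a : ℂ) = ((1 / (1 - (-1) ^ N * ρ) : ℝ) : ℂ)) ∧
    Tendsto (fun N : ℕ => H N (a : ℂ) / G N (a : ℂ)) atTop (𝓝 1) := by
  have hs : 0 < a / 2 := by linarith
  have ha2 : (a : ℂ) = ((a / 2 : ℝ) : ℂ) + ((a / 2 : ℝ) : ℂ) := by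
    push_cast; ring
  have hmain : ∀ N : ℕ, 1 ≤ N → H N (a : ℂ) ≠ 0 ∧ G N (a : ℂ) ≠ 0 ∧
      H N (a : ℂ) / G N (a : ℂ) =
        ((1 / (1 - (-1) ^ N * Pool.Agent.Helper28.Eta.rho N (a / 2)) : ℝ) : ℂ) := by
    intro N hN
    obtain ⟨hH, hG⟩ := HG_formula hs hN
    rw [← ha2] at hH hG
    have hr0 := Pool.Agent.Helper28.Eta.rho_pos (n := N) hs
    have hr1 := Pool.Agent.Helper28.Eta.rho_lt_one hN hs
    have hne : (1 - (-1) ^ N * Pool.Agent.Helper28.Eta.rho N (a / 2) : ℝ) ≠ 0 := by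
      rcases neg_one_pow_eq_or ℝ N with h | h
      · rw [h]; intro h2; linarith
      · rw [h]; intro h2; linarith
    have hne' : ((1 - (-1) ^ N * Pool.Agent.Helper28.Eta.rho N (a / 2) : ℝ) : ℂ) ≠ 0 := by
      exact_mod_cast hne
    have hG0 : G N (a : ℂ) ≠ 0 := by
      rw [hG]; exact mul_ne_zero hH hne'
    refine ⟨hH, hG0, ?_⟩
    rw [hG, Complex.ofReal_div, Complex.ofReal_one]
    field_simp
  have hle : ∀ N : ℕ, 1 ≤ N → Pool.Agent.Helper28.Eta.rho N (a / 2) ≤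
      (((N : ℝ) + 3) / ((N : ℝ) + 1)) ^ (-((N : ℝ) * ((N : ℝ) - 1 + a))) := by
    intro N hN
    have h := Pool.Agent.Helper28.Eta.rho_le hN hs
    rwa [show 2 * (a / 2) = a by ring] at h
  refine ⟨fun N hN => ⟨(hmain N hN).1, (hmain N hN).2.1, Pool.Agent.Helper28.Eta.rho N (a / 2),
    Pool.Agent.Helper28.Eta.rho_pos hs, Pool.Agent.Helper28.Eta.rho_lt_one hN hs, hle N hN,
    (hmain N hN).2.2⟩, ?_⟩
  -- the bound tends to zero
  have hb : ∀ N : ℕ, 1 ≤ N → Pool.Agent.Helper28.Eta.rho N (a / 2) ≤ ((1 : ℝ) + ((N : ℝ) - 1))⁻¹ := by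
    intro N hN
    have hN1 : (1 : ℝ) ≤ (N : ℝ) := by exact_mod_cast hN
    refine (hle N hN).trans ?_
    have hn1 : (0 : ℝ) < (N : ℝ) + 1 := by positivity
    have hl0 : 0 < ((N : ℝ) + 3) / ((N : ℝ) + 1) := by positivity
    rw [Real.rpow_neg hl0.le]
    have hbern : 1 + ((N : ℝ) - 1) ≤
        (((N : ℝ) + 3) / ((N : ℝ) + 1)) ^ ((N : ℝ) * ((N : ℝ) - 1 + a)) := by
      have h1 : ((N : ℝ) + 3) / ((N : ℝ) + 1) = 1 + 2 / ((N : ℝ) + 1) := by
        field_simp; ring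
      have h2 : 1 + (N : ℝ) * (2 / ((N : ℝ) + 1)) ≤ (1 + 2 / ((N : ℝ) + 1)) ^ (N : ℝ) := by
        refine one_add_mul_self_le_rpow_one_add ?_ hN1
        have : 0 ≤ 2 / ((N : ℝ) + 1) := by positivity
        linarith
      have h3 : (2 : ℝ) ≤ 1 + (N : ℝ) * (2 / ((N : ℝ) + 1)) := by
        have : (N : ℝ) * (2 / ((N : ℝ) + 1)) = 2 * (N : ℝ) / ((N : ℝ) + 1) := by ring
        rw [this]
        have : (1 : ℝ) ≤ 2 * (N : ℝ) / ((N : ℝ) + 1) := by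
          rw [le_div_iff₀ hn1]; linarith
        linarith
      have h4 : (2 : ℝ) ≤ (((N : ℝ) + 3) / ((N : ℝ) + 1)) ^ (N : ℝ) := by
        rw [h1]; exact h3.trans h2
      have h5 : (2 : ℝ) ^ ((N : ℝ) - 1 + a) ≤
          (((N : ℝ) + 3) / ((N : ℝ) + 1)) ^ ((N : ℝ) * ((N : ℝ) - 1 + a)) := by
        rw [Real.rpow_mul hl0.le]
        exact Real.rpow_le_rpow (by norm_num) h4 (by linarith)
      have h6 : (2 : ℝ) ^ ((N : ℝ) - 1) ≤ (2 : ℝ) ^ ((N : ℝ) - 1 + a) :=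
        Real.rpow_le_rpow_of_exponent_le (by norm_num) (by linarith)
      have h7 : 1 + ((N : ℝ) - 1) ≤ (2 : ℝ) ^ ((N : ℝ) - 1) := by
        obtain ⟨m, rfl⟩ : ∃ m, N = m + 1 := ⟨N - 1, by omega⟩
        have h8 : (((m + 1 : ℕ) : ℝ) - 1) = (m : ℝ) := by push_cast; ring
        rw [h8, Real.rpow_natCast]
        have h9 : (m + 1 : ℕ) ≤ 2 ^ m := Nat.lt_two_pow_self
        have h10 : ((m + 1 : ℕ) : ℝ) ≤ ((2 ^ m : ℕ) : ℝ) := by exact_mod_cast h9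
        push_cast at h10
        linarith
      linarith
    have hpos : (0 : ℝ) < 1 + ((N : ℝ) - 1) := by linarith
    exact inv_anti₀ hpos hbern
  have hrho : Tendsto (fun N : ℕ => Pool.Agent.Helper28.Eta.rho N (a / 2)) atTop (𝓝 0) := by
    have h0 : Tendsto (fun N : ℕ => ((1 : ℝ) + ((N : ℝ) - 1))⁻¹) atTop (𝓝 0) := by
      have : (fun N : ℕ => ((1 : ℝ) + ((N : ℝ) - 1))⁻¹) = fun N : ℕ => ((N : ℝ))⁻¹ := by
        funext N; congr 1; ring
      rw [this]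
      exact tendsto_inv_atTop_nhds_zero_nat
    refine squeeze_zero' ?_ ?_ h0
    · exact Eventually.of_forall fun N => (Pool.Agent.Helper28.Eta.rho_pos hs).le
    · filter_upwards [eventually_ge_atTop 1] with N hN
      exact hb N hN
  have hs2 : Tendsto (fun N : ℕ => ((-1 : ℝ)) ^ N * Pool.Agent.Helper28.Eta.rho N (a / 2))
      atTop (𝓝 0) := by
    rw [tendsto_zero_iff_norm_tendsto_zero]
    have : (fun N : ℕ => ‖((-1 : ℝ)) ^ N * Pool.Agent.Helper28.Eta.rho N (a / 2)‖) =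
        fun N : ℕ => Pool.Agent.Helper28.Eta.rho N (a / 2) := by
      funext N
      rw [norm_mul, norm_pow, norm_neg, norm_one, one_pow, one_mul, Real.norm_eq_abs,
        abs_of_pos (Pool.Agent.Helper28.Eta.rho_pos hs)]
    rw [this]
    exact hrho
  have hlim : Tendsto (fun N : ℕ =>
      (1 / (1 - (-1) ^ N * Pool.Agent.Helper28.Eta.rho N (a / 2)) : ℝ)) atTop (𝓝 1) := by
    have h1 := (tendsto_const_nhds (x := (1 : ℝ))).sub hs2
    have h2 := (tendsto_const_nhds (x := (1 : ℝ)) (f := (atTop : Filter ℕ))).div h1 (by norm_num)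
    rw [sub_zero, div_one] at h2
    exact h2
  have hlimC := (Complex.continuous_ofReal.tendsto 1).comp hlim
  rw [Complex.ofReal_one] at hlimC
  refine hlimC.congr' ?_
  filter_upwards [eventually_ge_atTop 1] with N hN
  exact ((hmain N hN).2.2).symm

end Pool.Agent.Helper28.PositiveReal
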